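import Pool.Agent.H407Z.BDefs

set_option autoImplicit false

namespace Pool.Agent.H407Z.BestAction

open Relation

namespace GameTree

variable {m : ℕ} (G : GameTree m)

instance : Finite G.Node := G.finite

lemma transGen_irrefl (x : G.Node) : ¬ TransGen G.move x x := by
  have h := G.reach x
  induction h with
  | refl =>
    intro h
    obtain ⟨z, -, hz⟩ := TransGen.tail'_iff.1 h
    exact G.root_no_parent z hz
  | tail _ hxy ih =>
    intro h
    obtain ⟨z, hz1, hz⟩ := TransGen.tail'_iff.1 h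
    have := G.parent_unique _ _ _ hz hxy
    subst this
    exact ih (TransGen.head' hxy hz1)

lemma wf_move : WellFounded (fun y x => G.move x y) := by
  have h : WellFounded (fun y x => TransGen G.move x y) := by
    have : IsTrans G.Node (fun y x => TransGen G.move x y) := ⟨fun _ _ _ h1 h2 => h2.trans h1⟩
    have : Std.Irrefl (fun y x => TransGen G.move x y) := ⟨fun x => G.transGen_irrefl x⟩
    exact Finite.wellFounded_of_trans_of_irrefl _
  exact Subrelation.wf (fun h => TransGen.single h) h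

lemma move_induction (P : G.Node → Prop) (h : ∀ x, (∀ y, G.move x y → P y) → P x) (x : G.Node) :
    P x := G.wf_move.induction x h

/-- domination for a relation `A` -/
def Dom (A : G.Node → G.Node → Prop) (i : Fin (m + 1)) (y z : G.Node) : Prop :=
  ∀ u v, G.IsEnd u → G.IsEnd v → ReflTransGen A y u → ReflTransGen A z v →
    G.pref i u v ∧ ¬ G.pref i v u

lemma Dom.mono {A A' : G.Node → G.Node → Prop} (h : ∀ x y, A' x y → A x y) {i : Fin (m + 1)}
    {y z : G.Node} (hd : G.Dom A i y z) : G.Dom A' i y z :=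
  fun u v hu hv h1 h2 => hd u v hu hv (ReflTransGen.mono h _ _ h1) (ReflTransGen.mono h _ _ h2)

lemma Dom.irrefl {A : G.Node → G.Node → Prop}
    (hne : ∀ y, ∃ u, G.IsEnd u ∧ ReflTransGen A y u) (i : Fin (m + 1)) (y : G.Node) :
    ¬ G.Dom A i y y := by
  intro h
  obtain ⟨u, hu, hyu⟩ := hne y
  have := h u u hu hu hyu hyu
  exact this.2 this.1

lemma Dom.trans {A : G.Node → G.Node → Prop}
    (hne : ∀ y, ∃ u, G.IsEnd u ∧ ReflTransGen A y u) (i : Fin (m + 1)) {y z w : G.Node}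
    (h1 : G.Dom A i y z) (h2 : G.Dom A i z w) : G.Dom A i y w := by
  intro u v hu hv hyu hwv
  obtain ⟨t, ht, hzt⟩ := hne z
  have a1 := h1 u t hu ht hyu hzt
  have a2 := h2 t v ht hv hzt hwv
  exact ⟨G.pref_trans i u t v hu ht hv a1.1 a2.1,
    fun h => a2.2 (G.pref_trans i v u t hv hu ht h a1.1)⟩

lemma exists_max {A : G.Node → G.Node → Prop}
    (hne : ∀ y, ∃ u, G.IsEnd u ∧ ReflTransGen A y u) (i : Fin (m + 1)) (P : G.Node → Prop)
    (hP : ∃ y, P y) : ∃ y, P y ∧ ∀ z, P z → ¬ G.Dom A i y z := by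
  have h : WellFounded (fun z y => G.Dom A i y z) := by
    have : IsTrans G.Node (fun z y => G.Dom A i y z) :=
      ⟨fun _ _ _ h1 h2 => Dom.trans G hne i h2 h1⟩
    have : Std.Irrefl (fun z y => G.Dom A i y z) := ⟨fun x => Dom.irrefl G hne i x⟩
    exact Finite.wellFounded_of_trans_of_irrefl _
  obtain ⟨y, hy, hmin⟩ := h.has_min {y | P y} hP
  exact ⟨y, hy, hmin⟩

lemma active_succ (k : ℕ) (x y : G.Node) : G.active (k + 1) x y ↔
    G.active k x y ∧ ¬ ∃ z, z ≠ y ∧ G.active k x z ∧ G.Dom (G.active k) (G.turn x) y z := Iff.rfl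

lemma active_anti {k l : ℕ} (h : k ≤ l) (x y : G.Node) (ha : G.active l x y) : G.active k x y := by
  induction h with
  | refl => exact ha
  | step _ ih => exact ih ha.1

lemma active_move {k : ℕ} {x y : G.Node} (ha : G.active k x y) : G.move x y :=
  G.active_anti (Nat.zero_le k) x y ha

lemma out_of_serial {A : G.Node → G.Node → Prop} (hA : ∀ x y, A x y → G.move x y)
    (hs : ∀ x, ¬ G.IsEnd x → ∃ y, A x y) (y : G.Node) : ∃ u, G.IsEnd u ∧ ReflTransGen A y u := by
  induction y using G.move_induction with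
  | h x ih =>
    by_cases hx : G.IsEnd x
    · exact ⟨x, hx, .refl⟩
    · obtain ⟨y, hy⟩ := hs x hx
      obtain ⟨u, hu, hyu⟩ := ih y (hA _ _ hy)
      exact ⟨u, hu, .head hy hyu⟩

lemma active_serial (k : ℕ) : ∀ x, ¬ G.IsEnd x → ∃ y, G.active k x y := by
  induction k with
  | zero =>
    intro x hx
    by_contra h
    exact hx (fun y hy => h ⟨y, hy⟩)
  | succ k ih =>
    intro x hx
    have hne := G.out_of_serial (A := G.active k) (fun _ _ h => G.active_move h) ih
    obtain ⟨y, hy, hmax⟩ := G.exists_max hne (G.turn x) (fun y => G.active k x y) (ih x hx)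
    exact ⟨y, hy, fun ⟨z, _, hz, hd⟩ => hmax z hz hd⟩

lemma exists_stage : ∃ K, ∀ x y, G.active K x y ↔ G.best x y := by
  have h : ∀ p : G.Node × G.Node, ∃ k, G.active k p.1 p.2 → G.best p.1 p.2 := by
    intro p
    by_cases hb : G.best p.1 p.2
    · exact ⟨0, fun _ => hb⟩
    · obtain ⟨k, hk⟩ := not_forall.1 hb
      exact ⟨k, fun h => absurd h hk⟩
  choose f hf using h
  obtain ⟨K, hK⟩ := (Set.finite_range f).bddAbove
  refine ⟨K, fun x y => ⟨fun ha => hf (x, y) (G.active_anti (hK ⟨(x, y), rfl⟩) x y ha), fun hb => hb K⟩⟩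

lemma best_move {x y : G.Node} (h : G.best x y) : G.move x y := h 0

lemma best_serial (x : G.Node) (hx : ¬ G.IsEnd x) : ∃ y, G.best x y := by
  obtain ⟨K, hK⟩ := G.exists_stage
  obtain ⟨y, hy⟩ := G.active_serial K x hx
  exact ⟨y, (hK _ _).1 hy⟩

lemma best_out (y : G.Node) : ∃ u, G.IsEnd u ∧ ReflTransGen G.best y u :=
  G.out_of_serial (fun _ _ h => G.best_move h) G.best_serial y

lemma dom_of_not_best {x y : G.Node} (hm : G.move x y) (hb : ¬ G.best x y) :
    ∃ z, G.move x z ∧ G.Dom G.best (G.turn x) y z := by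
  obtain ⟨k, hk⟩ := not_forall.1 hb
  induction k with
  | zero => exact absurd hm hk
  | succ k ih =>
    by_cases ha : G.active k x y
    · rw [active_succ, not_and, not_not] at hk
      obtain ⟨z, -, hz, hd⟩ := hk ha
      exact ⟨z, G.active_move hz, Dom.mono G (fun _ _ h => h k) hd⟩
    · exact ih ha

theorem best_iff (x y : G.Node) :
    G.best x y ↔ G.move x y ∧ ¬ ∃ z, G.move x z ∧ G.Dom G.best (G.turn x) y z := by
  constructor
  · intro hb
    refine ⟨G.best_move hb, fun hz => ?_⟩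
    obtain ⟨w, ⟨hw, hd⟩, hmax⟩ := G.exists_max G.best_out (G.turn x)
      (fun z => G.move x z ∧ G.Dom G.best (G.turn x) y z) hz
    have hwb : G.best x w := by
      by_contra hn
      obtain ⟨z, hz1, hz2⟩ := G.dom_of_not_best hw hn
      exact hmax z ⟨hz1, Dom.trans G G.best_out _ hd hz2⟩ hz2
    obtain ⟨K, hK⟩ := G.exists_stage
    refine (hb (K + 1)).2 ⟨w, ?_, hwb K, Dom.mono G (fun a b h => (hK a b).1 h) hd⟩
    rintro rfl
    exact Dom.irrefl G G.best_out _ _ hd
  · rintro ⟨hm, hz⟩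
    by_contra hb
    exact hz (G.dom_of_not_best hm hb)

/-- the outcomes of best play from a node -/
def Out (x u : G.Node) : Prop := G.IsEnd u ∧ ReflTransGen G.best x u

lemma out_iff (x u : G.Node) :
    G.Out x u ↔ (G.IsEnd x ∧ u = x) ∨ ∃ y, G.best x y ∧ G.Out y u := by
  constructor
  · rintro ⟨hu, h⟩
    rcases h.cases_head with rfl | ⟨y, hy, hyu⟩
    · exact Or.inl ⟨hu, rfl⟩
    · exact Or.inr ⟨y, hy, hu, hyu⟩
  · rintro (⟨hx, rfl⟩ | ⟨y, hy, hu, hyu⟩)
    · exact ⟨hx, .refl⟩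
    · exact ⟨hu, .head hy hyu⟩

/-- `lo`, `hi` are the least and the largest value of `U` on the outcomes from `x` -/
def Ext (U : G.Node → ℚ) (x : G.Node) (lo hi : ℚ) : Prop :=
  (∀ u, G.Out x u → lo ≤ U u ∧ U u ≤ hi) ∧ (∃ u, G.Out x u ∧ U u = lo) ∧ ∃ u, G.Out x u ∧ U u = hi

lemma exists_ext (U : G.Node → ℚ) (x : G.Node) : ∃ lo hi, G.Ext U x lo hi := by
  have hne : {u | G.Out x u}.Nonempty := G.best_out x
  obtain ⟨a, ha, hmin⟩ := Set.exists_min_image {u | G.Out x u} U (Set.toFinite _) hne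
  obtain ⟨b, hb, hmax⟩ := Set.exists_max_image {u | G.Out x u} U (Set.toFinite _) hne
  exact ⟨U a, U b, fun u hu => ⟨hmin u hu, hmax u hu⟩, ⟨a, ha, rfl⟩, ⟨b, hb, rfl⟩⟩

lemma dom_iff {U : G.Node → ℚ} {i : Fin (m + 1)}
    (hU : ∀ u v, G.IsEnd u → G.IsEnd v → (G.pref i u v ↔ U u ≤ U v)) {y z : G.Node}
    {ly hy lz hz : ℚ} (h1 : G.Ext U y ly hy) (h2 : G.Ext U z lz hz) :
    G.Dom G.best i y z ↔ hy < lz := by
  constructor
  · intro h
    obtain ⟨u, hu, rfl⟩ := h1.2.2
    obtain ⟨v, hv, rfl⟩ := h2.2.1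
    have := (h u v hu.1 hv.1 hu.2 hv.2).2
    rw [hU v u hv.1 hu.1] at this
    exact not_le.1 this
  · intro h u v hu hv hyu hzv
    have a1 := (h1.1 u ⟨hu, hyu⟩).2
    have a2 := (h2.1 v ⟨hv, hzv⟩).1
    rw [hU u v hu hv, hU v u hv hu]
    constructor <;> [linarith; exact not_le.2 (by linarith)]

/-- with a threshold -/
lemma best_iff_th {U : G.Node → ℚ} {x : G.Node}
    (hU : ∀ u v, G.IsEnd u → G.IsEnd v → (G.pref (G.turn x) u v ↔ U u ≤ U v))
    (lo hi : G.Node → ℚ) (hE : ∀ y, G.move x y → G.Ext U y (lo y) (hi y)) (th : ℚ)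
    (h1 : ∀ z, G.move x z → lo z ≤ th) (h2 : ∃ z, G.move x z ∧ th ≤ lo z) (y : G.Node)
    (hy : G.move x y) : G.best x y ↔ th ≤ hi y := by
  rw [best_iff]
  constructor
  · rintro ⟨-, h⟩
    obtain ⟨z, hz, hz2⟩ := h2
    by_contra hn
    exact h ⟨z, hz, (G.dom_iff hU (hE y hy) (hE z hz)).2 (by linarith [not_le.1 hn])⟩
  · intro h
    refine ⟨hy, fun ⟨z, hz, hd⟩ => ?_⟩
    have := (G.dom_iff hU (hE y hy) (hE z hz)).1 hd
    linarith [h1 z hz]

lemma exists_util (i : Fin (m + 1)) : ∃ U : G.Node → ℚ, (∀ u, 0 ≤ U u) ∧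
    ∀ u v, G.IsEnd u → G.IsEnd v → (G.pref i u v ↔ U u ≤ U v) := by
  refine ⟨fun u => ({w | G.IsEnd w ∧ G.pref i w u}.ncard : ℚ), fun u => by positivity, ?_⟩
  intro u v hu hv
  simp only [Nat.cast_le]
  constructor
  · intro h
    exact Set.ncard_le_ncard (fun w hw => ⟨hw.1, G.pref_trans i w u v hw.1 hu hv hw.2 h⟩)
      (Set.toFinite _)
  · intro h
    by_contra hn
    have hvu : G.pref i v u := (G.pref_total i u v hu hv).resolve_left hn
    have hsub : {w | G.IsEnd w ∧ G.pref i w v} ⊂ {w | G.IsEnd w ∧ G.pref i w u} := by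
      refine ⟨fun w hw => ⟨hw.1, G.pref_trans i w v u hw.1 hv hu hw.2 hvu⟩, fun hc => hn ?_⟩
      exact (hc ⟨hu, (G.pref_total i u u hu hu).elim id id⟩).2
    exact absurd (Set.ncard_lt_ncard hsub (Set.toFinite _)) (not_lt.2 h)

end GameTree

end Pool.Agent.H407Z.BestAction
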