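import Mathlib

set_option autoImplicit false

namespace Pool.Agent.H407Z.BestAction

/-- A finite game tree for the players `0, …, m`: a finite rooted tree whose moves point from
parent to child, a turn label (read at non-leaf nodes only) and, for each player, a total preorder
on the end nodes (`pref i u v`: player `i` weakly prefers `v` to `u`; read on end nodes only). -/
structure GameTree (m : ℕ) : Type 1 where
  Node : Type
  finite : Finite Node
  move : Node → Node → Prop
  root : Node
  root_no_parent : ∀ x, ¬ move x root
  parent_unique : ∀ x y z, move x z → move y z → x = y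
  reach : ∀ x, Relation.ReflTransGen move root x
  turn : Node → Fin (m + 1)
  pref : Fin (m + 1) → Node → Node → Prop
  pref_total : ∀ i u v, (∀ y, ¬ move u y) → (∀ y, ¬ move v y) → pref i u v ∨ pref i v u
  pref_trans : ∀ i u v w, (∀ y, ¬ move u y) → (∀ y, ¬ move v y) → (∀ y, ¬ move w y) →
    pref i u v → pref i v w → pref i u w

namespace GameTree

variable {m : ℕ} (G : GameTree m)

/-- End nodes (leaves). -/
def IsEnd (u : G.Node) : Prop := ∀ y, ¬ G.move u y

/-- The moves that are active at a stage of relational Backward Induction: at first all moves; an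
active move `x → y` becomes passive if another active move `x → z` has `u <_i v` (`i` the turn at
`x`) for all end nodes `u`, `v` reachable by active moves from `y`, `z`. -/
def active : ℕ → G.Node → G.Node → Prop
  | 0 => G.move
  | k + 1 => fun x y => active k x y ∧ ¬ ∃ z, z ≠ y ∧ active k x z ∧
      ∀ u v, G.IsEnd u → G.IsEnd v → Relation.ReflTransGen (active k) y u →
        Relation.ReflTransGen (active k) z v → G.pref (G.turn x) u v ∧ ¬ G.pref (G.turn x) v u

/-- The relation `best`: the moves that stay active at all stages. -/
def best (x y : G.Node) : Prop := ∀ k, G.active k x y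

end GameTree

/-- The modalities: `move`, `move-i`, `move⁺`, `pref_i`, `best`, `best*`. -/
inductive Modality (m : ℕ) : Type
  | move : Modality m
  | moveOf : Fin (m + 1) → Modality m
  | movePlus : Modality m
  | pref : Fin (m + 1) → Modality m
  | best : Modality m
  | bestStar : Modality m

/-- Formulas. The other Boolean connectives and the boxes (`[R]φ = ¬⟨R⟩¬φ`) are the usual
abbreviations. -/
inductive Form (m : ℕ) : Type
  | atom : ℕ → Form m
  | isEnd : Form m
  | turn : Fin (m + 1) → Form m
  | neg : Form m → Form m
  | conj : Form m → Form m → Form m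
  | dia : Modality m → Form m → Form m

/-- The accessibility relation of a modality in a game tree. -/
def GameTree.rel {m : ℕ} (G : GameTree m) : Modality m → G.Node → G.Node → Prop
  | .move => G.move
  | .moveOf i => fun x y => G.move x y ∧ G.turn x = i
  | .movePlus => Relation.TransGen G.move
  | .pref i => fun u v => G.IsEnd u ∧ G.IsEnd v ∧ G.pref i u v
  | .best => G.best
  | .bestStar => Relation.ReflTransGen G.best

/-- Truth of a formula at a node under a valuation. -/
def GameTree.sat {m : ℕ} (G : GameTree m) (V : ℕ → G.Node → Prop) : Form m → G.Node → Prop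
  | .atom p => V p
  | .isEnd => G.IsEnd
  | .turn i => fun x => ¬ G.IsEnd x ∧ G.turn x = i
  | .neg φ => fun x => ¬ sat G V φ x
  | .conj φ ψ => fun x => sat G V φ x ∧ sat G V ψ x
  | .dia R φ => fun x => ∃ y, G.rel R x y ∧ sat G V φ y

/-- Validity: truth at every node of every finite game tree under every valuation. -/
def Valid {m : ℕ} (φ : Form m) : Prop :=
  ∀ (G : GameTree m) (V : ℕ → G.Node → Prop) (x : G.Node), G.sat V φ x

/-- Gödel numbering of formulas: the residue modulo 11 gives the main symbol, the quotient its
arguments. -/
def Form.code {m : ℕ} : Form m → ℕ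
  | .atom p => 11 * p
  | .isEnd => 1
  | .turn i => 11 * i.val + 2
  | .neg φ => 11 * φ.code + 3
  | .conj φ ψ => 11 * Nat.pair φ.code ψ.code + 4
  | .dia .move φ => 11 * φ.code + 5
  | .dia (.moveOf i) φ => 11 * Nat.pair i.val φ.code + 6
  | .dia .movePlus φ => 11 * φ.code + 7
  | .dia (.pref i) φ => 11 * Nat.pair i.val φ.code + 8
  | .dia .best φ => 11 * φ.code + 9
  | .dia .bestStar φ => 11 * φ.code + 10

end Pool.Agent.H407Z.BestAction
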