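import Pool.Agent.H407Z.BUnr

set_option autoImplicit false

namespace Pool.Agent.H407Z.BestAction

open Relation

/-- digits -/
def dg (D n a : ℕ) : ℕ := n / D ^ a % D

lemma exists_digits (D : ℕ) (L : ℕ) : ∀ d : ℕ → ℕ, (∀ a, a < L → d a < D) →
    ∃ n, n < D ^ L ∧ ∀ a, a < L → dg D n a = d a := by
  induction L with
  | zero => intro d _; exact ⟨0, by simp, fun a h => absurd h (Nat.not_lt_zero a)⟩
  | succ L ih =>
    intro d hd
    obtain ⟨n, hn, h⟩ := ih (fun a => d (a + 1)) (fun a ha => hd _ (by omega))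
    have h0 := hd 0 (by omega)
    have hD : 0 < D := by omega
    refine ⟨d 0 + D * n, ?_, fun a ha => ?_⟩
    · rw [pow_succ]
      nlinarith
    · cases a with
      | zero => simp [dg, Nat.mod_eq_of_lt h0]
      | succ a =>
        rw [← h a (by omega)]
        unfold dg
        rw [pow_succ', ← Nat.div_div_eq_div_mul, Nat.add_mul_div_left _ _ hD, Nat.div_eq_of_lt h0,
          zero_add]

/-- membership in a coded set -/
def bit (S n : ℕ) : Prop := dg 2 S n = 1

lemma exists_bits (L : ℕ) (P : ℕ → Prop) : ∃ S, S < 2 ^ L ∧ ∀ a, a < L → (bit S a ↔ P a) := by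
  classical
  obtain ⟨n, hn, h⟩ := exists_digits 2 L (fun a => if P a then 1 else 0)
    (fun a _ => by split_ifs <;> omega)
  refine ⟨n, hn, fun a ha => ?_⟩
  unfold bit
  rw [h a ha]
  split_ifs with hp <;> simp [hp]

/-- the labels of a coded state -/
def glab (M n a : ℕ) : Prop := dg (2 * M + 2) n (2 * min a M) = 1

/-- the values of a coded state -/
def gval (M n a : ℕ) : ℕ := dg (2 * M + 2) n (2 * min a M + 1)

/-- a coded state -/
def gst (M n : ℕ) : St ℕ := ⟨glab M n, gval M n⟩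

/-- the number of codes -/
def BB (M : ℕ) : ℕ := (2 * M + 2) ^ (2 * M + 2)

def EqvB (M p t : ℕ) : Prop :=
  (∀ a, a < M + 1 → (glab M p a ↔ glab M t a)) ∧
    ∀ a, a < M + 1 → ∀ b, b < M + 1 → (gval M p a ≤ gval M p b ↔ gval M t a ≤ gval M t b)

def gkids (M C : ℕ) : Set CV :=
  (fun q => cv (gst M (q / BB M)) (gst M (q % BB M))) '' {q | q < BB M * BB M ∧ bit C q}

def Closed (m c S : ℕ) : Prop :=
  ∀ t, t < BB (MM m c) → ∀ i, i < m + 1 → ∀ C, C < 2 ^ (BB (MM m c) * BB (MM m c)) →
    (∀ q, q < BB (MM m c) * BB (MM m c) → bit C q →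
      EqvB (MM m c) (q / BB (MM m c)) t ∧ bit S (q % BB (MM m c))) →
    Loc m c i (gst (MM m c) t).lab (gst (MM m c) t).le (gkids (MM m c) C) → bit S t

def Dec (m c : ℕ) : Prop :=
  ∃ S, S < 2 ^ BB (MM m c) ∧ Closed m c S ∧
    ∀ t, t < BB (MM m c) → Bad c (gst (MM m c) t).lab → ¬ bit S t

lemma BB_pos (M : ℕ) : 0 < BB M := by unfold BB; positivity

lemma eqvB_iff (M p t : ℕ) :
    EqvB M p t ↔ (gst M p).lab = (gst M t).lab ∧ (gst M p).le = (gst M t).le := by
  have h1 : ∀ n a, glab M n a ↔ glab M n (min a M) := by intro n a; simp [glab]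
  have h2 : ∀ n a, gval M n a = gval M n (min a M) := by intro n a; simp [gval]
  have h3 : ∀ a, min a M < M + 1 := fun a => Nat.lt_succ_of_le (min_le_right _ _)
  constructor
  · rintro ⟨ha, hb⟩
    constructor
    · funext a
      apply propext
      show glab M p a ↔ glab M t a
      rw [h1 p, h1 t]
      exact ha _ (h3 a)
    · funext a b
      apply propext
      show gval M p a ≤ gval M p b ↔ gval M t a ≤ gval M t b
      rw [h2 p a, h2 p b, h2 t a, h2 t b]
      exact hb _ (h3 a) _ (h3 b)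
  · rintro ⟨ha, hb⟩
    exact ⟨fun a _ => iff_of_eq (congrFun ha a), fun a _ b _ => iff_of_eq (congrFun₂ hb a b)⟩

lemma exists_code (M : ℕ) (lab : ℕ → Prop) (val : ℕ → ℕ) (h : ∀ a, a ≤ M → val a < 2 * M + 2) :
    ∃ n, n < BB M ∧ ∀ a, (glab M n a ↔ lab (min a M)) ∧ gval M n a = val (min a M) := by
  classical
  obtain ⟨n, hn, hd⟩ := exists_digits (2 * M + 2) (2 * M + 2)
    (fun a => if a % 2 = 0 then (if lab (a / 2) then 1 else 0) else val (a / 2)) (fun a ha => by
      split_ifs
      · omega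
      · omega
      · exact h _ (by omega))
  refine ⟨n, hn, fun a => ?_⟩
  have h0 : min a M ≤ M := min_le_right _ _
  unfold glab gval
  generalize min a M = b at h0
  rw [hd _ (by omega), hd _ (by omega)]
  have e1 : 2 * b % 2 = 0 := by omega
  have e2 : 2 * b / 2 = b := by omega
  have e3 : (2 * b + 1) % 2 ≠ 0 := by omega
  have e4 : (2 * b + 1) / 2 = b := by omega
  rw [if_pos e1, if_neg e3, e2, e4]
  refine ⟨?_, rfl⟩
  split_ifs with hp <;> simp [hp]

lemma exists_rank (N : ℕ) (J : ℕ → ℚ) : ∃ ρ : ℚ → ℕ, (∀ a, a < N → ρ (J a) < N) ∧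
    ∀ a, a < N → ∀ b, b < N → (ρ (J a) ≤ ρ (J b) ↔ J a ≤ J b) := by
  refine ⟨fun v => ((Finset.range N).filter (fun a => J a < v)).card, fun a ha => ?_,
    fun a ha b hb => ⟨fun h => ?_, fun h => ?_⟩⟩
  · conv_rhs => rw [← Finset.card_range N]
    apply Finset.card_lt_card
    refine ⟨Finset.filter_subset _ _, fun h => ?_⟩
    have := h (Finset.mem_range.2 ha)
    simp at this
  · by_contra hn
    have hlt := not_le.1 hn
    refine absurd h (not_le.2 (Finset.card_lt_card ⟨fun x hx => ?_, fun h => ?_⟩))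
    · simp only [Finset.mem_filter] at hx ⊢
      exact ⟨hx.1, hx.2.trans hlt⟩
    · have := h (Finset.mem_filter.2 ⟨Finset.mem_range.2 hb, hlt⟩)
      simp at this
  · apply Finset.card_le_card
    intro x hx
    simp only [Finset.mem_filter] at hx ⊢
    exact ⟨hx.1, hx.2.trans_le h⟩

lemma exists_joint (M : ℕ) (x y : St ℚ) (hx : x.Normal M) (hy : y.Normal M) :
    ∃ p, p < BB M ∧ ∃ q, q < BB M ∧ ((gst M p).lab = x.lab ∧ (gst M p).le = x.le) ∧
      ((gst M q).lab = y.lab ∧ (gst M q).le = y.le) ∧ cv (gst M p) (gst M q) = cv x y := by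
  have hm : ∀ a, min a M ≤ M := fun a => min_le_right _ _
  obtain ⟨J, ex, ey⟩ : ∃ J : ℕ → ℚ, (∀ a, J (min a M) = x.val a) ∧
      ∀ a, J (min a M + (M + 1)) = y.val a := by
    refine ⟨fun a => if a ≤ M then x.val a else y.val (a - (M + 1)), fun a => ?_, fun a => ?_⟩
    · simp only [hm a, if_true]
      exact (hx a).2.symm
    · have : ¬ (min a M + (M + 1) ≤ M) := by omega
      simp only [this, if_false, Nat.add_sub_cancel]
      exact (hy a).2.symm
  obtain ⟨ρ, h1, h2⟩ := exists_rank (2 * M + 2) J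
  have bx : ∀ a, min a M < 2 * M + 2 := fun a => by have := hm a; omega
  have by' : ∀ a, min a M + (M + 1) < 2 * M + 2 := fun a => by have := hm a; omega
  have cxx : ∀ a b, ρ (x.val a) ≤ ρ (x.val b) ↔ x.val a ≤ x.val b := fun a b => by
    have := h2 _ (bx a) _ (bx b); simpa only [ex, ey] using this
  have cxy : ∀ a b, ρ (x.val a) ≤ ρ (y.val b) ↔ x.val a ≤ y.val b := fun a b => by
    have := h2 _ (bx a) _ (by' b); simpa only [ex, ey] using this
  have cyx : ∀ a b, ρ (y.val a) ≤ ρ (x.val b) ↔ y.val a ≤ x.val b := fun a b => by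
    have := h2 _ (by' a) _ (bx b); simpa only [ex, ey] using this
  have cyy : ∀ a b, ρ (y.val a) ≤ ρ (y.val b) ↔ y.val a ≤ y.val b := fun a b => by
    have := h2 _ (by' a) _ (by' b); simpa only [ex, ey] using this
  obtain ⟨p, hp, hp2⟩ := exists_code M x.lab (fun a => ρ (x.val a))
    (fun a _ => by have := h1 _ (bx a); rwa [ex] at this)
  obtain ⟨q, hq, hq2⟩ := exists_code M y.lab (fun a => ρ (y.val a))
    (fun a _ => by have := h1 _ (by' a); rwa [ey] at this)
  have lp : (gst M p).lab = x.lab := funext fun a => propext ((hp2 a).1.trans (hx a).1.symm)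
  have lq : (gst M q).lab = y.lab := funext fun a => propext ((hq2 a).1.trans (hy a).1.symm)
  have vp : ∀ a, (gst M p).val a = ρ (x.val a) := fun a => (hp2 a).2.trans (by rw [← (hx a).2])
  have vq : ∀ a, (gst M q).val a = ρ (y.val a) := fun a => (hq2 a).2.trans (by rw [← (hy a).2])
  refine ⟨p, hp, q, hq, ⟨lp, ?_⟩, ⟨lq, ?_⟩, ?_⟩
  · funext a b
    apply propext
    simp only [St.le, vp, cxx]
  · funext a b
    apply propext
    simp only [St.le, vq, cyy]
  · simp only [cv, lq, vp, vq, cxy, cyx]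

theorem complete {m c : ℕ} (hD : Dec m c) (G : GameTree m) (V : ℕ → G.Node → Prop) (x0 : G.Node) :
    ¬ satN G V c x0 := by
  intro hx
  obtain ⟨S, -, hC, hB⟩ := hD
  obtain ⟨s, hN, hL, hb⟩ := t1_main G V c x0 hx
  have key : ∀ x, ∀ t, t < BB (MM m c) → (gst (MM m c) t).lab = (s x).lab →
      (gst (MM m c) t).le = (s x).le → bit S t := by
    intro x
    induction x using G.move_induction with
    | h x ih =>
      intro t ht h1 h2
      have hj := fun y => exists_joint (MM m c) (s x) (s y) (hN x) (hN y)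
      choose p hp q hq hpx hqy hcv using hj
      obtain ⟨C, hCb, hCm⟩ := exists_bits (BB (MM m c) * BB (MM m c))
        (fun r => ∃ y, G.move x y ∧ r = q y + BB (MM m c) * p y)
      have e1 : ∀ y, (q y + BB (MM m c) * p y) / BB (MM m c) = p y := fun y => by
        rw [Nat.add_mul_div_left _ _ (BB_pos _), Nat.div_eq_of_lt (hq y), zero_add]
      have e2 : ∀ y, (q y + BB (MM m c) * p y) % BB (MM m c) = q y := fun y => by
        rw [Nat.add_mul_mod_self_left, Nat.mod_eq_of_lt (hq y)]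
      have e3 : ∀ y, q y + BB (MM m c) * p y < BB (MM m c) * BB (MM m c) := fun y => by
        have a1 := hp y
        have a2 := hq y
        nlinarith
      refine hC t ht (G.turn x) (G.turn x).2 C hCb ?_ ?_
      · intro r hr hb
        obtain ⟨y, hy, rfl⟩ := (hCm r hr).1 hb
        rw [e1, e2, eqvB_iff]
        exact ⟨⟨(hpx y).1.trans h1.symm, (hpx y).2.trans h2.symm⟩,
          ih y hy _ (hq y) (hqy y).1 (hqy y).2⟩
      · have : gkids (MM m c) C = kids G s x := by
          ext v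
          simp only [gkids, kids, Set.mem_image, Set.mem_ofPred_eq]
          constructor
          · rintro ⟨r, ⟨hr, hb⟩, rfl⟩
            obtain ⟨y, hy, rfl⟩ := (hCm r hr).1 hb
            exact ⟨y, hy, by rw [e1, e2, hcv]⟩
          · rintro ⟨y, hy, rfl⟩
            exact ⟨_, ⟨e3 y, (hCm _ (e3 y)).2 ⟨y, hy, rfl⟩⟩, by rw [e1, e2, hcv]⟩
        rw [this, h1, h2]
        exact hL x
  obtain ⟨p, hp, -, -, ⟨h1, h2⟩, -⟩ := exists_joint (MM m c) (s G.root) (s G.root) (hN _) (hN _)
  exact hB p hp (by rw [h1]; exact hb) (key G.root p hp h1 h2)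

lemma exists_extension (N : ℕ) (u v : ℕ → ℚ)
    (h : ∀ a, a < N → ∀ b, b < N → (u a ≤ u b ↔ v a ≤ v b)) :
    ∃ g : ℚ → ℚ, StrictMono g ∧ ∀ a, a < N → g (u a) = v a := by
  classical
  let f0 : Order.PartialIso ℚ ℚ := ⟨(Finset.range N).image (fun a => (u a, v a)), by
    intro p hp q hq
    obtain ⟨a, ha, rfl⟩ := Finset.mem_image.1 hp
    obtain ⟨b, hb, rfl⟩ := Finset.mem_image.1 hq
    have h1 := h a (Finset.mem_range.1 ha) b (Finset.mem_range.1 hb)
    have h2 := h b (Finset.mem_range.1 hb) a (Finset.mem_range.1 ha)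
    simp only [cmp, cmpUsing, ← not_le, h1, h2]⟩
  let I : Order.Ideal (Order.PartialIso ℚ ℚ) :=
    Order.idealOfCofinals f0 (Order.PartialIso.definedAtLeft ℚ)
  let F a := Order.PartialIso.funOfIdeal a I (Order.cofinal_meets_idealOfCofinals _ _ a)
  refine ⟨fun a => (F a).val, fun a₁ a₂ => ?_, fun a ha => ?_⟩
  · rcases (F a₁).prop with ⟨f, hf, ha₁⟩
    rcases (F a₂).prop with ⟨g, hg, ha₂⟩
    rcases I.directed _ hf _ hg with ⟨k, _, fm, gm⟩
    exact (lt_iff_lt_of_cmp_eq_cmp <| k.prop (a₁, _) (fm ha₁) (a₂, _) (gm ha₂)).mp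
  · rcases (F (u a)).prop with ⟨f, hf, ha₁⟩
    have h0 : f0 ∈ I := Order.mem_idealOfCofinals _ _
    rcases I.directed _ hf _ h0 with ⟨k, _, fm, gm⟩
    have ha₂ : (u a, v a) ∈ f0.val := Finset.mem_image.2 ⟨a, Finset.mem_range.2 ha, rfl⟩
    have := k.prop (u a, _) (fm ha₁) (u a, _) (gm ha₂)
    simp only [cmp_self_eq_eq] at this
    exact (cmp_eq_eq_iff _ _).1 this.symm

/-- a coded state as a rational state -/
def qst (M n : ℕ) : St ℚ := ⟨glab M n, fun a => (gval M n a : ℚ)⟩

lemma qst_le (M n : ℕ) : (qst M n).le = (gst M n).le := by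
  funext a b
  exact propext Nat.cast_le

lemma qst_cv (M p q : ℕ) : cv (qst M p) (qst M q) = cv (gst M p) (gst M q) := by
  simp only [cv, qst, gst, Nat.cast_le]

lemma exists_move (M p t : ℕ) (h : EqvB M p t) :
    ∃ g : ℚ → ℚ, StrictMono g ∧ (qst M p).map g = qst M t := by
  obtain ⟨g, hg, h2⟩ := exists_extension (M + 1) (qst M p).val (qst M t).val (fun a ha b hb => by
    simp only [qst, Nat.cast_le]
    exact h.2 a ha b hb)
  refine ⟨g, hg, ?_⟩
  have h3 := ((eqvB_iff M p t).1 h).1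
  unfold St.map
  have h4 : (fun a => g ((qst M p).val a)) = (qst M t).val := by
    funext a
    have := h2 (min a M) (Nat.lt_succ_of_le (min_le_right _ _))
    simpa [qst, gval] using this
  rw [h4]
  exact congrArg (fun l => St.mk l (qst M t).val) h3

theorem sound {m c : ℕ} (φ : Form m) (hφ : φ.code = c)
    (h : ∀ (G : GameTree m) (V : ℕ → G.Node → Prop) (x : G.Node), ¬ G.sat V φ x) : Dec m c := by
  classical
  obtain ⟨S, hS, hS2⟩ := exists_bits (BB (MM m c)) (fun t => Real m c (qst (MM m c) t))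
  refine ⟨S, hS, ?_, ?_⟩
  · intro t ht i hi C _ hC hL
    rw [hS2 t ht]
    have h1 : ∀ q, ∃ g : ℚ → ℚ, StrictMono g ∧ (q < BB (MM m c) * BB (MM m c) → bit C q →
        (qst (MM m c) (q / BB (MM m c))).map g = qst (MM m c) t) := by
      intro q
      by_cases hq : q < BB (MM m c) * BB (MM m c) ∧ bit C q
      · obtain ⟨g, hg, h2⟩ := exists_move _ _ _ (hC q hq.1 hq.2).1
        exact ⟨g, hg, fun _ _ => h2⟩
      · exact ⟨id, strictMono_id, fun a b => absurd ⟨a, b⟩ hq⟩
    choose g hg hg2 using h1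
    refine real_of_loc _ i hi (((List.range (BB (MM m c) * BB (MM m c))).filter
      (fun q => decide (bit C q))).map (fun q => (qst (MM m c) (q % BB (MM m c))).map (g q))) ?_ ?_
    · intro y hy
      simp only [List.mem_map, List.mem_filter, List.mem_range, decide_eq_true_eq] at hy
      obtain ⟨q, ⟨hq1, hq2⟩, rfl⟩ := hy
      exact real_map (hg q) _ ((hS2 _ (Nat.mod_lt _ (BB_pos _))).1 (hC q hq1 hq2).2)
    · have e : ∀ q, q < BB (MM m c) * BB (MM m c) → bit C q →
          cv (qst (MM m c) t) ((qst (MM m c) (q % BB (MM m c))).map (g q)) =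
            cv (gst (MM m c) (q / BB (MM m c))) (gst (MM m c) (q % BB (MM m c))) := by
        intro q h1 h2
        rw [← hg2 q h1 h2, cv_map (hg q), qst_cv]
      have : cv (qst (MM m c) t) '' {y | y ∈ (((List.range (BB (MM m c) * BB (MM m c))).filter
          (fun q => decide (bit C q))).map
            (fun q => (qst (MM m c) (q % BB (MM m c))).map (g q)))} = gkids (MM m c) C := by
        ext v
        simp only [gkids, Set.mem_image, Set.mem_ofPred_eq, List.mem_map, List.mem_filter,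
          List.mem_range, decide_eq_true_eq]
        constructor
        · rintro ⟨y, ⟨q, ⟨hq1, hq2⟩, rfl⟩, rfl⟩
          exact ⟨q, ⟨hq1, hq2⟩, (e q hq1 hq2).symm⟩
        · rintro ⟨q, ⟨hq1, hq2⟩, rfl⟩
          exact ⟨_, ⟨q, ⟨hq1, hq2⟩, rfl⟩, e q hq1 hq2⟩
      rw [this, qst_le]
      exact hL
  · intro t ht hB hb
    obtain ⟨G, V, x, hx⟩ := real_sat _ ((hS2 t ht).1 hb) hB φ hφ
    exact h G V x hx

theorem valid_iff_dec {m : ℕ} (φ : Form m) : Valid φ ↔ Dec m (11 * φ.code + 3) := by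
  constructor
  · intro h
    exact sound (.neg φ) rfl (fun G V x hx => hx (h G V x))
  · intro h G V x
    have := complete h G V x
    have e : 11 * φ.code + 3 = (Form.neg φ).code := rfl
    rw [e, satN_code] at this
    exact not_not.1 this

end Pool.Agent.H407Z.BestAction
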