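import Pool.Agent.H407Z.BBest

set_option autoImplicit false

namespace Pool.Agent.H407Z.BestAction

/-- A state: labels (`3k`: truth of the formula with code `k`; `3k+1`: truth somewhere below;
`3k+2`: a witness below) and values (`3k`: threshold of the formula with code `k`; `3j+1`, `3j+2`:
least and largest outcome value of player `j`; `3(m+1)+1`: the threshold of best moves). -/
structure St (α : Type) where
  lab : ℕ → Prop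
  val : ℕ → α

/-- What a parent sees of a child. -/
structure CV where
  lab : ℕ → Prop
  up : ℕ → ℕ → Prop
  dn : ℕ → ℕ → Prop

def cv {α : Type} [LE α] (p y : St α) : CV :=
  ⟨y.lab, fun a b => y.val a ≤ p.val b, fun a b => p.val a ≤ y.val b⟩

def St.le {α : Type} [LE α] (s : St α) : ℕ → ℕ → Prop := fun a b => s.val a ≤ s.val b

/-- local conditions for the formula with code `k` -/
def LocK (m i : ℕ) (lab : ℕ → Prop) (le : ℕ → ℕ → Prop) (S : Set CV) (k : ℕ) : Prop :=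
  (k % 11 = 1 → (lab (3 * k) ↔ ¬ ∃ v ∈ S, True)) ∧
  (k % 11 = 2 → (lab (3 * k) ↔ (∃ v ∈ S, True) ∧ i = k / 11 % (m + 1))) ∧
  (k % 11 = 3 → (lab (3 * k) ↔ ¬ lab (3 * (k / 11)))) ∧
  (k % 11 = 4 → (lab (3 * k) ↔ lab (3 * (k / 11).unpair.1) ∧ lab (3 * (k / 11).unpair.2))) ∧
  (k % 11 = 5 → (lab (3 * k) ↔ ∃ v ∈ S, v.lab (3 * (k / 11)))) ∧
  (k % 11 = 6 → (lab (3 * k) ↔ i = (k / 11).unpair.1 % (m + 1) ∧
    ∃ v ∈ S, v.lab (3 * (k / 11).unpair.2))) ∧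
  (k % 11 = 7 → (lab (3 * k) ↔ ∃ v ∈ S, v.lab (3 * (k / 11)) ∨ v.lab (3 * k))) ∧
  (k % 11 = 8 →
    (lab (3 * k) ↔ (¬ ∃ v ∈ S, True) ∧ le (3 * ((k / 11).unpair.1 % (m + 1)) + 1) (3 * k)) ∧
    ((¬ ∃ v ∈ S, True) → lab (3 * (k / 11).unpair.2) →
      le (3 * ((k / 11).unpair.1 % (m + 1)) + 1) (3 * k)) ∧
    (lab (3 * k + 2) ↔ ((¬ ∃ v ∈ S, True) ∧ lab (3 * (k / 11).unpair.2) ∧
      le (3 * k) (3 * ((k / 11).unpair.1 % (m + 1)) + 1)) ∨ ∃ v ∈ S, v.lab (3 * k + 2))) ∧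
  (k % 11 = 9 → (lab (3 * k) ↔ ∃ v ∈ S, v.dn (3 * (m + 1) + 1) (3 * i + 2) ∧ v.lab (3 * (k / 11)))) ∧
  (k % 11 = 10 → (lab (3 * k) ↔ lab (3 * (k / 11)) ∨
    ∃ v ∈ S, v.dn (3 * (m + 1) + 1) (3 * i + 2) ∧ v.lab (3 * k))) ∧
  (lab (3 * k + 1) ↔ lab (3 * k) ∨ ∃ v ∈ S, v.lab (3 * k + 1)) ∧
  (∀ v ∈ S, v.up (3 * k) (3 * k) ∧ v.dn (3 * k) (3 * k))

/-- local conditions for the values of player `j` -/
def LocJ (m i : ℕ) (le : ℕ → ℕ → Prop) (S : Set CV) (j : ℕ) : Prop :=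
  ((¬ ∃ v ∈ S, True) → le (3 * j + 1) (3 * j + 2) ∧ le (3 * j + 2) (3 * j + 1)) ∧
  (∀ v ∈ S, v.dn (3 * (m + 1) + 1) (3 * i + 2) →
    v.dn (3 * j + 1) (3 * j + 1) ∧ v.up (3 * j + 2) (3 * j + 2)) ∧
  ((∃ v ∈ S, True) →
    (∃ v ∈ S, v.dn (3 * (m + 1) + 1) (3 * i + 2) ∧ v.up (3 * j + 1) (3 * j + 1)) ∧
    (∃ v ∈ S, v.dn (3 * (m + 1) + 1) (3 * i + 2) ∧ v.dn (3 * j + 2) (3 * j + 2)))

/-- all local conditions at a node with turn `i` -/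
def Loc (m c i : ℕ) (lab : ℕ → Prop) (le : ℕ → ℕ → Prop) (S : Set CV) : Prop :=
  (∀ k, k < c + 1 → LocK m i lab le S k) ∧ (∀ j, j < m + 1 → LocJ m i le S j) ∧
  (∀ v ∈ S, v.up (3 * i + 1) (3 * (m + 1) + 1)) ∧
  ((∃ v ∈ S, True) → ∃ v ∈ S, v.dn (3 * (m + 1) + 1) (3 * i + 1))

/-- the condition at the root -/
def Bad (c : ℕ) (lab : ℕ → Prop) : Prop :=
  lab (3 * c + 1) ∧ ∀ k, k < c + 1 → k % 11 = 8 → lab (3 * k + 1) → lab (3 * k + 2)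

/-- the number of relevant indices -/
def MM (m c : ℕ) : ℕ := 3 * (c + m + 2)

/-- states that are constant from the index `M` on -/
def St.Normal {α : Type} (M : ℕ) (s : St α) : Prop :=
  ∀ a, (s.lab a ↔ s.lab (min a M)) ∧ s.val a = s.val (min a M)

end Pool.Agent.H407Z.BestAction
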