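import Pool.Agent.H407Z.BGrid
import Pool.Agent.H407Z.Prim

set_option autoImplicit false

namespace Pool.Agent.H407Z.BestAction

open Pool.Agent.H407Z.Prim

variable {α : Type} [Primcodable α]

@[fun_prop] theorem pr_dg {f g h : α → ℕ} (hf : Primrec f) (hg : Primrec g) (hh : Primrec h) :
    Primrec (fun a => dg (f a) (g a) (h a)) := by
  unfold dg; fun_prop

@[fun_prop] theorem pr_gval {f g h : α → ℕ} (hf : Primrec f) (hg : Primrec g) (hh : Primrec h) :
    Primrec (fun a => gval (f a) (g a) (h a)) := by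
  unfold gval; fun_prop

@[fun_prop] theorem pr_BB {f : α → ℕ} (hf : Primrec f) : Primrec (fun a => BB (f a)) := by
  unfold BB; fun_prop

@[fun_prop] theorem pr_MM {f g : α → ℕ} (hf : Primrec f) (hg : Primrec g) :
    Primrec (fun a => MM (f a) (g a)) := by
  unfold MM; fun_prop

theorem pp_glab {f g h : α → ℕ} (hf : Primrec f) (hg : Primrec g) (hh : Primrec h) :
    PrimrecPred (fun a => glab (f a) (g a) (h a)) := by
  unfold glab
  exact pp_eq (by fun_prop) (by fun_prop)

theorem pp_bit {f g : α → ℕ} (hf : Primrec f) (hg : Primrec g) :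
    PrimrecPred (fun a => bit (f a) (g a)) := by
  unfold bit
  exact pp_eq (by fun_prop) (by fun_prop)

lemma ex_gkids (M C : ℕ) (P : CV → Prop) : (∃ v ∈ gkids M C, P v) ↔
    ∃ q, q < BB M * BB M ∧ (bit C q ∧ P (cv (gst M (q / BB M)) (gst M (q % BB M)))) := by
  simp [gkids, and_assoc]

lemma all_gkids (M C : ℕ) (P : CV → Prop) : (∀ v ∈ gkids M C, P v) ↔
    ∀ q, q < BB M * BB M → (bit C q → P (cv (gst M (q / BB M)) (gst M (q % BB M)))) := by
  unfold gkids
  rw [Set.forall_mem_image]
  exact ⟨fun h q h1 h2 => h ⟨h1, h2⟩, fun h q hq => h q hq.1 hq.2⟩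

theorem pp_EqvB {f g h : α → ℕ} (hf : Primrec f) (hg : Primrec g) (hh : Primrec h) :
    PrimrecPred (fun a => EqvB (f a) (g a) (h a)) := by
  unfold EqvB
  repeat' first
    | apply pp_glab | apply pp_bit | apply pp_true | apply pp_and | apply pp_or | apply pp_iff
    | apply pp_not | apply pp_ball | apply pp_bex | apply pp_imp | apply pp_le | apply pp_eq
    | fun_prop

theorem pp_LocK (m : ℕ) {M i t C k : α → ℕ} (hM : Primrec M) (hi : Primrec i) (ht : Primrec t)
    (hC : Primrec C) (hk : Primrec k) :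
    PrimrecPred (fun a => LocK m (i a) (gst (M a) (t a)).lab (gst (M a) (t a)).le
      (gkids (M a) (C a)) (k a)) := by
  unfold LocK
  simp only [ex_gkids, all_gkids, cv, gst, St.le]
  repeat' first
    | apply pp_glab | apply pp_bit | apply pp_true | apply pp_and | apply pp_or | apply pp_iff
    | apply pp_not | apply pp_ball | apply pp_bex | apply pp_imp | apply pp_le | apply pp_eq
    | fun_prop

theorem pp_LocJ (m : ℕ) {M i t C k : α → ℕ} (hM : Primrec M) (hi : Primrec i) (ht : Primrec t)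
    (hC : Primrec C) (hk : Primrec k) :
    PrimrecPred (fun a => LocJ m (i a) (gst (M a) (t a)).le (gkids (M a) (C a)) (k a)) := by
  unfold LocJ
  simp only [ex_gkids, all_gkids, cv, gst, St.le]
  repeat' first
    | apply pp_glab | apply pp_bit | apply pp_true | apply pp_and | apply pp_or | apply pp_iff
    | apply pp_not | apply pp_ball | apply pp_bex | apply pp_imp | apply pp_le | apply pp_eq
    | fun_prop

theorem pp_Loc (m : ℕ) {c M i t C : α → ℕ} (hc : Primrec c) (hM : Primrec M) (hi : Primrec i)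
    (ht : Primrec t) (hC : Primrec C) :
    PrimrecPred (fun a => Loc m (c a) (i a) (gst (M a) (t a)).lab (gst (M a) (t a)).le
      (gkids (M a) (C a))) := by
  unfold Loc
  refine pp_and (pp_ball (by fun_prop) ?_) (pp_and (pp_ball (by fun_prop) ?_) ?_)
  · exact pp_LocK m (by fun_prop) (by fun_prop) (by fun_prop) (by fun_prop) (by fun_prop)
  · exact pp_LocJ m (by fun_prop) (by fun_prop) (by fun_prop) (by fun_prop) (by fun_prop)
  · simp only [ex_gkids, all_gkids, cv, gst]
    repeat' first
      | apply pp_glab | apply pp_bit | apply pp_true | apply pp_and | apply pp_or | apply pp_iff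
      | apply pp_not | apply pp_ball | apply pp_bex | apply pp_imp | apply pp_le | apply pp_eq
      | fun_prop

theorem pp_Bad {c M t : α → ℕ} (hc : Primrec c) (hM : Primrec M) (ht : Primrec t) :
    PrimrecPred (fun a => Bad (c a) (gst (M a) (t a)).lab) := by
  unfold Bad
  simp only [gst]
  repeat' first
    | apply pp_glab | apply pp_bit | apply pp_true | apply pp_and | apply pp_or | apply pp_iff
    | apply pp_not | apply pp_ball | apply pp_bex | apply pp_imp | apply pp_le | apply pp_eq
    | fun_prop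

theorem pp_Closed (m : ℕ) {c S : α → ℕ} (hc : Primrec c) (hS : Primrec S) :
    PrimrecPred (fun a => Closed m (c a) (S a)) := by
  unfold Closed
  refine pp_ball (by fun_prop) (pp_ball (by fun_prop) (pp_ball (by fun_prop)
    (pp_imp (pp_ball (by fun_prop) (pp_imp ?_ (pp_and ?_ ?_))) (pp_imp ?_ ?_))))
  · exact pp_bit (by fun_prop) (by fun_prop)
  · exact pp_EqvB (by fun_prop) (by fun_prop) (by fun_prop)
  · exact pp_bit (by fun_prop) (by fun_prop)
  · exact pp_Loc m (by fun_prop) (by fun_prop) (by fun_prop) (by fun_prop) (by fun_prop)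
  · exact pp_bit (by fun_prop) (by fun_prop)

theorem pp_Dec (m : ℕ) {c : α → ℕ} (hc : Primrec c) : PrimrecPred (fun a => Dec m (c a)) := by
  unfold Dec
  refine pp_bex (by fun_prop) (pp_and ?_ (pp_ball (by fun_prop) (pp_imp ?_ (pp_not ?_))))
  · exact pp_Closed m (by fun_prop) (by fun_prop)
  · exact pp_Bad (by fun_prop) (by fun_prop) (by fun_prop)
  · exact pp_bit (by fun_prop) (by fun_prop)

theorem dec_primrec (m : ℕ) : PrimrecPred (fun n : ℕ => Dec m (11 * n + 3)) :=
  pp_Dec m (by fun_prop)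

/-- a bounded description of the set of codes -/
def CodeB (m n : ℕ) : Prop := ∃ S, S < 2 ^ (n + 1) ∧ (bit S n ∧ ∀ k, k < n + 1 → bit S k →
  (k % 11 = 1 → k = 1) ∧ (k % 11 = 2 → k / 11 < m + 1) ∧
  (k % 11 = 3 ∨ k % 11 = 5 ∨ k % 11 = 7 ∨ k % 11 = 9 ∨ k % 11 = 10 → bit S (k / 11)) ∧
  (k % 11 = 4 → bit S (k / 11).unpair.1 ∧ bit S (k / 11).unpair.2) ∧
  (k % 11 = 6 ∨ k % 11 = 8 → (k / 11).unpair.1 < m + 1 ∧ bit S (k / 11).unpair.2))

theorem pp_CodeB (m : ℕ) : PrimrecPred (fun n : ℕ => CodeB m n) := by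
  unfold CodeB
  repeat' first
    | apply pp_bit | apply pp_and | apply pp_or | apply pp_iff
    | apply pp_not | apply pp_ball | apply pp_bex | apply pp_imp | apply pp_lt | apply pp_eq
    | fun_prop

theorem codeB_iff (m n : ℕ) : CodeB m n ↔ ∃ φ : Form m, φ.code = n := by
  constructor
  · rintro ⟨S, -, hn, h⟩
    have key : ∀ k, k < n + 1 → bit S k → ∃ φ : Form m, φ.code = k := by
      intro k
      induction k using Nat.strong_induction_on with
      | _ k ih =>
        intro hk hb
        obtain ⟨h1, h2, h3, h4, h5⟩ := h k hk hb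
        have u1 := Nat.unpair_left_le (k / 11)
        have u2 := Nat.unpair_right_le (k / 11)
        have u3 := Nat.pair_unpair (k / 11)
        have hr : k % 11 = 0 ∨ k % 11 = 1 ∨ k % 11 = 2 ∨ k % 11 = 3 ∨ k % 11 = 4 ∨ k % 11 = 5 ∨
          k % 11 = 6 ∨ k % 11 = 7 ∨ k % 11 = 8 ∨ k % 11 = 9 ∨ k % 11 = 10 := by omega
        rcases hr with r | r | r | r | r | r | r | r | r | r | r
        · exact ⟨.atom (k / 11), by simp only [Form.code]; omega⟩
        · exact ⟨.isEnd, (h1 r).symm⟩
        · exact ⟨.turn ⟨k / 11, h2 r⟩, by simp only [Form.code]; omega⟩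
        · obtain ⟨φ, hφ⟩ := ih (k / 11) (by omega) (by omega) (h3 (by omega))
          exact ⟨.neg φ, by simp only [Form.code]; omega⟩
        · obtain ⟨φ, hφ⟩ := ih _ (by omega) (by omega) (h4 r).1
          obtain ⟨ψ, hψ⟩ := ih _ (by omega) (by omega) (h4 r).2
          exact ⟨.conj φ ψ, by simp only [Form.code, hφ, hψ, u3]; omega⟩
        · obtain ⟨φ, hφ⟩ := ih (k / 11) (by omega) (by omega) (h3 (by omega))
          exact ⟨.dia .move φ, by simp only [Form.code]; omega⟩
        · obtain ⟨φ, hφ⟩ := ih _ (by omega) (by omega) (h5 (by omega)).2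
          exact ⟨.dia (.moveOf ⟨_, (h5 (by omega)).1⟩) φ, by simp only [Form.code, hφ, u3]; omega⟩
        · obtain ⟨φ, hφ⟩ := ih (k / 11) (by omega) (by omega) (h3 (by omega))
          exact ⟨.dia .movePlus φ, by simp only [Form.code]; omega⟩
        · obtain ⟨φ, hφ⟩ := ih _ (by omega) (by omega) (h5 (by omega)).2
          exact ⟨.dia (.pref ⟨_, (h5 (by omega)).1⟩) φ, by simp only [Form.code, hφ, u3]; omega⟩
        · obtain ⟨φ, hφ⟩ := ih (k / 11) (by omega) (by omega) (h3 (by omega))
          exact ⟨.dia .best φ, by simp only [Form.code]; omega⟩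
        · obtain ⟨φ, hφ⟩ := ih (k / 11) (by omega) (by omega) (h3 (by omega))
          exact ⟨.dia .bestStar φ, by simp only [Form.code]; omega⟩
    exact key n (Nat.lt_succ_self n) hn
  · intro hn
    obtain ⟨S, hS, h⟩ := exists_bits (n + 1) (fun k => ∃ φ : Form m, φ.code = k)
    refine ⟨S, hS, (h n (Nat.lt_succ_self n)).2 hn, fun k hk hb => ?_⟩
    have u1 := Nat.unpair_left_le (k / 11)
    have u2 := Nat.unpair_right_le (k / 11)
    rw [h (k / 11) (by omega), h (k / 11).unpair.1 (by omega), h (k / 11).unpair.2 (by omega)]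
    obtain ⟨φ, rfl⟩ := (h k hk).1 hb
    have e : ∀ a r : ℕ, r < 11 → (11 * a + r) / 11 = a ∧ (11 * a + r) % 11 = r := by
      intro a r hr; omega
    clear hb hk u1 u2
    rcases φ with p | _ | i | φ | ⟨φ, ψ⟩ | ⟨R, φ⟩
    · simp [Form.code]
    · simp [Form.code]
    · have := i.2
      simp [Form.code, e]; omega
    · simp [Form.code, e]
    · simp [Form.code, e]
    · rcases R with _ | i | _ | i | _ | _
      · simp [Form.code, e]
      · have := i.2
        simp [Form.code, e]; omega
      · simp [Form.code, e]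
      · have := i.2
        simp [Form.code, e]; omega
      · simp [Form.code, e]
      · simp [Form.code, e]

theorem code_inj (m : ℕ) : Function.Injective (Form.code (m := m)) := by
  intro φ
  induction φ with
  | atom p =>
    intro ψ h
    rcases ψ with p | _ | i | ψ | ⟨ψ, χ⟩ | ⟨_ | i | _ | i | _ | _, ψ⟩ <;>
      simp only [Form.code] at h <;> first | omega | (congr 1; omega)
  | isEnd =>
    intro ψ h
    rcases ψ with p | _ | i | ψ | ⟨ψ, χ⟩ | ⟨_ | i | _ | i | _ | _, ψ⟩ <;>
      simp only [Form.code] at h <;> first | omega | rfl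
  | turn j =>
    intro ψ h
    rcases ψ with p | _ | i | ψ | ⟨ψ, χ⟩ | ⟨_ | i | _ | i | _ | _, ψ⟩ <;>
      simp only [Form.code] at h <;> first | omega | (congr 1; ext; omega)
  | neg φ ih =>
    intro ψ h
    rcases ψ with p | _ | i | ψ | ⟨ψ, χ⟩ | ⟨_ | i | _ | i | _ | _, ψ⟩ <;>
      simp only [Form.code] at h <;> first | omega | (rw [ih (a₂ := ψ) (by omega)])
  | conj φ φ' ih ih' =>
    intro ψ h
    rcases ψ with p | _ | i | ψ | ⟨ψ, χ⟩ | ⟨_ | i | _ | i | _ | _, ψ⟩ <;>
      simp only [Form.code] at h <;> first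
        | omega
        | (have h2 := Nat.pair_eq_pair.1 (show Nat.pair φ.code φ'.code = Nat.pair ψ.code χ.code by
            omega)
           rw [ih h2.1, ih' h2.2])
  | dia R φ ih =>
    intro ψ h
    rcases R with _ | j | _ | j | _ | _ <;>
    rcases ψ with p | _ | i | ψ | ⟨ψ, χ⟩ | ⟨_ | i | _ | i | _ | _, ψ⟩ <;>
      simp only [Form.code] at h <;> first
        | omega
        | (rw [ih (a₂ := ψ) (by omega)])
        | (have h2 := Nat.pair_eq_pair.1 (show Nat.pair j φ.code = Nat.pair i ψ.code by omega)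
           rw [ih h2.2, Fin.ext h2.1])

theorem valid_primrec (m : ℕ) :
    PrimrecPred (fun n : ℕ => ∃ φ : Form m, φ.code = n ∧ Valid φ) := by
  refine (pp_and (pp_CodeB m) (dec_primrec m)).of_eq (fun n => ?_)
  rw [codeB_iff]
  constructor
  · rintro ⟨⟨φ, rfl⟩, h⟩
    exact ⟨φ, rfl, (valid_iff_dec φ).2 h⟩
  · rintro ⟨φ, rfl, h⟩
    exact ⟨⟨φ, rfl⟩, (valid_iff_dec φ).1 h⟩

end Pool.Agent.H407Z.BestAction
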