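import Pool.Agent.H407Z.BT2

set_option autoImplicit false

namespace Pool.Agent.H407Z.BestAction

open Relation

variable {m : ℕ} (G : GameTree m) (V : ℕ → G.Node → Prop)

/-- the player named by a number -/
def pl (m a : ℕ) : Fin (m + 1) := ⟨a % (m + 1), Nat.mod_lt _ (Nat.succ_pos m)⟩

lemma pl_val (i : Fin (m + 1)) : pl m i = i := Fin.ext (Nat.mod_eq_of_lt i.2)

/-- truth for codes -/
def satN (k : ℕ) : G.Node → Prop :=
  if _h0 : k % 11 = 0 then V (k / 11)
  else if k % 11 = 1 then G.IsEnd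
  else if k % 11 = 2 then fun x => ¬ G.IsEnd x ∧ G.turn x = pl m (k / 11)
  else if k % 11 = 3 then fun x => ¬ satN (k / 11) x
  else if k % 11 = 4 then fun x => satN (k / 11).unpair.1 x ∧ satN (k / 11).unpair.2 x
  else if k % 11 = 5 then fun x => ∃ y, G.move x y ∧ satN (k / 11) y
  else if k % 11 = 6 then fun x => ∃ y, (G.move x y ∧ G.turn x = pl m (k / 11).unpair.1) ∧
    satN (k / 11).unpair.2 y
  else if k % 11 = 7 then fun x => ∃ y, TransGen G.move x y ∧ satN (k / 11) y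
  else if k % 11 = 8 then fun x => ∃ y, (G.IsEnd x ∧ G.IsEnd y ∧
    G.pref (pl m (k / 11).unpair.1) x y) ∧ satN (k / 11).unpair.2 y
  else if k % 11 = 9 then fun x => ∃ y, G.best x y ∧ satN (k / 11) y
  else fun x => ∃ y, ReflTransGen G.best x y ∧ satN (k / 11) y
termination_by k
decreasing_by
  all_goals
    have := Nat.unpair_left_le (k / 11)
    have := Nat.unpair_right_le (k / 11)
    omega

lemma satN0 {k : ℕ} (h : k % 11 = 0) : satN G V k = V (k / 11) := by
  rw [satN]; simp [h]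
lemma satN1 {k : ℕ} (h : k % 11 = 1) : satN G V k = G.IsEnd := by
  rw [satN]; simp [h]
lemma satN2 {k : ℕ} (h : k % 11 = 2) :
    satN G V k = fun x => ¬ G.IsEnd x ∧ G.turn x = pl m (k / 11) := by
  rw [satN]; simp [h]
lemma satN3 {k : ℕ} (h : k % 11 = 3) : satN G V k = fun x => ¬ satN G V (k / 11) x := by
  rw [satN]; simp [h]
lemma satN4 {k : ℕ} (h : k % 11 = 4) :
    satN G V k = fun x => satN G V (k / 11).unpair.1 x ∧ satN G V (k / 11).unpair.2 x := by
  rw [satN]; simp [h]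
lemma satN5 {k : ℕ} (h : k % 11 = 5) :
    satN G V k = fun x => ∃ y, G.move x y ∧ satN G V (k / 11) y := by
  rw [satN]; simp [h]
lemma satN6 {k : ℕ} (h : k % 11 = 6) :
    satN G V k = fun x => ∃ y, (G.move x y ∧ G.turn x = pl m (k / 11).unpair.1) ∧
      satN G V (k / 11).unpair.2 y := by
  rw [satN]; simp [h]
lemma satN7 {k : ℕ} (h : k % 11 = 7) :
    satN G V k = fun x => ∃ y, TransGen G.move x y ∧ satN G V (k / 11) y := by
  rw [satN]; simp [h]
lemma satN8 {k : ℕ} (h : k % 11 = 8) :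
    satN G V k = fun x => ∃ y, (G.IsEnd x ∧ G.IsEnd y ∧
      G.pref (pl m (k / 11).unpair.1) x y) ∧ satN G V (k / 11).unpair.2 y := by
  rw [satN]; simp [h]
lemma satN9 {k : ℕ} (h : k % 11 = 9) :
    satN G V k = fun x => ∃ y, G.best x y ∧ satN G V (k / 11) y := by
  rw [satN]; simp [h]
lemma satN10 {k : ℕ} (h : k % 11 = 10) :
    satN G V k = fun x => ∃ y, ReflTransGen G.best x y ∧ satN G V (k / 11) y := by
  rw [satN]; simp [h]

lemma satN_code (φ : Form m) : satN G V φ.code = G.sat V φ := by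
  induction φ with
  | atom p =>
    rw [satN0 G V (by simp only [Form.code]; omega)]
    have : (Form.atom p : Form m).code / 11 = p := by simp only [Form.code]; omega
    rw [this]; rfl
  | isEnd => rw [satN1 G V rfl]; rfl
  | turn i =>
    rw [satN2 G V (by simp only [Form.code]; omega)]
    have : (Form.turn i : Form m).code / 11 = i := by simp only [Form.code]; omega
    rw [this, pl_val]; rfl
  | neg φ ih =>
    rw [satN3 G V (by simp only [Form.code]; omega)]
    have : (Form.neg φ).code / 11 = φ.code := by simp only [Form.code]; omega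
    rw [this, ih]; rfl
  | conj φ ψ ih1 ih2 =>
    rw [satN4 G V (by simp only [Form.code]; omega)]
    have : (Form.conj φ ψ).code / 11 = Nat.pair φ.code ψ.code := by simp only [Form.code]; omega
    rw [this, Nat.unpair_pair, ih1, ih2]; rfl
  | dia R φ ih =>
    cases R with
    | move =>
      rw [satN5 G V (by simp only [Form.code]; omega)]
      have : (Form.dia .move φ).code / 11 = φ.code := by simp only [Form.code]; omega
      rw [this, ih]; rfl
    | moveOf i =>
      rw [satN6 G V (by simp only [Form.code]; omega)]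
      have : (Form.dia (.moveOf i) φ).code / 11 = Nat.pair i φ.code := by
        simp only [Form.code]; omega
      rw [this, Nat.unpair_pair, ih, pl_val]; rfl
    | movePlus =>
      rw [satN7 G V (by simp only [Form.code]; omega)]
      have : (Form.dia .movePlus φ).code / 11 = φ.code := by simp only [Form.code]; omega
      rw [this, ih]; rfl
    | pref i =>
      rw [satN8 G V (by simp only [Form.code]; omega)]
      have : (Form.dia (.pref i) φ).code / 11 = Nat.pair i φ.code := by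
        simp only [Form.code]; omega
      rw [this, Nat.unpair_pair, ih, pl_val]; rfl
    | best =>
      rw [satN9 G V (by simp only [Form.code]; omega)]
      have : (Form.dia .best φ).code / 11 = φ.code := by simp only [Form.code]; omega
      rw [this, ih]; rfl
    | bestStar =>
      rw [satN10 G V (by simp only [Form.code]; omega)]
      have : (Form.dia .bestStar φ).code / 11 = φ.code := by simp only [Form.code]; omega
      rw [this, ih]; rfl

section tr

variable (c : ℕ) (U lo hi : Fin (m + 1) → G.Node → ℚ) (th : G.Node → ℚ) (cst : ℕ → ℚ)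

/-- the true state of a node -/
def tr (x : G.Node) : St ℚ where
  lab i := i < MM m c ∧
    ((i % 3 = 0 ∧ satN G V (i / 3) x) ∨
      (i % 3 = 1 ∧ ∃ y, ReflTransGen G.move x y ∧ satN G V (i / 3) y) ∨
      (i % 3 = 2 ∧ ∃ y, ReflTransGen G.move x y ∧ G.IsEnd y ∧ satN G V (i / 3 / 11).unpair.2 y ∧
        cst (i / 3) ≤ U (pl m (i / 3 / 11).unpair.1) y))
  val i := if i < MM m c then
    (if i % 3 = 0 then cst (i / 3) else if i % 3 = 1 then
      (if i / 3 = m + 1 then th x else lo (pl m (i / 3)) x) else hi (pl m (i / 3)) x) else 0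

lemma tr_normal (x : G.Node) : (tr G V c U lo hi th cst x).Normal (MM m c) := by
  intro a
  rcases lt_or_ge a (MM m c) with h | h
  · rw [min_eq_left h.le]; exact ⟨Iff.rfl, rfl⟩
  · rw [min_eq_right h]
    simp [tr, not_lt.2 h]

variable {c}

lemma tr_L {k : ℕ} (hk : k < c + 1) (x : G.Node) :
    (tr G V c U lo hi th cst x).lab (3 * k) ↔ satN G V k x := by
  have h1 : 3 * k < MM m c := by unfold MM; omega
  have h2 : 3 * k % 3 = 0 := by omega
  have h3 : 3 * k / 3 = k := by omega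
  simp [tr, h1, h2, h3]

lemma tr_E {k : ℕ} (hk : k < c + 1) (x : G.Node) :
    (tr G V c U lo hi th cst x).lab (3 * k + 1) ↔ ∃ y, ReflTransGen G.move x y ∧ satN G V k y := by
  have h1 : 3 * k + 1 < MM m c := by unfold MM; omega
  have h2 : (3 * k + 1) % 3 = 1 := by omega
  have h3 : (3 * k + 1) / 3 = k := by omega
  simp only [tr, h1, h2, h3]
  simp

lemma tr_W {k : ℕ} (hk : k < c + 1) (x : G.Node) :
    (tr G V c U lo hi th cst x).lab (3 * k + 2) ↔ ∃ y, ReflTransGen G.move x y ∧ G.IsEnd y ∧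
      satN G V (k / 11).unpair.2 y ∧ cst k ≤ U (pl m (k / 11).unpair.1) y := by
  have h1 : 3 * k + 2 < MM m c := by unfold MM; omega
  have h2 : (3 * k + 2) % 3 = 2 := by omega
  have h3 : (3 * k + 2) / 3 = k := by omega
  simp only [tr, h1, h2, h3]
  simp

lemma tr_cst {k : ℕ} (hk : k < c + 1) (x : G.Node) :
    (tr G V c U lo hi th cst x).val (3 * k) = cst k := by
  have h1 : 3 * k < MM m c := by unfold MM; omega
  have h2 : 3 * k % 3 = 0 := by omega
  have h3 : 3 * k / 3 = k := by omega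
  simp [tr, h1, h2, h3]

lemma tr_lo (j : Fin (m + 1)) (x : G.Node) :
    (tr G V c U lo hi th cst x).val (3 * j + 1) = lo j x := by
  have h0 := j.2
  have h1 : 3 * (j : ℕ) + 1 < MM m c := by unfold MM; omega
  have h2 : (3 * (j : ℕ) + 1) % 3 = 1 := by omega
  have h3 : (3 * (j : ℕ) + 1) / 3 = j := by omega
  have h4 : (j : ℕ) ≠ m + 1 := by omega
  simp only [tr, h1, h2, h3, pl_val]
  simp [h4]

lemma tr_hi (j : Fin (m + 1)) (x : G.Node) :
    (tr G V c U lo hi th cst x).val (3 * j + 2) = hi j x := by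
  have h0 := j.2
  have h1 : 3 * (j : ℕ) + 2 < MM m c := by unfold MM; omega
  have h2 : (3 * (j : ℕ) + 2) % 3 = 2 := by omega
  have h3 : (3 * (j : ℕ) + 2) / 3 = j := by omega
  simp only [tr, h1, h2, h3, pl_val]
  simp

lemma tr_th (x : G.Node) : (tr G V c U lo hi th cst x).val (3 * (m + 1) + 1) = th x := by
  have h1 : 3 * (m + 1) + 1 < MM m c := by unfold MM; omega
  have h2 : (3 * (m + 1) + 1) % 3 = 1 := by omega
  have h3 : (3 * (m + 1) + 1) / 3 = m + 1 := by omega
  simp only [tr, h1, h2, h3]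
  simp

lemma rtg_unfold {α : Type} (r : α → α → Prop) (P : α → Prop) (x : α) :
    (∃ y, ReflTransGen r x y ∧ P y) ↔ P x ∨ ∃ y, r x y ∧ ∃ z, ReflTransGen r y z ∧ P z := by
  constructor
  · rintro ⟨z, hz, h⟩
    rcases hz.cases_head with rfl | ⟨y, hy, hyz⟩
    · exact Or.inl h
    · exact Or.inr ⟨y, hy, z, hyz, h⟩
  · rintro (h | ⟨y, hy, z, hz, h⟩)
    · exact ⟨x, .refl, h⟩
    · exact ⟨z, .head hy hz, h⟩

lemma tg_unfold {α : Type} (r : α → α → Prop) (P : α → Prop) (x : α) :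
    (∃ y, TransGen r x y ∧ P y) ↔ ∃ y, r x y ∧ (P y ∨ ∃ z, TransGen r y z ∧ P z) := by
  constructor
  · rintro ⟨z, hz, h⟩
    obtain ⟨y, hy, hyz⟩ := TransGen.head'_iff.1 hz
    rcases reflTransGen_iff_eq_or_transGen.1 hyz with rfl | hyz
    · exact ⟨z, hy, Or.inl h⟩
    · exact ⟨y, hy, Or.inr ⟨z, hyz, h⟩⟩
  · rintro ⟨y, hy, h | ⟨z, hz, h⟩⟩
    · exact ⟨y, .single hy, h⟩
    · exact ⟨z, TransGen.head hy hz, h⟩

variable (hU0 : ∀ i u, 0 ≤ U i u)
  (hU : ∀ i u v, G.IsEnd u → G.IsEnd v → (G.pref i u v ↔ U i u ≤ U i v))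
  (hE : ∀ j x, G.Ext (U j) x (lo j x) (hi j x))
  (hth : ∀ x, (∀ z, G.move x z → lo (G.turn x) z ≤ th x) ∧
    (¬ G.IsEnd x → ∃ z, G.move x z ∧ th x ≤ lo (G.turn x) z))
  (hc : ∀ k, (∀ y, G.IsEnd y → satN G V (k / 11).unpair.2 y → U (pl m (k / 11).unpair.1) y ≤ cst k) ∧
    ((∃ y, G.IsEnd y ∧ satN G V (k / 11).unpair.2 y ∧ cst k ≤ U (pl m (k / 11).unpair.1) y) ∨
      cst k < 0))

include hU hE hth in
lemma t1_best (x y : G.Node) : G.best x y ↔ G.move x y ∧ th x ≤ hi (G.turn x) y := by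
  have h : G.move x y → (G.best x y ↔ th x ≤ hi (G.turn x) y) := fun hy =>
    G.best_iff_th (hU _) (lo (G.turn x)) (hi (G.turn x)) (fun y _ => hE _ y) _ (hth x).1
      ((hth x).2 (fun h => h y hy)) y hy
  exact ⟨fun hb => ⟨G.best_move hb, (h (G.best_move hb)).1 hb⟩, fun hb => (h hb.1).2 hb.2⟩

include hE in
lemma t1_leaf (j : Fin (m + 1)) {x : G.Node} (hx : G.IsEnd x) : lo j x = U j x ∧ hi j x = U j x := by
  have h : ∀ u, G.Out x u → u = x := by
    intro u hu
    rcases (G.out_iff x u).1 hu with ⟨-, h⟩ | ⟨y, hy, -⟩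
    · exact h
    · exact absurd (G.best_move hy) (hx y)
  obtain ⟨u, hu, h1⟩ := (hE j x).2.1
  obtain ⟨v, hv, h2⟩ := (hE j x).2.2
  rw [← h1, ← h2, h u hu, h v hv]
  exact ⟨rfl, rfl⟩

include hU0 hU hE hc in
lemma t1_pref {k : ℕ} (h8 : k % 11 = 8) (x : G.Node) :
    satN G V k x ↔ G.IsEnd x ∧ lo (pl m (k / 11).unpair.1) x ≤ cst k := by
  rw [satN8 G V h8]
  constructor
  · rintro ⟨y, ⟨hx, hy, hp⟩, h⟩
    refine ⟨hx, ?_⟩
    rw [(t1_leaf G U lo hi hE _ hx).1]
    exact le_trans ((hU _ x y hx hy).1 hp) ((hc k).1 y hy h)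
  · rintro ⟨hx, h⟩
    rw [(t1_leaf G U lo hi hE _ hx).1] at h
    rcases (hc k).2 with ⟨y, hy, h1, h2⟩ | h1
    · exact ⟨y, ⟨hx, hy, (hU _ x y hx hy).2 (le_trans h h2)⟩, h1⟩
    · exact absurd (lt_of_le_of_lt h h1) (not_lt.2 (hU0 _ _))

include hU0 hU hE hth hc in
theorem t1_loc (x : G.Node) : Loc m c (G.turn x) (tr G V c U lo hi th cst x).lab
    (tr G V c U lo hi th cst x).le (kids G (tr G V c U lo hi th cst) x) := by
  have hb := t1_best G U lo hi th hU hE hth
  refine ⟨fun k hk => ?_, fun j hj => ?_, ?_, ?_⟩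
  · have k1 : k / 11 < c + 1 := by omega
    have k2 : (k / 11).unpair.1 < c + 1 := lt_of_le_of_lt (Nat.unpair_left_le _) k1
    have k3 : (k / 11).unpair.2 < c + 1 := lt_of_le_of_lt (Nat.unpair_right_le _) k1
    have hpl : ∀ a, a % (m + 1) = (pl m a : ℕ) := fun a => rfl
    unfold LocK
    simp only [nleaf_kids, ex_kids, all_kids, cv, St.le, hpl, tr_L G V U lo hi th cst hk,
      tr_L G V U lo hi th cst k1, tr_L G V U lo hi th cst k2, tr_L G V U lo hi th cst k3,
      tr_E G V U lo hi th cst hk, tr_W G V U lo hi th cst hk, tr_cst G V U lo hi th cst hk,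
      tr_lo, tr_hi, tr_th, Fin.val_inj, not_not]
    refine ⟨fun h => ?_, fun h => ?_, fun h => ?_, fun h => ?_, fun h => ?_, fun h => ?_,
      fun h => ?_, fun h => ⟨?_, ?_, ?_⟩, fun h => ?_, fun h => ?_, ?_, ?_⟩
    · rw [satN1 G V h]
    · rw [satN2 G V h]
    · rw [satN3 G V h]
    · rw [satN4 G V h]
    · rw [satN5 G V h]
    · rw [satN6 G V h]
      constructor
      · rintro ⟨y, ⟨h1, h2⟩, h3⟩
        exact ⟨h2, y, h1, h3⟩
      · rintro ⟨h2, y, h1, h3⟩
        exact ⟨y, ⟨h1, h2⟩, h3⟩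
    · rw [satN7 G V h]
      exact tg_unfold _ _ _
    · exact t1_pref G V U lo hi cst hU0 hU hE hc h x
    · intro hx h1
      rw [(t1_leaf G U lo hi hE _ hx).1]
      exact (hc k).1 x hx h1
    · rw [rtg_unfold]
      refine or_congr (and_congr_right fun hx => ?_) Iff.rfl
      rw [(t1_leaf G U lo hi hE _ hx).1]
    · rw [satN9 G V h]
      simp only [hb, and_assoc]
    · rw [satN10 G V h]
      refine (rtg_unfold _ _ _).trans ?_
      simp only [hb x, and_assoc]
    · exact rtg_unfold _ _ _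
    · intro y _
      exact ⟨le_rfl, le_rfl⟩
  · unfold LocJ
    have hj' : j = ((⟨j, hj⟩ : Fin (m + 1)) : ℕ) := rfl
    generalize (⟨j, hj⟩ : Fin (m + 1)) = j' at hj'
    subst hj'
    simp only [nleaf_kids, ex_kids, all_kids, cv, St.le, tr_lo, tr_hi, tr_th, not_not]
    refine ⟨fun hx => ?_, fun y hy h => ?_, fun hx => ⟨?_, ?_⟩⟩
    · rw [(t1_leaf G U lo hi hE _ hx).1, (t1_leaf G U lo hi hE _ hx).2]
      exact ⟨le_rfl, le_rfl⟩
    · have hxy := (hb x y).2 ⟨hy, h⟩
      obtain ⟨u, hu, h1⟩ := (hE j' y).2.1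
      obtain ⟨v, hv, h2⟩ := (hE j' y).2.2
      rw [← h1, ← h2]
      exact ⟨((hE j' x).1 u ((G.out_iff x u).2 (Or.inr ⟨y, hxy, hu⟩))).1,
        ((hE j' x).1 v ((G.out_iff x v).2 (Or.inr ⟨y, hxy, hv⟩))).2⟩
    · obtain ⟨u, hu, h1⟩ := (hE j' x).2.1
      rcases (G.out_iff x u).1 hu with ⟨h, -⟩ | ⟨y, hy, hyu⟩
      · exact absurd h hx
      · refine ⟨y, G.best_move hy, ((hb x y).1 hy).2, ?_⟩
        rw [← h1]
        exact ((hE j' y).1 u hyu).1
    · obtain ⟨u, hu, h1⟩ := (hE j' x).2.2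
      rcases (G.out_iff x u).1 hu with ⟨h, -⟩ | ⟨y, hy, hyu⟩
      · exact absurd h hx
      · refine ⟨y, G.best_move hy, ((hb x y).1 hy).2, ?_⟩
        rw [← h1]
        exact ((hE j' y).1 u hyu).2
  · simp only [all_kids, cv, tr_lo, tr_th]
    exact (hth x).1
  · simp only [nleaf_kids, ex_kids, cv, tr_lo, tr_th]
    exact (hth x).2

include hU0 hU hE hc in
theorem t1_bad (x : G.Node) (hx : satN G V c x) : Bad c (tr G V c U lo hi th cst G.root).lab := by
  refine ⟨(tr_E G V U lo hi th cst (Nat.lt_succ_self c) _).2 ⟨x, G.reach x, hx⟩, ?_⟩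
  intro k hk h8
  rw [tr_E G V U lo hi th cst hk, tr_W G V U lo hi th cst hk]
  rintro ⟨y, -, hy⟩
  obtain ⟨hy1, hy2⟩ := (t1_pref G V U lo hi cst hU0 hU hE hc h8 y).1 hy
  rcases (hc k).2 with ⟨z, hz⟩ | h1
  · exact ⟨z, G.reach z, hz⟩
  · rw [(t1_leaf G U lo hi hE _ hy1).1] at hy2
    exact absurd (lt_of_le_of_lt hy2 h1) (not_lt.2 (hU0 _ _))

end tr

theorem t1_main (c : ℕ) (x0 : G.Node) (hx : satN G V c x0) : ∃ s : G.Node → St ℚ,
    (∀ x, (s x).Normal (MM m c)) ∧ (∀ x, Loc m c (G.turn x) (s x).lab (s x).le (kids G s x)) ∧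
      Bad c (s G.root).lab := by
  choose U hU0 hU using G.exists_util
  have h1 : ∀ j x, ∃ lo hi, G.Ext (U j) x lo hi := fun j x => G.exists_ext (U j) x
  choose lo hi hE using h1
  have h2 : ∀ x, ∃ th : ℚ, (∀ z, G.move x z → lo (G.turn x) z ≤ th) ∧
      (¬ G.IsEnd x → ∃ z, G.move x z ∧ th ≤ lo (G.turn x) z) := by
    intro x
    by_cases hx : G.IsEnd x
    · exact ⟨0, fun z hz => absurd hz (hx z), fun h => absurd hx h⟩
    · have hne : {z | G.move x z}.Nonempty := by
        by_contra h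
        exact hx (fun y hy => h ⟨y, hy⟩)
      obtain ⟨z, hz, hmax⟩ := Set.exists_max_image {z | G.move x z} (lo (G.turn x))
        (Set.toFinite _) hne
      exact ⟨_, hmax, fun _ => ⟨z, hz, le_rfl⟩⟩
  choose th hth using h2
  have h3 : ∀ k : ℕ, ∃ q : ℚ,
      (∀ y, G.IsEnd y → satN G V (k / 11).unpair.2 y → U (pl m (k / 11).unpair.1) y ≤ q) ∧
      ((∃ y, G.IsEnd y ∧ satN G V (k / 11).unpair.2 y ∧ q ≤ U (pl m (k / 11).unpair.1) y) ∨
        q < 0) := by
    intro k
    by_cases hne : {y | G.IsEnd y ∧ satN G V (k / 11).unpair.2 y}.Nonempty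
    · obtain ⟨z, hz, hmax⟩ := Set.exists_max_image _ (U (pl m (k / 11).unpair.1))
        (Set.toFinite _) hne
      exact ⟨_, fun y h1 h2 => hmax y ⟨h1, h2⟩, Or.inl ⟨z, hz.1, hz.2, le_rfl⟩⟩
    · exact ⟨-1, fun y h1 h2 => absurd ⟨y, h1, h2⟩ hne, Or.inr (by norm_num)⟩
  choose cst hc using h3
  exact ⟨tr G V c U lo hi th cst, tr_normal G V c U lo hi th cst,
    t1_loc G V U lo hi th cst hU0 hU hE hth hc, t1_bad G V U lo hi th cst hU0 hU hE hc x0 hx⟩

end Pool.Agent.H407Z.BestAction
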