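import Pool.Agent.H407Z.BLoc

set_option autoImplicit false

namespace Pool.Agent.H407Z.BestAction

open Relation

variable {m : ℕ} (G : GameTree m) (c : ℕ) (s : G.Node → St ℚ)

/-- the views of the children of `x` -/
def kids (x : G.Node) : Set CV := (fun y => cv (s x) (s y)) '' {y | G.move x y}

lemma ex_kids (x : G.Node) (P : CV → Prop) :
    (∃ v ∈ kids G s x, P v) ↔ ∃ y, G.move x y ∧ P (cv (s x) (s y)) := by
  simp [kids]

lemma all_kids (x : G.Node) (P : CV → Prop) :
    (∀ v ∈ kids G s x, P v) ↔ ∀ y, G.move x y → P (cv (s x) (s y)) := by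
  simp [kids]

lemma leaf_kids (x : G.Node) : (¬ ∃ v ∈ kids G s x, True) ↔ G.IsEnd x := by
  simp [kids, GameTree.IsEnd]

lemma nleaf_kids (x : G.Node) : (∃ v ∈ kids G s x, True) ↔ ¬ G.IsEnd x := by
  rw [← leaf_kids G s x, not_not]

variable (hL : ∀ x, Loc m c (G.turn x) (s x).lab (s x).le (kids G s x))
  (hU : ∀ (i : Fin (m + 1)) u v, G.IsEnd u → G.IsEnd v →
    (G.pref i u v ↔ (s u).val (3 * i + 1) ≤ (s v).val (3 * i + 1)))

include hL in
lemma t2_const (k : ℕ) (hk : k < c + 1) (x : G.Node) :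
    (s x).val (3 * k) = (s G.root).val (3 * k) := by
  have h := G.reach x
  induction h with
  | refl => rfl
  | tail _ hxy ih =>
    have := (all_kids G s _ _).1 ((hL _).1 k hk).2.2.2.2.2.2.2.2.2.2.2 _ hxy
    rw [← ih]
    exact le_antisymm this.1 this.2

include hL hU in
lemma t2_best_of (x : G.Node)
    (ih : ∀ y, G.move x y → ∀ j : Fin (m + 1),
      G.Ext (fun u => (s u).val (3 * j + 1)) y ((s y).val (3 * j + 1)) ((s y).val (3 * j + 2)))
    (y : G.Node) (hy : G.move x y) :
    G.best x y ↔ (s x).val (3 * (m + 1) + 1) ≤ (s y).val (3 * G.turn x + 2) := by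
  have hne : ¬ G.IsEnd x := fun h => h y hy
  refine G.best_iff_th (U := fun u => (s u).val (3 * G.turn x + 1)) (hU _)
    (fun y => (s y).val (3 * G.turn x + 1)) (fun y => (s y).val (3 * G.turn x + 2))
    (fun y hy => ih y hy _) _ ?_ ?_ y hy
  · exact (all_kids G s _ _).1 (hL x).2.2.1
  · exact (ex_kids G s _ _).1 ((hL x).2.2.2 ((nleaf_kids G s x).2 hne))

include hL hU in
lemma t2_ext (x : G.Node) : ∀ j : Fin (m + 1),
    G.Ext (fun u => (s u).val (3 * j + 1)) x ((s x).val (3 * j + 1)) ((s x).val (3 * j + 2)) := by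
  induction x using G.move_induction with
  | h x ih =>
    intro j
    have hb := t2_best_of G c s hL hU x ih
    obtain ⟨h1, h2, h3⟩ := (hL x).2.1 j j.2
    rw [leaf_kids] at h1
    rw [all_kids] at h2
    rw [nleaf_kids, ex_kids, ex_kids] at h3
    by_cases hx : G.IsEnd x
    · have h4 : (s x).val (3 * j + 1) = (s x).val (3 * j + 2) :=
        le_antisymm (h1 hx).1 (h1 hx).2
      have ho : G.Out x x := ⟨hx, .refl⟩
      refine ⟨fun u hu => ?_, ⟨x, ho, rfl⟩, ⟨x, ho, h4⟩⟩
      rcases (G.out_iff x u).1 hu with ⟨-, rfl⟩ | ⟨y, hy, -⟩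
      · exact ⟨le_rfl, h4.le⟩
      · exact absurd (G.best_move hy) (hx y)
    · obtain ⟨⟨y, hy, hy1, hy2⟩, ⟨z, hz, hz1, hz2⟩⟩ := h3 hx
      refine ⟨fun u hu => ?_, ?_, ?_⟩
      · rcases (G.out_iff x u).1 hu with ⟨h, -⟩ | ⟨w, hw, hwu⟩
        · exact absurd h hx
        · have hm := G.best_move hw
          have a1 := h2 w hm ((hb w hm).1 hw)
          have a2 := (ih w hm j).1 u hwu
          exact ⟨le_trans a1.1 a2.1, le_trans a2.2 a1.2⟩
      · obtain ⟨u, hu, hu2⟩ := (ih y hy j).2.1
        refine ⟨u, (G.out_iff x u).2 (Or.inr ⟨y, (hb y hy).2 hy1, hu⟩), ?_⟩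
        rw [hu2]
        exact le_antisymm hy2 (h2 y hy hy1).1
      · obtain ⟨u, hu, hu2⟩ := (ih z hz j).2.2
        refine ⟨u, (G.out_iff x u).2 (Or.inr ⟨z, (hb z hz).2 hz1, hu⟩), ?_⟩
        rw [hu2]
        exact le_antisymm (h2 z hz hz1).2 hz2

include hL hU in
lemma t2_best (x y : G.Node) : G.best x y ↔
    G.move x y ∧ (s x).val (3 * (m + 1) + 1) ≤ (s y).val (3 * G.turn x + 2) := by
  have h := t2_best_of G c s hL hU x (fun y _ => t2_ext G c s hL hU y) y
  exact ⟨fun hb => ⟨G.best_move hb, (h (G.best_move hb)).1 hb⟩, fun hb => (h hb.1).2 hb.2⟩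

include hL in
lemma t2_E (k : ℕ) (hk : k < c + 1) (x : G.Node) :
    (s x).lab (3 * k + 1) ↔ ∃ y, ReflTransGen G.move x y ∧ (s y).lab (3 * k) := by
  induction x using G.move_induction with
  | h x ih =>
    have h := ((hL x).1 k hk).2.2.2.2.2.2.2.2.2.2.1
    rw [ex_kids] at h
    rw [h]
    constructor
    · rintro (h | ⟨y, hy, h⟩)
      · exact ⟨x, .refl, h⟩
      · obtain ⟨z, hz, h⟩ := (ih y hy).1 h
        exact ⟨z, .head hy hz, h⟩
    · rintro ⟨z, hz, h⟩
      rcases hz.cases_head with rfl | ⟨y, hy, hyz⟩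
      · exact Or.inl h
      · exact Or.inr ⟨y, hy, (ih y hy).2 ⟨z, hyz, h⟩⟩

include hL in
lemma t2_W (k : ℕ) (hk : k < c + 1) (h8 : k % 11 = 8) (x : G.Node) :
    (s x).lab (3 * k + 2) → ∃ y, G.IsEnd y ∧ (s y).lab (3 * (k / 11).unpair.2) ∧
      (s y).val (3 * k) ≤ (s y).val (3 * ((k / 11).unpair.1 % (m + 1)) + 1) := by
  induction x using G.move_induction with
  | h x ih =>
    have h := (((hL x).1 k hk).2.2.2.2.2.2.2.1 h8).2.2
    rw [leaf_kids, ex_kids] at h
    rw [h]
    rintro (h | ⟨y, hy, h⟩)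
    · exact ⟨x, h⟩
    · exact ih y hy h

include hL hU in
theorem t2_sat (V : ℕ → G.Node → Prop) (hV : ∀ a x, V a x ↔ (s x).lab (3 * (11 * a)))
    (hB : ∀ k, k < c + 1 → k % 11 = 8 → (s G.root).lab (3 * k + 1) → (s G.root).lab (3 * k + 2))
    (φ : Form m) : φ.code < c + 1 → ∀ x, ((s x).lab (3 * φ.code) ↔ G.sat V φ x) := by
  induction φ with
  | atom p => intro _ x; exact (hV p x).symm
  | isEnd =>
    intro hk x
    have h := ((hL x).1 _ hk).1 rfl
    rw [leaf_kids] at h
    exact h
  | turn i =>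
    intro hk x
    have h := ((hL x).1 _ hk).2.1 (by simp only [Form.code]; omega)
    rw [nleaf_kids] at h
    rw [h]
    have h2 : (Form.turn i : Form m).code / 11 % (m + 1) = i := by
      have : (Form.turn i : Form m).code / 11 = i := by simp only [Form.code]; omega
      rw [this, Nat.mod_eq_of_lt i.2]
    rw [h2, Fin.val_inj]
    rfl
  | neg φ ih =>
    intro hk x
    have h := ((hL x).1 _ hk).2.2.1 (by simp only [Form.code]; omega)
    have h2 : (Form.neg φ).code / 11 = φ.code := by simp only [Form.code]; omega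
    rw [h, h2, ih (by simp only [Form.code] at hk; omega)]
    rfl
  | conj φ ψ ih1 ih2 =>
    intro hk x
    have h := ((hL x).1 _ hk).2.2.2.1 (by simp only [Form.code]; omega)
    have h2 : (Form.conj φ ψ).code / 11 = Nat.pair φ.code ψ.code := by simp only [Form.code]; omega
    have a1 := Nat.left_le_pair φ.code ψ.code
    have a2 := Nat.right_le_pair φ.code ψ.code
    rw [h, h2, Nat.unpair_pair, ih1 (by simp only [Form.code] at hk; omega),
      ih2 (by simp only [Form.code] at hk; omega)]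
    rfl
  | dia R φ ih =>
    intro hk
    cases R with
    | move =>
      intro x
      have h := ((hL x).1 _ hk).2.2.2.2.1 (by simp only [Form.code]; omega)
      have h2 : (Form.dia .move φ).code / 11 = φ.code := by simp only [Form.code]; omega
      have ih' := ih (by simp only [Form.code] at hk; omega)
      rw [h, h2, ex_kids]
      exact exists_congr fun y => and_congr Iff.rfl (ih' y)
    | moveOf i =>
      intro x
      have h := ((hL x).1 _ hk).2.2.2.2.2.1 (by simp only [Form.code]; omega)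
      have h2 : (Form.dia (.moveOf i) φ).code / 11 = Nat.pair i φ.code := by
        simp only [Form.code]; omega
      have a2 := Nat.right_le_pair i φ.code
      have ih' := ih (by simp only [Form.code] at hk; omega)
      rw [h, h2, Nat.unpair_pair, ex_kids, Nat.mod_eq_of_lt i.2, Fin.val_inj]
      constructor
      · rintro ⟨h1, y, hy, h3⟩
        exact ⟨y, ⟨hy, h1⟩, (ih' y).1 h3⟩
      · rintro ⟨y, ⟨hy, h1⟩, h3⟩
        exact ⟨h1, y, hy, (ih' y).2 h3⟩
    | movePlus =>
      intro x
      have h2 : (Form.dia .movePlus φ).code / 11 = φ.code := by simp only [Form.code]; omega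
      have ih' := ih (by simp only [Form.code] at hk; omega)
      induction x using G.move_induction with
      | h x ihx =>
        have h := ((hL x).1 _ hk).2.2.2.2.2.2.1 (by simp only [Form.code]; omega)
        rw [h, h2, ex_kids]
        constructor
        · rintro ⟨y, hy, h3 | h3⟩
          · exact ⟨y, .single hy, (ih' y).1 h3⟩
          · obtain ⟨z, hz, h4⟩ := (ihx y hy).1 h3
            exact ⟨z, TransGen.head hy hz, h4⟩
        · rintro ⟨z, hz, h4⟩
          obtain ⟨y, hy, hyz⟩ := TransGen.head'_iff.1 hz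
          rcases reflTransGen_iff_eq_or_transGen.1 hyz with rfl | hyz
          · exact ⟨z, hy, Or.inl ((ih' z).2 h4)⟩
          · exact ⟨y, hy, Or.inr ((ihx y hy).2 ⟨z, hyz, h4⟩)⟩
    | pref i =>
      intro x
      have h8 : (Form.dia (.pref i) φ).code % 11 = 8 := by simp only [Form.code]; omega
      have h2 : (Form.dia (.pref i) φ).code / 11 = Nat.pair i φ.code := by
        simp only [Form.code]; omega
      have a2 := Nat.right_le_pair i φ.code
      have ih' := ih (by simp only [Form.code] at hk; omega)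
      have h := fun x => ((hL x).1 _ hk).2.2.2.2.2.2.2.1 h8
      simp only [leaf_kids, h2, Nat.unpair_pair, Nat.mod_eq_of_lt i.2] at h
      have hc := t2_const G c s hL _ hk
      constructor
      · intro hx
        have hE := (t2_E G c s hL _ hk G.root).2 ⟨x, G.reach x, hx⟩
        obtain ⟨y, hy, h3, h4⟩ := t2_W G c s hL _ hk h8 _ (hB _ hk h8 hE)
        rw [h2, Nat.unpair_pair] at h3 h4
        rw [Nat.mod_eq_of_lt i.2] at h4
        obtain ⟨hx1, hx2⟩ := (h x).1.1 hx
        refine ⟨y, ⟨hx1, hy, (hU i x y hx1 hy).2 ?_⟩, (ih' y).1 h3⟩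
        refine le_trans hx2 (le_trans (le_of_eq ?_) h4)
        rw [hc x, hc y]
      · rintro ⟨y, ⟨hx1, hy, hp⟩, h3⟩
        refine (h x).1.2 ⟨hx1, le_trans ((hU i x y hx1 hy).1 hp) ?_⟩
        refine le_trans ((h y).2.1 hy ((ih' y).2 h3)) (le_of_eq ?_)
        rw [hc x, hc y]
    | best =>
      intro x
      have h := ((hL x).1 _ hk).2.2.2.2.2.2.2.2.1 (by simp only [Form.code]; omega)
      have h2 : (Form.dia .best φ).code / 11 = φ.code := by simp only [Form.code]; omega
      have ih' := ih (by simp only [Form.code] at hk; omega)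
      rw [h, h2, ex_kids]
      constructor
      · rintro ⟨y, hy, h1, h3⟩
        exact ⟨y, (t2_best G c s hL hU x y).2 ⟨hy, h1⟩, (ih' y).1 h3⟩
      · rintro ⟨y, hb, h3⟩
        have := (t2_best G c s hL hU x y).1 hb
        exact ⟨y, this.1, this.2, (ih' y).2 h3⟩
    | bestStar =>
      intro x
      have h2 : (Form.dia .bestStar φ).code / 11 = φ.code := by simp only [Form.code]; omega
      have ih' := ih (by simp only [Form.code] at hk; omega)
      induction x using G.move_induction with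
      | h x ihx =>
        have h := ((hL x).1 _ hk).2.2.2.2.2.2.2.2.2.1 (by simp only [Form.code]; omega)
        rw [h, h2, ex_kids]
        constructor
        · rintro (h3 | ⟨y, hy, h1, h3⟩)
          · exact ⟨x, .refl, (ih' x).1 h3⟩
          · obtain ⟨z, hz, h4⟩ := (ihx y hy).1 h3
            exact ⟨z, ReflTransGen.head ((t2_best G c s hL hU x y).2 ⟨hy, h1⟩) hz, h4⟩
        · rintro ⟨z, hz, h4⟩
          rcases ReflTransGen.cases_head hz with rfl | ⟨y, hb, hyz⟩
          · exact Or.inl ((ih' x).2 h4)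
          · have := (t2_best G c s hL hU x y).1 hb
            exact Or.inr ⟨y, this.1, this.2, (ihx y this.1).2 ⟨z, hyz, h4⟩⟩

include hL hU in
theorem t2_main (V : ℕ → G.Node → Prop) (hV : ∀ a x, V a x ↔ (s x).lab (3 * (11 * a)))
    (hB : Bad c (s G.root).lab) (φ : Form m) (hφ : φ.code = c) : ∃ x, G.sat V φ x := by
  obtain ⟨y, -, hy⟩ := (t2_E G c s hL c (Nat.lt_succ_self c) G.root).1 hB.1
  refine ⟨y, (t2_sat G c s hL hU V hV hB.2 φ (by omega) y).1 ?_⟩
  rw [hφ]; exact hy

end Pool.Agent.H407Z.BestAction
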