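import Pool.Agent.H407Z.BT1

set_option autoImplicit false

namespace Pool.Agent.H407Z.BestAction

open Relation

/-- states realised by a labelled tree of height below `d` -/
def Rl (m c : ℕ) : ℕ → St ℚ → Prop
  | 0 => fun _ => False
  | d + 1 => fun s => ∃ i, i < m + 1 ∧ ∃ C : List (St ℚ), (∀ y ∈ C, Rl m c d y) ∧
      Loc m c i s.lab s.le (cv s '' {y | y ∈ C})

lemma Rl_succ {m c : ℕ} (d : ℕ) : ∀ s, Rl m c d s → Rl m c (d + 1) s := by
  induction d with
  | zero => intro s h; exact h.elim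
  | succ d ih =>
    rintro s ⟨i, hi, C, hC, hL⟩
    exact ⟨i, hi, C, fun y hy => ih y (hC y hy), hL⟩

lemma Rl_mono {m c : ℕ} {d e : ℕ} (h : d ≤ e) (s : St ℚ) (hs : Rl m c d s) : Rl m c e s := by
  induction h with
  | refl => exact hs
  | step _ ih => exact Rl_succ _ _ ih

/-- realised states -/
def Real (m c : ℕ) (s : St ℚ) : Prop := ∃ d, Rl m c d s

lemma real_of_loc {m c : ℕ} (s : St ℚ) (i : ℕ) (hi : i < m + 1) (C : List (St ℚ))
    (hC : ∀ y ∈ C, Real m c y) (hL : Loc m c i s.lab s.le (cv s '' {y | y ∈ C})) : Real m c s := by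
  have : ∃ d, ∀ y ∈ C, Rl m c d y := by
    clear hL
    induction C with
    | nil => exact ⟨0, by simp⟩
    | cons a C ih =>
      obtain ⟨d, hd⟩ := ih (fun y hy => hC y (List.mem_cons_of_mem _ hy))
      obtain ⟨e, he⟩ := hC a List.mem_cons_self
      refine ⟨max d e, fun y hy => ?_⟩
      rcases List.mem_cons.1 hy with rfl | hy
      · exact Rl_mono (le_max_right _ _) _ he
      · exact Rl_mono (le_max_left _ _) _ (hd y hy)
  obtain ⟨d, hd⟩ := this
  exact ⟨d + 1, i, hi, C, hd, hL⟩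

/-- moving the values by a map -/
def St.map (g : ℚ → ℚ) (s : St ℚ) : St ℚ := ⟨s.lab, fun a => g (s.val a)⟩

lemma le_map {g : ℚ → ℚ} (hg : StrictMono g) (s : St ℚ) : (s.map g).le = s.le := by
  funext a b
  exact propext hg.le_iff_le

lemma cv_map {g : ℚ → ℚ} (hg : StrictMono g) (p y : St ℚ) : cv (p.map g) (y.map g) = cv p y := by
  unfold cv
  congr 1
  · funext a b
    exact propext hg.le_iff_le
  · funext a b
    exact propext hg.le_iff_le

lemma Rl_map {m c : ℕ} {g : ℚ → ℚ} (hg : StrictMono g) (d : ℕ) :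
    ∀ s, Rl m c d s → Rl m c d (s.map g) := by
  induction d with
  | zero => intro s h; exact h.elim
  | succ d ih =>
    rintro s ⟨i, hi, C, hC, hL⟩
    refine ⟨i, hi, C.map (St.map g), ?_, ?_⟩
    · intro y hy
      obtain ⟨z, hz, rfl⟩ := List.mem_map.1 hy
      exact ih z (hC z hz)
    · have : cv (s.map g) '' {y | y ∈ C.map (St.map g)} = cv s '' {y | y ∈ C} := by
        ext v
        simp only [Set.mem_image, Set.mem_ofPred_eq, List.mem_map]
        constructor
        · rintro ⟨y, ⟨z, hz, rfl⟩, rfl⟩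
          exact ⟨z, hz, (cv_map hg s z).symm⟩
        · rintro ⟨z, hz, rfl⟩
          exact ⟨_, ⟨z, hz, rfl⟩, cv_map hg s z⟩
      rw [this, le_map hg]
      exact hL

lemma real_map {m c : ℕ} {g : ℚ → ℚ} (hg : StrictMono g) (s : St ℚ) (h : Real m c s) :
    Real m c (s.map g) := by
  obtain ⟨d, hd⟩ := h
  exact ⟨d, Rl_map hg d s hd⟩

section unravel

variable {m c : ℕ} (I : ℕ → St ℚ → Fin (m + 1)) (C : ℕ → St ℚ → List (St ℚ)) (d0 : ℕ) (s0 : St ℚ)

/-- the state at a path -/
def pst : List ℕ → St ℚ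
  | [] => s0
  | n :: p => (C (d0 - p.length) (pst p)).getD n s0

/-- the admissible paths -/
def pok : List ℕ → Prop
  | [] => True
  | n :: p => pok p ∧ n < (C (d0 - p.length) (pst C d0 s0 p)).length

variable (hIC : ∀ d s, Rl m c (d + 1) s → (∀ y ∈ C d s, Rl m c d y) ∧
    Loc m c (I d s) s.lab s.le (cv s '' {y | y ∈ C d s})) (h0 : Rl m c (d0 + 1) s0)

include hIC h0 in
lemma pok_inv (p : List ℕ) (hp : pok C d0 s0 p) :
    p.length ≤ d0 ∧ Rl m c (d0 - p.length + 1) (pst C d0 s0 p) := by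
  induction p with
  | nil => exact ⟨Nat.zero_le _, h0⟩
  | cons n p ih =>
    obtain ⟨h1, h2⟩ := ih hp.1
    have h3 : Rl m c (d0 - p.length) (pst C d0 s0 (n :: p)) := by
      apply (hIC _ _ h2).1
      show (C (d0 - p.length) (pst C d0 s0 p)).getD n s0 ∈ _
      rw [List.getD_eq_getElem _ _ hp.2]
      exact List.getElem_mem _
    have h4 : d0 - p.length ≠ 0 := by
      intro h
      rw [h] at h3
      exact h3
    have h5 : d0 - (n :: p).length + 1 = d0 - p.length := by
      simp only [List.length_cons]; omega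
    rw [h5]
    exact ⟨by simp only [List.length_cons]; omega, h3⟩

lemma pok_finite_len (l : ℕ) : {p | pok C d0 s0 p ∧ p.length = l}.Finite := by
  induction l with
  | zero =>
    refine (Set.finite_singleton []).subset ?_
    rintro p ⟨-, hp⟩
    exact List.length_eq_zero_iff.1 hp
  | succ l ih =>
    refine (ih.biUnion (t := fun p => (fun n => n :: p) ''
      {n | n < (C (d0 - p.length) (pst C d0 s0 p)).length})
      (fun p _ => (Set.finite_lt_nat _).image _)).subset ?_
    rintro p ⟨hp, hl⟩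
    cases p with
    | nil => simp at hl
    | cons n p =>
      simp only [Set.mem_iUnion]
      exact ⟨p, ⟨hp.1, by simpa using hl⟩, n, hp.2, rfl⟩

include hIC h0 in
lemma pok_finite : {p | pok C d0 s0 p}.Finite := by
  refine ((Set.finite_le_nat d0).biUnion (fun l _ => pok_finite_len C d0 s0 l)).subset ?_
  intro p hp
  simp only [Set.mem_iUnion]
  exact ⟨p.length, (pok_inv I C d0 s0 hIC h0 p hp).1, hp, rfl⟩

/-- the unravelled game tree -/
def utree (hfin : {p | pok C d0 s0 p}.Finite) : GameTree m where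
  Node := {p // pok C d0 s0 p}
  finite := hfin.to_subtype
  move x y := ∃ n, y.1 = n :: x.1
  root := ⟨[], trivial⟩
  root_no_parent := by
    rintro x ⟨n, h⟩
    exact absurd h (by simp)
  parent_unique := by
    rintro x y z ⟨n, h1⟩ ⟨n', h2⟩
    rw [h1] at h2
    exact Subtype.ext (List.cons.inj h2).2
  reach := by
    rintro ⟨p, hp⟩
    induction p with
    | nil => exact .refl
    | cons n p ih => exact .tail (ih hp.1) ⟨n, rfl⟩
  turn x := I (d0 - x.1.length) (pst C d0 s0 x.1)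
  pref i u v := (pst C d0 s0 u.1).val (3 * i + 1) ≤ (pst C d0 s0 v.1).val (3 * i + 1)
  pref_total := fun _ _ _ _ _ => le_total _ _
  pref_trans := fun _ _ _ _ _ _ _ h1 h2 => le_trans h1 h2

lemma utree_kids (hfin : {p | pok C d0 s0 p}.Finite) (x : (utree I C d0 s0 hfin).Node) :
    kids (utree I C d0 s0 hfin) (fun x => pst C d0 s0 x.1) x =
      cv (pst C d0 s0 x.1) '' {y | y ∈ C (d0 - x.1.length) (pst C d0 s0 x.1)} := by
  ext v
  simp only [kids, Set.mem_image, Set.mem_ofPred_eq]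
  constructor
  · rintro ⟨⟨q, hq⟩, ⟨n, h⟩, rfl⟩
    simp only at h
    subst h
    refine ⟨_, ?_, rfl⟩
    show (C (d0 - x.1.length) (pst C d0 s0 x.1)).getD n s0 ∈ _
    rw [List.getD_eq_getElem _ _ hq.2]
    exact List.getElem_mem _
  · rintro ⟨y, hy, rfl⟩
    obtain ⟨n, hn, rfl⟩ := List.getElem_of_mem hy
    refine ⟨⟨n :: x.1, x.2, hn⟩, ⟨n, rfl⟩, ?_⟩
    congr 1
    show (C (d0 - x.1.length) (pst C d0 s0 x.1)).getD n s0 = _
    rw [List.getD_eq_getElem _ _ hn]

end unravel

theorem real_sat {m c : ℕ} (s0 : St ℚ) (h : Real m c s0) (hB : Bad c s0.lab) (φ : Form m)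
    (hφ : φ.code = c) : ∃ (G : GameTree m) (V : ℕ → G.Node → Prop) (x : G.Node), G.sat V φ x := by
  obtain ⟨d, hd⟩ := h
  have h0 := Rl_succ d s0 hd
  have h1 : ∀ d s, ∃ (i : Fin (m + 1)) (C : List (St ℚ)), Rl m c (d + 1) s →
      (∀ y ∈ C, Rl m c d y) ∧ Loc m c i s.lab s.le (cv s '' {y | y ∈ C}) := by
    intro d s
    by_cases h : Rl m c (d + 1) s
    · obtain ⟨i, hi, C, hC⟩ := h
      exact ⟨⟨i, hi⟩, C, fun _ => hC⟩
    · exact ⟨0, [], fun h' => absurd h' h⟩
  choose I C hIC using h1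
  have hfin := pok_finite I C d s0 hIC h0
  refine ⟨utree I C d s0 hfin, fun a x => (pst C d s0 x.1).lab (3 * (11 * a)), ?_⟩
  refine t2_main (utree I C d s0 hfin) c (fun x => pst C d s0 x.1) ?_ (fun _ _ _ _ _ => Iff.rfl) _
    (fun _ _ => Iff.rfl) hB φ hφ
  intro x
  rw [utree_kids]
  exact (hIC _ _ (pok_inv I C d s0 hIC h0 x.1 x.2).2).2

end Pool.Agent.H407Z.BestAction
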