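import Mathlib

set_option autoImplicit false

namespace Pool.Agent.H407Z.KConv

open MeasureTheory
open scoped ENNReal

/-- Euclidean `n`-space. -/
abbrev E (n : ℕ) : Type := EuclideanSpace ℝ (Fin n)

/-- A symmetric convex body: compact, convex, nonempty interior, `K = -K`. -/
def IsSymmBody {n : ℕ} (K : Set (E n)) : Prop :=
  IsCompact K ∧ Convex ℝ K ∧ (interior K).Nonempty ∧ ∀ x ∈ K, -x ∈ K

/-- The normalised rotation invariant measure on the unit sphere of `ℝ ^ n` (the cone measure of
Lebesgue measure, divided by its total mass). -/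
noncomputable def sphereMeasure (n : ℕ) : Measure (Metric.sphere (0 : E n) 1) :=
  ((volume : Measure (E n)).toSphere Set.univ)⁻¹ • (volume : Measure (E n)).toSphere

/-- `M(K)`: the mean over the sphere of the norm whose unit ball is `K` (the gauge of `K`). -/
noncomputable def meanNorm {n : ℕ} (K : Set (E n)) : ℝ :=
  ∫ x, gauge K (x : E n) ∂(sphereMeasure n)

/-- `M*(K)`: the mean over the sphere of the support function of `K`. -/
noncomputable def meanWidth {n : ℕ} (K : Set (E n)) : ℝ :=
  ∫ x, sSup ((fun y : E n => inner ℝ y (x : E n)) '' K) ∂(sphereMeasure n)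

/-- The `MM*` product: the least value of `M(TK) M*(TK)` over invertible linear maps `T`. -/
noncomputable def mmStar {n : ℕ} (K : Set (E n)) : ℝ :=
  ⨅ T : E n ≃ₗ[ℝ] E n, meanNorm (T '' K) * meanWidth (T '' K)

/-- The sign `± 1` coded by a Boolean. -/
def sg (b : Bool) : ℝ := if b then 1 else -1

/-- The norm of `f` in `L_2({-1,1}^m; X_K)` for the uniform probability measure on the cube. -/
noncomputable def l2Norm {n m : ℕ} (K : Set (E n)) (f : (Fin m → Bool) → E n) : ℝ :=
  Real.sqrt ((∑ ε : Fin m → Bool, gauge K (f ε) ^ 2) / 2 ^ m)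

/-- The Rademacher projection `R_m f = ∑ i, ε_i 𝔼[ε_i f]`. -/
noncomputable def radProj {n m : ℕ} (f : (Fin m → Bool) → E n) : (Fin m → Bool) → E n :=
  fun ε => ∑ i : Fin m, sg (ε i) • (((2 : ℝ) ^ m)⁻¹ • ∑ δ : Fin m → Bool, sg (δ i) • f δ)

/-- The K-convexity constant of `X_K`: the supremum over `m` of the operator norm of `R_m` on
`L_2({-1,1}^m; X_K)`. -/
noncomputable def kConv {n : ℕ} (K : Set (E n)) : ℝ≥0∞ :=
  ⨆ (m : ℕ) (f : (Fin m → Bool) → E n), ENNReal.ofReal (l2Norm K (radProj f) / l2Norm K f)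

end Pool.Agent.H407Z.KConv
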