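import Pool.Agent.H407Z.KDefs

set_option autoImplicit false

namespace Pool.Agent.H407Z.KConv

open Finset

lemma sg_sq (b : Bool) : sg b ^ 2 = 1 := by cases b <;> simp [sg]

lemma sum_cube_succ {k : ℕ} (F : (Fin (k + 1) → Bool) → ℝ) :
    ∑ t, F t = ∑ t : Fin k → Bool, (F (Fin.cons true t) + F (Fin.cons false t)) := by
  rw [← (Fin.consEquiv (fun _ : Fin (k + 1) => Bool)).sum_comp, Fintype.sum_prod_type,
    Fintype.sum_bool, ← sum_add_distrib]
  rfl

lemma moments (k : ℕ) (c : Fin k → ℝ) (hc : ∀ i, c i ^ 2 = 1) :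
    ∑ t : Fin k → Bool, (∑ i, c i * sg (t i)) ^ 2 = 2 ^ k * k ∧
    ∑ t : Fin k → Bool, (∑ i, c i * sg (t i)) ^ 4 = 2 ^ k * (3 * k ^ 2 - 2 * k) := by
  induction k with
  | zero => simp
  | succ k ih =>
    obtain ⟨h2, h4⟩ := ih (fun i => c i.succ) (fun i => hc _)
    have h0 := hc 0
    have hcard : ∑ _t : Fin k → Bool, (1 : ℝ) = 2 ^ k := by simp
    constructor
    · rw [sum_cube_succ]
      simp only [Fin.sum_univ_succ, Fin.cons_zero, Fin.cons_succ]
      have : ∀ t : Fin k → Bool,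
          (c 0 * sg true + ∑ i, c i.succ * sg (t i)) ^ 2 +
            (c 0 * sg false + ∑ i, c i.succ * sg (t i)) ^ 2
          = 2 * (∑ i, c i.succ * sg (t i)) ^ 2 + 2 * 1 := by
        intro t
        simp only [sg, if_true, Bool.false_eq_true, if_false]
        generalize (∑ i, c i.succ * if t i = true then (1 : ℝ) else -1) = S
        linear_combination 2 * h0
      rw [sum_congr rfl (fun t _ => this t), sum_add_distrib, ← mul_sum, ← mul_sum, h2, hcard]
      push_cast; ring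
    · rw [sum_cube_succ]
      simp only [Fin.sum_univ_succ, Fin.cons_zero, Fin.cons_succ]
      have : ∀ t : Fin k → Bool,
          (c 0 * sg true + ∑ i, c i.succ * sg (t i)) ^ 4 +
            (c 0 * sg false + ∑ i, c i.succ * sg (t i)) ^ 4
          = 2 * (∑ i, c i.succ * sg (t i)) ^ 4 + 12 * (∑ i, c i.succ * sg (t i)) ^ 2 + 2 * 1 := by
        intro t
        simp only [sg, if_true, Bool.false_eq_true, if_false]
        generalize (∑ i, c i.succ * if t i = true then (1 : ℝ) else -1) = S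
        linear_combination (12 * S ^ 2 + 2 * c 0 ^ 2 + 2) * h0
      rw [sum_congr rfl (fun t _ => this t), sum_add_distrib, sum_add_distrib, ← mul_sum, ← mul_sum,
        ← mul_sum, h2, h4, hcard]
      push_cast; ring

lemma abs_lower (S s : ℝ) (hs : 0 < s) : S ^ 2 / s - S ^ 4 / (4 * s ^ 3) ≤ |S| := by
  have hy : 0 ≤ |S| / s := by positivity
  have h1 : S ^ 2 = (|S| / s) ^ 2 * s ^ 2 := by rw [div_pow, sq_abs]; field_simp
  have h2 : S ^ 4 = (|S| / s) ^ 4 * s ^ 4 := by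
    have : |S| ^ 4 = S ^ 4 := by rw [pow_abs]; exact abs_of_nonneg (by positivity)
    rw [div_pow, this]; field_simp
  have h3 : |S| = (|S| / s) * s := by field_simp
  rw [h1, h2]
  generalize |S| / s = y at *
  rw [h3]
  have h5 : y ^ 2 * s ^ 2 / s - y ^ 4 * s ^ 4 / (4 * s ^ 3) = (y ^ 2 - y ^ 4 / 4) * s := by
    field_simp
  rw [h5]
  apply mul_le_mul_of_nonneg_right _ hs.le
  have h6 : 0 ≤ y ^ 3 - 4 * y + 4 := by
    rcases le_total y 2 with h | h
    · nlinarith [mul_nonneg (sq_nonneg (y - 1)) (by linarith : 0 ≤ y + 2)]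
    · nlinarith [mul_nonneg hy (by nlinarith : 0 ≤ y ^ 2 - 4)]
  nlinarith [mul_nonneg hy h6]

lemma abs_mean (s : ℕ) (hs : 0 < s) (c : Fin (s ^ 2) → ℝ) (hc : ∀ i, c i ^ 2 = 1) :
    2 ^ (s ^ 2) * ((s : ℝ) / 4) ≤ ∑ t : Fin (s ^ 2) → Bool, |∑ i, c i * sg (t i)| := by
  obtain ⟨h2, h4⟩ := moments (s ^ 2) c hc
  have hs' : (0 : ℝ) < s := by exact_mod_cast hs
  refine le_trans ?_ (sum_le_sum (fun t _ => abs_lower (∑ i, c i * sg (t i)) s hs'))
  rw [sum_sub_distrib, ← sum_div, ← sum_div, h2, h4]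
  push_cast
  have hp : (0 : ℝ) < 2 ^ (s ^ 2) := by positivity
  generalize (2 : ℝ) ^ (s ^ 2) = P at *
  have : P * (s : ℝ) ^ 2 / s - P * (3 * ((s : ℝ) ^ 2) ^ 2 - 2 * (s : ℝ) ^ 2) / (4 * (s : ℝ) ^ 3)
      = P * (s / 4) + P / (2 * s) := by
    field_simp; ring
  rw [this]
  have : 0 ≤ P / (2 * s) := by positivity
  linarith

end Pool.Agent.H407Z.KConv
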