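import Pool.Agent.H407Z.KSphere
import Pool.Agent.H407Z.KMoments

set_option autoImplicit false

namespace Pool.Agent.H407Z.KConv

open MeasureTheory Set
open scoped ENNReal Pointwise

section body

variable {n : ℕ} {ι : Type} [Fintype ι] (e : ι → Fin n)

/-- the norm: maximum of the Euclidean norm and the `ℓ_1` norm of the coordinates `e t` -/
noncomputable def pn (x : E n) : ℝ := max ‖x‖ (∑ t, |x (e t)|)

/-- its unit ball -/
def body : Set (E n) := {x | pn e x ≤ 1}

lemma pn_smul (r : ℝ) (x : E n) : pn e (r • x) = |r| * pn e x := by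
  unfold pn
  rw [mul_max_of_nonneg _ _ (abs_nonneg r), norm_smul, Real.norm_eq_abs, Finset.mul_sum]
  congr 1
  refine Finset.sum_congr rfl (fun t _ => ?_)
  simp [abs_mul]

lemma pn_nonneg (x : E n) : 0 ≤ pn e x := le_max_of_le_left (norm_nonneg x)

lemma norm_le_pn (x : E n) : ‖x‖ ≤ pn e x := le_max_left _ _

lemma pn_add (x y : E n) : pn e (x + y) ≤ pn e x + pn e y := by
  unfold pn
  apply max_le
  · exact (norm_add_le x y).trans (add_le_add (le_max_left _ _) (le_max_left _ _))
  · refine le_trans ?_ (add_le_add (le_max_right _ _) (le_max_right _ _))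
    rw [← Finset.sum_add_distrib]
    refine Finset.sum_le_sum (fun t _ => ?_)
    simpa using abs_add_le (x (e t)) (y (e t))

lemma pn_cont : Continuous (pn e) := by
  unfold pn
  fun_prop

lemma pn_zero : pn e 0 = 0 := by simp [pn]

lemma gauge_body (x : E n) : gauge (body e) x = pn e x := by
  apply le_antisymm
  · refine le_of_forall_gt_imp_ge_of_dense (fun r hr => ?_)
    have hr0 : 0 < r := lt_of_le_of_lt (pn_nonneg e x) hr
    apply gauge_le_of_mem hr0.le
    refine ⟨r⁻¹ • x, ?_, by simp [smul_smul, hr0.ne']⟩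
    show pn e (r⁻¹ • x) ≤ 1
    rw [pn_smul, abs_of_pos (inv_pos.2 hr0), inv_mul_le_iff₀ hr0]
    linarith
  · rw [gauge_def']
    apply le_csInf
    · refine ⟨pn e x + 1, by have := pn_nonneg e x; simp only [mem_Ioi]; linarith, ?_⟩
      have hr0 : 0 < pn e x + 1 := by have := pn_nonneg e x; linarith
      show pn e ((pn e x + 1)⁻¹ • x) ≤ 1
      rw [pn_smul, abs_of_pos (inv_pos.2 hr0), inv_mul_le_iff₀ hr0]
      linarith
    · rintro r ⟨hr0, hr⟩
      have hr0' : 0 < r := hr0
      have h : pn e (r⁻¹ • x) ≤ 1 := hr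
      rw [pn_smul, abs_of_pos (inv_pos.2 hr0'), inv_mul_le_iff₀ hr0'] at h
      linarith

lemma body_symm : IsSymmBody (body e) := by
  refine ⟨?_, ?_, ?_, ?_⟩
  · apply Metric.isCompact_of_isClosed_isBounded
    · exact isClosed_le (pn_cont e) continuous_const
    · refine (Metric.isBounded_closedBall (x := (0 : E n)) (r := 1)).subset (fun x hx => ?_)
      rw [mem_closedBall_zero_iff]
      exact (norm_le_pn e x).trans hx
  · intro x hx y hy a b ha hb hab
    show pn e (a • x + b • y) ≤ 1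
    refine (pn_add e _ _).trans ?_
    rw [pn_smul, pn_smul, abs_of_nonneg ha, abs_of_nonneg hb]
    have h1 : pn e x ≤ 1 := hx
    have h2 : pn e y ≤ 1 := hy
    nlinarith
  · refine ⟨0, ?_⟩
    rw [mem_interior]
    refine ⟨{x | pn e x < 1}, fun x hx => (show pn e x ≤ 1 from le_of_lt hx),
      isOpen_lt (pn_cont e) continuous_const, ?_⟩
    show pn e 0 < 1
    rw [pn_zero]; norm_num
  · intro x hx
    show pn e (-x) ≤ 1
    rw [← neg_one_smul ℝ x, pn_smul]
    have hx' : pn e x ≤ 1 := hx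
    simpa using hx'

lemma meanWidth_body (hn : 0 < n) : meanWidth (body e) ≤ 1 := by
  have := sphereMeasure_prob hn
  unfold meanWidth
  have hb : ∀ x : Metric.sphere (0 : E n) 1, ∀ z ∈ (fun y : E n => inner ℝ y (x : E n)) '' body e,
      z ≤ 1 := by
    rintro x z ⟨y, hy, rfl⟩
    have hx : ‖(x : E n)‖ = 1 := by simp
    have h1 := real_inner_le_norm y (x : E n)
    have h2 : ‖y‖ ≤ 1 := (norm_le_pn e y).trans hy
    rw [hx] at h1
    show inner ℝ y (x : E n) ≤ 1
    linarith
  refine le_trans (integral_mono_of_nonneg (g := fun _ => (1 : ℝ)) ?_ (integrable_const _) ?_) (by simp)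
  · refine Filter.Eventually.of_forall (fun x => ?_)
    apply le_csSup ⟨1, hb x⟩
    exact ⟨0, by show pn e 0 ≤ 1; rw [pn_zero]; norm_num, by simp⟩
  · refine Filter.Eventually.of_forall (fun x => ?_)
    exact Real.sSup_le (hb x) zero_le_one

lemma meanNorm_body (hι : 0 < Fintype.card ι) (hn : n = Fintype.card ι ^ 2) :
    meanNorm (body e) ≤ 2 := by
  have hn0 : 0 < n := by rw [hn]; positivity
  have := sphereMeasure_prob hn0
  set a : ℝ := (Fintype.card ι : ℝ) with ha
  have ha0 : 0 < a := by rw [ha]; exact_mod_cast hι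
  have hna : (n : ℝ) = a ^ 2 := by rw [hn]; push_cast; rfl
  unfold meanNorm
  have hint : ∀ t, Integrable (fun x : Metric.sphere (0 : E n) 1 => (x : E n) (e t) ^ 2)
      (sphereMeasure n) := fun t => integrable_cont hn0 _ (coord_cont _)
  refine le_trans (integral_mono_of_nonneg
    (g := fun x : Metric.sphere (0 : E n) 1 => (3 / 2 : ℝ) + a / 2 * ∑ t, (x : E n) (e t) ^ 2)
    ?_ ?_ ?_) ?_
  · exact Filter.Eventually.of_forall (fun x => gauge_nonneg _)
  · exact (integrable_const _).add ((integrable_finsetSum _ (fun t _ => hint t)).const_mul _)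
  · refine Filter.Eventually.of_forall (fun x => ?_)
    have hx : ‖(x : E n)‖ = 1 := by simp
    show gauge (body e) (x : E n) ≤ 3 / 2 + a / 2 * ∑ t, (x : E n) (e t) ^ 2
    rw [gauge_body]
    have hs : 0 ≤ a / 2 * ∑ t, (x : E n) (e t) ^ 2 := by positivity
    apply max_le
    · rw [hx]; linarith
    · have h1 : ∀ t, |(x : E n) (e t)| ≤ a / 2 * (x : E n) (e t) ^ 2 + 1 / (2 * a) := by
        intro t
        rw [← sq_abs ((x : E n) (e t))]
        generalize |(x : E n) (e t)| = u
        have : a / 2 * u ^ 2 + 1 / (2 * a) - u = (a * u - 1) ^ 2 / (2 * a) := by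
          field_simp; ring
        have h2 : 0 ≤ (a * u - 1) ^ 2 / (2 * a) := by positivity
        linarith
      refine (Finset.sum_le_sum (fun t _ => h1 t)).trans ?_
      rw [Finset.sum_add_distrib, ← Finset.mul_sum, Finset.sum_const, Finset.card_univ,
        nsmul_eq_mul, ← ha]
      have : a * (1 / (2 * a)) = 1 / 2 := by field_simp
      rw [this]; linarith
  · rw [integral_add (integrable_const _)
      ((integrable_finsetSum _ (fun t _ => hint t)).const_mul _), integral_const_mul,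
      integral_finsetSum _ (fun t _ => hint t)]
    simp only [int_sq, Finset.sum_const, Finset.card_univ, nsmul_eq_mul, ← ha, hna]
    have : a / 2 * (a * (1 / a ^ 2)) = 1 / 2 := by field_simp
    rw [this]
    simp
    norm_num

end body

lemma meanNorm_nonneg {n : ℕ} (K : Set (E n)) : 0 ≤ meanNorm K :=
  integral_nonneg (fun _ => gauge_nonneg _)

lemma meanWidth_nonneg {n : ℕ} (K : Set (E n)) (hK : IsCompact K) (h0 : (0 : E n) ∈ K) :
    0 ≤ meanWidth K := by
  refine integral_nonneg (fun x => ?_)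
  apply le_csSup
  · exact (hK.image (by fun_prop)).bddAbove
  · exact ⟨0, h0, by simp⟩

lemma mmStar_le {n : ℕ} (K : Set (E n)) (hK : IsCompact K) (h0 : (0 : E n) ∈ K) :
    mmStar K ≤ meanNorm K * meanWidth K := by
  unfold mmStar
  refine le_trans (ciInf_le ⟨0, ?_⟩ (LinearEquiv.refl ℝ (E n))) (by simp)
  rintro _ ⟨T, rfl⟩
  refine mul_nonneg (meanNorm_nonneg _) (meanWidth_nonneg _ ?_ ⟨0, h0, by simp⟩)
  exact hK.image (T : E n →ₗ[ℝ] E n).continuous_of_finiteDimensional

lemma kConv_body (s : ℕ) (hs : 0 < s) {n : ℕ} (e : (Fin (s ^ 2) → Bool) → Fin n)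
    (he : Function.Injective e) : ENNReal.ofReal ((s : ℝ) / 4) ≤ kConv (body e) := by
  classical
  let f : (Fin (s ^ 2) → Bool) → E n := fun δ => EuclideanSpace.single (e δ) 1
  refine le_trans ?_ (le_iSup₂_of_le (s ^ 2) f le_rfl)
  apply ENNReal.ofReal_le_ofReal
  have hp : (0 : ℝ) < 2 ^ (s ^ 2) := by positivity
  have hf : ∀ δ t, f δ (e t) = if t = δ then 1 else 0 := by
    intro δ t
    simp [f, he.eq_iff]
  have h1 : l2Norm (body e) f = 1 := by
    unfold l2Norm
    have : ∀ δ, gauge (body e) (f δ) = 1 := by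
      intro δ
      rw [gauge_body]
      unfold pn
      have h2 : ‖f δ‖ = 1 := by simp [f]
      have h3 : ∑ t, |f δ (e t)| = 1 := by
        simp only [hf]
        rw [Finset.sum_eq_single δ] <;> simp +contextual
      rw [h2, h3, max_self]
    simp [this]
  rw [h1, div_one]
  unfold l2Norm
  apply Real.le_sqrt_of_sq_le
  rw [le_div_iff₀ hp]
  have h2 : ∀ ε, (s : ℝ) / 4 ≤ gauge (body e) (radProj f ε) := by
    intro ε
    rw [gauge_body]
    refine le_trans ?_ (le_max_right _ _)
    have h3 : ∀ t, radProj f ε (e t) = ((2 : ℝ) ^ (s ^ 2))⁻¹ * ∑ i, sg (ε i) * sg (t i) := by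
      intro t
      unfold radProj
      rw [Finset.mul_sum]
      simp only [WithLp.ofLp_sum, WithLp.ofLp_smul, Finset.sum_apply, Pi.smul_apply, smul_eq_mul, hf]
      refine Finset.sum_congr rfl (fun i _ => ?_)
      rw [Finset.sum_eq_single t] <;> simp +contextual [eq_comm]
      ring
    simp only [h3, abs_mul, ← Finset.mul_sum]
    rw [abs_of_pos (inv_pos.2 hp), le_inv_mul_iff₀ hp]
    exact abs_mean s hs (fun i => sg (ε i)) (fun i => sg_sq _)
  have h4 : ∀ ε, ((s : ℝ) / 4) ^ 2 ≤ gauge (body e) (radProj f ε) ^ 2 := fun ε =>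
    pow_le_pow_left₀ (by positivity) (h2 ε) 2
  refine le_trans ?_ (Finset.sum_le_sum (fun ε _ => h4 ε))
  simp [mul_comm]

theorem main (s : ℕ) (hs : 0 < s) :
    ∃ K : Set (E (4 ^ (s ^ 2))), IsSymmBody K ∧ mmStar K ≤ 2 ∧
      ENNReal.ofReal ((s : ℝ) / 4) ≤ kConv K := by
  classical
  have hcard : Fintype.card (Fin (s ^ 2) → Bool) = 2 ^ (s ^ 2) := by simp
  have hn : 4 ^ (s ^ 2) = Fintype.card (Fin (s ^ 2) → Bool) ^ 2 := by
    rw [hcard, ← pow_mul, mul_comm, pow_mul]; norm_num
  have hle : Fintype.card (Fin (s ^ 2) → Bool) ≤ Fintype.card (Fin (4 ^ (s ^ 2))) := by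
    rw [hcard, Fintype.card_fin]
    exact Nat.pow_le_pow_left (by norm_num) _
  obtain ⟨e⟩ := Function.Embedding.nonempty_of_card_le hle
  have hB := body_symm (n := 4 ^ (s ^ 2)) e
  refine ⟨body e, hB, ?_, kConv_body s hs e e.injective⟩
  have h0 : (0 : E (4 ^ (s ^ 2))) ∈ body e := by
    show pn e 0 ≤ 1
    rw [pn_zero]; norm_num
  refine (mmStar_le _ hB.1 h0).trans ?_
  have h1 := meanNorm_body (n := 4 ^ (s ^ 2)) e (by rw [hcard]; positivity) hn
  have h2 := meanWidth_body (n := 4 ^ (s ^ 2)) e (by positivity)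
  have h3 := meanNorm_nonneg (body (n := 4 ^ (s ^ 2)) e)
  have h4 := meanWidth_nonneg (body (n := 4 ^ (s ^ 2)) e) hB.1 h0
  nlinarith

end Pool.Agent.H407Z.KConv
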