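import Pool.Agent.H407Z.KDefs

set_option autoImplicit false

namespace Pool.Agent.H407Z.KConv

open MeasureTheory Set
open scoped ENNReal Pointwise

/-- the map of the sphere induced by a linear isometry -/
noncomputable def sphMap {n : ℕ} (g : E n ≃ₗᵢ[ℝ] E n) (x : Metric.sphere (0 : E n) 1) :
    Metric.sphere (0 : E n) 1 :=
  ⟨g x, by
    have := x.2
    simp only [mem_sphere_iff_norm, sub_zero] at this ⊢
    rw [g.norm_map, this]⟩

lemma sphMap_cont {n : ℕ} (g : E n ≃ₗᵢ[ℝ] E n) : Continuous (sphMap g) :=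
  (g.continuous.comp continuous_subtype_val).subtype_mk _

lemma map_toSphere {n : ℕ} (g : E n ≃ₗᵢ[ℝ] E n) :
    Measure.map (sphMap g) (volume : Measure (E n)).toSphere = (volume : Measure (E n)).toSphere := by
  ext s hs
  have hm : Measurable (sphMap g) := (sphMap_cont g).measurable
  rw [Measure.map_apply hm hs, Measure.toSphere_apply' _ (hm hs), Measure.toSphere_apply' _ hs]
  congr 1
  have h1 : (Ioo (0 : ℝ) 1 • ((↑) '' (sphMap g ⁻¹' s)) : Set (E n))
      = g ⁻¹' (Ioo (0 : ℝ) 1 • ((↑) '' s : Set (E n))) := by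
    ext y
    simp only [mem_smul, mem_image, mem_preimage]
    constructor
    · rintro ⟨r, hr, z, ⟨x, hx, rfl⟩, rfl⟩
      exact ⟨r, hr, g x, ⟨sphMap g x, hx, rfl⟩, by simp⟩
    · rintro ⟨r, hr, z, ⟨x, hx, rfl⟩, h⟩
      refine ⟨r, hr, g.symm x, ⟨sphMap g.symm x, ?_, rfl⟩, ?_⟩
      · have : sphMap g (sphMap g.symm x) = x := Subtype.ext (by simp [sphMap])
        rw [this]; exact hx
      · apply g.injective
        rw [← h]; simp
  rw [h1]
  exact MeasurePreserving.measure_preimage_equiv (f := g.toHomeomorph.toMeasurableEquiv)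
    g.measurePreserving _

lemma map_sphereMeasure {n : ℕ} (g : E n ≃ₗᵢ[ℝ] E n) :
    Measure.map (sphMap g) (sphereMeasure n) = sphereMeasure n := by
  unfold sphereMeasure
  rw [Measure.map_smul, map_toSphere]

lemma sphereMeasure_prob {n : ℕ} (hn : 0 < n) : IsProbabilityMeasure (sphereMeasure n) := by
  have : Nonempty (Fin n) := ⟨⟨0, hn⟩⟩
  have : Nontrivial (E n) := inferInstance
  constructor
  unfold sphereMeasure
  rw [Measure.smul_apply, smul_eq_mul]
  apply ENNReal.inv_mul_cancel
  · rw [Ne, Measure.measure_univ_eq_zero]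
    exact Measure.toSphere_ne_zero _
  · exact measure_ne_top _ _

lemma integrable_cont {n : ℕ} (hn : 0 < n) (f : Metric.sphere (0 : E n) 1 → ℝ) (hf : Continuous f) :
    Integrable f (sphereMeasure n) := by
  have := sphereMeasure_prob hn
  exact hf.integrable_of_hasCompactSupport (HasCompactSupport.of_compactSpace f)

lemma coord_cont {n : ℕ} (i : Fin n) :
    Continuous (fun x : Metric.sphere (0 : E n) 1 => (x : E n) i ^ 2) := by
  fun_prop

lemma int_sq_eq {n : ℕ} (i j : Fin n) :
    ∫ x, (x : E n) i ^ 2 ∂(sphereMeasure n) = ∫ x, (x : E n) j ^ 2 ∂(sphereMeasure n) := by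
  let g : E n ≃ₗᵢ[ℝ] E n := LinearIsometryEquiv.piLpCongrLeft 2 ℝ ℝ (Equiv.swap i j)
  conv_lhs => rw [← map_sphereMeasure g]
  rw [integral_map (sphMap_cont g).measurable.aemeasurable (coord_cont i).aestronglyMeasurable]
  congr 1
  ext x
  simp [sphMap, g, Equiv.piCongrLeft']

lemma int_sq {n : ℕ} (i : Fin n) : ∫ x, (x : E n) i ^ 2 ∂(sphereMeasure n) = 1 / n := by
  have hn : 0 < n := lt_of_le_of_lt (Nat.zero_le _) i.2
  have := sphereMeasure_prob hn
  have h1 : ∑ j : Fin n, ∫ x, (x : E n) j ^ 2 ∂(sphereMeasure n) = 1 := by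
    rw [← integral_finsetSum _ (fun j _ => integrable_cont hn _ (coord_cont j))]
    have : ∀ x : Metric.sphere (0 : E n) 1, ∑ j : Fin n, (x : E n) j ^ 2 = 1 := by
      intro x
      have h := x.2
      simp only [mem_sphere_iff_norm, sub_zero] at h
      have h2 := EuclideanSpace.real_norm_sq_eq (x : E n)
      rw [h] at h2
      rw [← h2]; norm_num
    simp [this]
  rw [Finset.sum_congr rfl (fun j _ => int_sq_eq j i)] at h1
  simp only [Finset.sum_const, Finset.card_univ, Fintype.card_fin, nsmul_eq_mul] at h1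
  have : (n : ℝ) ≠ 0 := by positivity
  field_simp
  linarith

end Pool.Agent.H407Z.KConv
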