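import Mathlib

set_option autoImplicit false

open Set Filter Topology

namespace Pool.Agent.H407Z.QK

noncomputable def th : ℝ := Real.sqrt 2

theorem th_irr : Irrational th := irrational_sqrt_two

noncomputable def en : ℕ → ℚ := (exists_surjective_nat ℚ).choose

theorem en_surj (q : ℚ) : ∃ j, en j = q := (exists_surjective_nat ℚ).choose_spec q

noncomputable def off : List ℕ → ℝ
  | [] => 0
  | _ :: _ => th

def D : Set ℝ := range (fun q : ℚ => (q : ℝ)) ∪ range (fun q : ℚ => (q : ℝ) + th)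

theorem D_countable : D.Countable := (countable_range _).union (countable_range _)

theorem rat_mem_D (q : ℚ) : (q : ℝ) ∈ D := Or.inl ⟨q, rfl⟩

theorem off_mem_D (q : ℚ) (σ : List ℕ) : (q : ℝ) + off σ ∈ D := by
  cases σ with
  | nil => simp only [off, add_zero]; exact rat_mem_D q
  | cons m σ => exact Or.inr ⟨q, rfl⟩

noncomputable def cen (σ : List ℕ) (j : ℕ) : ℝ := (en j : ℝ) + off σ

theorem exists_rad (σ : List ℕ) (j : ℕ) :
    ∃ ρ : ℝ, 0 < ρ ∧ (∀ s ∈ D, |s - cen σ j| ≠ ρ) ∧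
      ∀ i < σ.length, ρ < |(en i : ℝ) - cen σ j| := by
  have h1 : ∃ b : ℝ, 0 < b ∧ ∀ i < σ.length, b ≤ |(en i : ℝ) - cen σ j| := by
    have hpos : ∀ i < σ.length, 0 < |(en i : ℝ) - cen σ j| := by
      intro i hi
      cases σ with
      | nil => simp at hi
      | cons m σ =>
        rw [abs_pos]
        intro h
        apply th_irr
        refine ⟨en i - en j, ?_⟩
        simp only [cen, off] at h
        push_cast
        linarith
    have hev : ∀ᶠ b in 𝓝[>] (0 : ℝ), ∀ i ∈ {i | i < σ.length}, b ≤ |(en i : ℝ) - cen σ j| := by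
      rw [Filter.eventually_all_finite (Set.finite_lt_nat _)]
      intro i hi
      exact mem_nhdsWithin_of_mem_nhds (Iic_mem_nhds (hpos i hi))
    obtain ⟨b, hb1, hb2⟩ := (hev.and self_mem_nhdsWithin).exists
    exact ⟨b, hb2, hb1⟩
  obtain ⟨b, hb, hb'⟩ := h1
  have hc : ((fun s => |s - cen σ j|) '' D).Countable := D_countable.image _
  obtain ⟨ρ, hρ, hρ1, hρ2⟩ := (hc.dense_compl ℝ).exists_between hb
  refine ⟨ρ, hρ1, ?_, fun i hi => lt_of_lt_of_le hρ2 (hb' i hi)⟩
  intro s hs h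
  exact hρ ⟨s, hs, h⟩

noncomputable def rad (σ : List ℕ) (j : ℕ) : ℝ := (exists_rad σ j).choose

theorem rad_pos (σ : List ℕ) (j : ℕ) : 0 < rad σ j := (exists_rad σ j).choose_spec.1

theorem rad_ne (σ : List ℕ) (j : ℕ) (s : ℝ) (hs : s ∈ D) : |s - cen σ j| ≠ rad σ j :=
  (exists_rad σ j).choose_spec.2.1 s hs

theorem rad_lt (σ : List ℕ) (j i : ℕ) (hi : i < σ.length) :
    rad σ j < |(en i : ℝ) - cen σ j| := (exists_rad σ j).choose_spec.2.2 i hi

def K : List ℕ → Set ℝ
  | [] => univ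
  | m :: σ => {s | s ∈ K σ ∧ ∃ j < m, |s - cen σ j| < rad σ j}

theorem ball_loc (σ : List ℕ) (j : ℕ) (s : ℝ) (hs : s ∈ D) :
    ∀ᶠ s' in 𝓝 s, (|s' - cen σ j| < rad σ j ↔ |s - cen σ j| < rad σ j) := by
  have hc : Continuous fun s' : ℝ => |s' - cen σ j| := by fun_prop
  rcases lt_or_gt_of_ne (rad_ne σ j s hs) with h | h
  · filter_upwards [hc.continuousAt.eventually (gt_mem_nhds h)] with s' hs'
    exact ⟨fun _ => h, fun _ => hs'⟩
  · filter_upwards [hc.continuousAt.eventually (lt_mem_nhds h)] with s' hs'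
    exact ⟨fun h' => absurd h' (not_lt.2 hs'.le), fun h' => absurd h' (not_lt.2 h.le)⟩

theorem K_loc (σ : List ℕ) (s : ℝ) (hs : s ∈ D) :
    ∀ᶠ s' in 𝓝 s, (s' ∈ K σ ↔ s ∈ K σ) := by
  induction σ with
  | nil => exact Eventually.of_forall fun _ => by simp [K]
  | cons m σ ih =>
    have h2 : ∀ᶠ s' in 𝓝 s, ∀ j ∈ {j | j < m},
        (|s' - cen σ j| < rad σ j ↔ |s - cen σ j| < rad σ j) := by
      rw [Filter.eventually_all_finite (Set.finite_lt_nat _)]
      intro j _
      exact ball_loc σ j s hs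
    filter_upwards [ih, h2] with s' h1 h2
    simp only [K, mem_ofPred_eq]
    rw [h1]
    constructor
    · rintro ⟨ha, j, hj, hb⟩
      exact ⟨ha, j, hj, (h2 j hj).1 hb⟩
    · rintro ⟨ha, j, hj, hb⟩
      exact ⟨ha, j, hj, (h2 j hj).2 hb⟩

/-- Near the centre number `j`, all children with index above `j` agree with the parent. -/
theorem K_child (σ : List ℕ) (j : ℕ) :
    ∀ᶠ s' in 𝓝 (cen σ j), ∀ m, j + 1 ≤ m → (s' ∈ K (m :: σ) ↔ s' ∈ K σ) := by
  have hc : Continuous fun s' : ℝ => |s' - cen σ j| := by fun_prop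
  have h0 : |cen σ j - cen σ j| < rad σ j := by simpa using rad_pos σ j
  filter_upwards [hc.continuousAt.eventually (gt_mem_nhds h0)] with s' hs' m hm
  simp only [K, mem_ofPred_eq]
  exact ⟨fun h => h.1, fun h => ⟨h, j, hm, hs'⟩⟩

def pre (β : ℕ → ℕ) : ℕ → List ℕ
  | 0 => []
  | n + 1 => β n :: pre β n

theorem pre_length (β : ℕ → ℕ) (n : ℕ) : (pre β n).length = n := by
  induction n with
  | zero => rfl
  | succ n ih => simp [pre, ih]

theorem K_pre_anti (β : ℕ → ℕ) {n k : ℕ} (h : n ≤ k) : K (pre β k) ⊆ K (pre β n) := by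
  induction h with
  | refl => exact Subset.rfl
  | step _ ih => exact fun s hs => ih hs.1

/-- Near a rational number, deep nodes along a branch are empty. -/
theorem K_branch (β : ℕ → ℕ) (i : ℕ) :
    ∀ᶠ s' in 𝓝 (en i : ℝ), ∀ k, i + 2 ≤ k → s' ∉ K (pre β k) := by
  have h2 : ∀ᶠ s' in 𝓝 (en i : ℝ), ∀ j ∈ {j | j < β (i + 1)},
      rad (pre β (i + 1)) j < |s' - cen (pre β (i + 1)) j| := by
    rw [Filter.eventually_all_finite (Set.finite_lt_nat _)]
    intro j _
    have hc : Continuous fun s' : ℝ => |s' - cen (pre β (i + 1)) j| := by fun_prop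
    exact hc.continuousAt.eventually
      (lt_mem_nhds (rad_lt (pre β (i + 1)) j i (by rw [pre_length]; omega)))
  filter_upwards [h2] with s' hs' k hk hmem
  obtain ⟨_, j, hj, hb⟩ := K_pre_anti β hk hmem
  exact absurd hb (not_lt.2 (hs' j hj).le)

end Pool.Agent.H407Z.QK
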