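import Pool.Agent.H407Z.QK

set_option autoImplicit false

open Set Filter Topology

namespace Pool.Agent.H407Z.QK

abbrev Xi : Type := (ℕ → ℕ) × ℝ

structure Node where
  lv : ℕ
  sg : List ℕ
  a : Xi

inductive T where
  | node (u : Node) : T
  | pair (u v : Node) : T
  | top : T

def Out (u v : Node) (n : ℕ) : Prop :=
  (v.lv = u.lv ∧ ∃ m, n ≤ m ∧ v.sg = m :: u.sg) ∨ v.lv = u.lv + 1

def In (v u : Node) (n : ℕ) : Prop :=
  v.lv = u.lv ∨ (v.lv + 1 = u.lv ∧ u.sg = [] ∧ ∃ k, n ≤ k ∧ v.sg = pre u.a.1 k)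

def W : T → ℕ → Set T
  | T.node u, n => {τ | τ = T.node u ∨ (∃ v, τ = T.pair u v ∧ Out u v n) ∨
      (∃ v, τ = T.pair v u ∧ In v u n)}
  | T.pair u v, _ => {T.pair u v}
  | T.top, _ => ∅

theorem W_anti (u : Node) {n k : ℕ} (h : n ≤ k) : W (T.node u) k ⊆ W (T.node u) n := by
  rintro τ (h1 | ⟨v, h1, h2⟩ | ⟨v, h1, h2⟩)
  · exact Or.inl h1
  · refine Or.inr (Or.inl ⟨v, h1, ?_⟩)
    rcases h2 with ⟨h2, m, hm, h3⟩ | h2
    · exact Or.inl ⟨h2, m, h.trans hm, h3⟩
    · exact Or.inr h2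
  · refine Or.inr (Or.inr ⟨v, h1, ?_⟩)
    rcases h2 with h2 | ⟨h2, h3, m, hm, h4⟩
    · exact Or.inl h2
    · exact Or.inr ⟨h2, h3, m, h.trans hm, h4⟩

def lev : T → ℕ
  | T.node u => u.lv
  | T.pair u _ => u.lv
  | T.top => 0

def sgm : T → List ℕ
  | T.node u => u.sg
  | T.pair u v => if v.lv = u.lv then v.sg else u.sg
  | T.top => []

noncomputable def ofs : T → ℝ
  | T.node u => off u.sg
  | T.pair _ _ => 0
  | T.top => 0

open Classical in
noncomputable def lam (τ : T) (s : ℝ) : ℕ := lev τ + if s ∈ K (sgm τ) then 0 else 1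

theorem lev_le_lam (τ : T) (s : ℝ) : lev τ ≤ lam τ s := Nat.le_add_right _ _

theorem lam_le (τ : T) (s : ℝ) : lam τ s ≤ lev τ + 1 := by
  unfold lam; split_ifs <;> omega

theorem self_mem_W (τ : T) (h : τ ≠ T.top) (n : ℕ) : τ ∈ W τ n := by
  cases τ with
  | node u => exact Or.inl rfl
  | pair u v => exact rfl
  | top => exact absurd rfl h

theorem top_not_mem_W (τ : T) (n : ℕ) : T.top ∉ W τ n := by
  cases τ with
  | node u => rintro (h | ⟨v, h, _⟩ | ⟨v, h, _⟩) <;> cases h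
  | pair u v => intro h; cases h
  | top => exact fun h => h

theorem lev_le_of_mem_W (τ : T) (n : ℕ) (τ' : T) (h : τ' ∈ W τ n) : lev τ' ≤ lev τ := by
  cases τ with
  | node u =>
    rcases h with h | ⟨v, h, _⟩ | ⟨v, h, h2⟩
    · rw [h]
    · rw [h]; exact le_rfl
    · rw [h]
      rcases h2 with h2 | h2
      · exact h2.le
      · show v.lv ≤ u.lv
        omega
  | pair u v => rw [show τ' = T.pair u v from h]
  | top => exact h.elim

theorem lam_congr {τ τ' : T} {s s' : ℝ} (h1 : lev τ' = lev τ)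
    (h2 : s' ∈ K (sgm τ') ↔ s ∈ K (sgm τ)) : lam τ' s' = lam τ s := by
  unfold lam
  rw [h1]
  by_cases h : s ∈ K (sgm τ)
  · rw [if_pos h, if_pos (h2.2 h)]
  · rw [if_neg h, if_neg (fun h' => h (h2.1 h'))]

/-- The control property. -/
theorem control (τ : T) (r : ℚ) :
    ∃ n, ∀ᶠ s' in 𝓝 ((r : ℝ) + ofs τ), ∀ τ' ∈ W τ n, lam τ' s' = lam τ ((r : ℝ) + ofs τ) := by
  cases τ with
  | top => exact ⟨0, Eventually.of_forall fun _ _ h => h.elim⟩
  | pair u v =>
    refine ⟨0, ?_⟩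
    have hD : (r : ℝ) + ofs (T.pair u v) ∈ D := by
      simp only [ofs, add_zero]; exact rat_mem_D r
    filter_upwards [K_loc (sgm (T.pair u v)) _ hD] with s' hs' τ' hτ'
    rw [show τ' = T.pair u v from hτ']
    exact lam_congr rfl hs'
  | node u =>
    obtain ⟨j, rfl⟩ := en_surj r
    refine ⟨j + 2, ?_⟩
    have hD : (en j : ℝ) + ofs (T.node u) ∈ D := off_mem_D _ _
    have h1 := K_loc u.sg _ hD
    have h2 : ∀ᶠ s' in 𝓝 ((en j : ℝ) + ofs (T.node u)),
        ∀ m, j + 1 ≤ m → (s' ∈ K (m :: u.sg) ↔ s' ∈ K u.sg) := K_child u.sg j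
    have h3 : ∀ᶠ s' in 𝓝 ((en j : ℝ) + ofs (T.node u)),
        u.sg = [] → ∀ k, j + 2 ≤ k → s' ∉ K (pre u.a.1 k) := by
      by_cases h : u.sg = []
      · have : (en j : ℝ) + ofs (T.node u) = en j := by simp [ofs, h, off]
        rw [this]
        filter_upwards [K_branch u.a.1 j] with s' hs' _ using hs'
      · exact Eventually.of_forall fun _ h' => absurd h' h
    filter_upwards [h1, h2, h3] with s' h1 h2 h3 τ' hτ'
    rcases hτ' with h | ⟨v, h, ho⟩ | ⟨v, h, hi⟩
    · rw [h]; exact lam_congr rfl h1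
    · rw [h]
      refine lam_congr rfl ?_
      rcases ho with ⟨ha, m, hm, hb⟩ | ha
      · simp only [sgm, if_pos ha, hb]
        rw [h2 m (by omega)]; exact h1
      · simp only [sgm, if_neg (show ¬ v.lv = u.lv by omega)]
        exact h1
    · rw [h]
      rcases hi with ha | ⟨ha, hb, k, hk, hc⟩
      · refine lam_congr ha ?_
        simp only [sgm, if_pos ha.symm]
        exact h1
      · have e1 : s' ∉ K (sgm (T.pair v u)) := by
          simp only [sgm, if_neg (show ¬ u.lv = v.lv by omega), hc]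
          exact h3 hb k hk
        have e2 : (en j : ℝ) + ofs (T.node u) ∈ K (sgm (T.node u)) := by
          simp only [sgm, hb, K]; exact mem_univ _
        unfold lam
        rw [if_neg e1, if_pos e2]
        exact ha

/-- Distinct basic sets are almost disjoint. -/
theorem W_inter_finite (u : Node) (τ : T) (h : τ ≠ T.node u) (n : ℕ) :
    T.node u ∉ W τ n ∧ {τ' | τ' ∈ W (T.node u) 0 ∧ τ' ∈ W τ n}.Finite := by
  cases τ with
  | top => exact ⟨fun h => h, finite_empty.subset fun _ h => h.2⟩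
  | pair v w =>
    exact ⟨fun h => (by cases h), (finite_singleton (T.pair v w)).subset fun _ h => h.2⟩
  | node v =>
    have hne : v ≠ u := fun h' => h (by rw [h'])
    refine ⟨?_, ?_⟩
    · rintro (h | ⟨w, h, _⟩ | ⟨w, h, _⟩)
      · cases h; exact hne rfl
      · cases h
      · cases h
    · refine (((finite_singleton (T.pair u v)).insert (T.pair v u))).subset ?_
      rintro τ' ⟨h1 | ⟨w, h1, _⟩ | ⟨w, h1, _⟩, h2 | ⟨w', h2, _⟩ | ⟨w', h2, _⟩⟩ <;>
        rw [h1] at h2 <;> cases h2 <;> first | exact absurd rfl hne | simp [h1]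

section Comb

variable (g : T → ℝ)
  (hup : ∀ u c, c < g (T.node u) → ∃ n, {τ | τ ∈ W (T.node u) n ∧ g τ ≤ c}.Finite)
  (hdown : ∀ u c, g (T.node u) < c → ∃ n, {τ | τ ∈ W (T.node u) n ∧ c ≤ g τ}.Finite)

def Good (c : ℝ) (N : ℕ) (σ : List ℕ) : Prop :=
  ¬ {a : Xi | c ≤ g (T.node ⟨N, σ, a⟩)}.Countable

theorem not_countable_fiber (β : ℕ → ℕ) : ¬ {a : Xi | a.1 = β}.Countable := by
  intro h
  have h2 : (Prod.snd '' {a : Xi | a.1 = β}).Countable := h.image _
  have h3 : Prod.snd '' {a : Xi | a.1 = β} = univ := by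
    ext x
    simp only [mem_univ, iff_true]
    exact ⟨(β, x), rfl, rfl⟩
  rw [h3] at h2
  exact Cardinal.not_countable_real h2

include hup hdown in
theorem stepM (c c' : ℝ) (hc : c < c') (N : ℕ) (σ : List ℕ) (h : Good g c' N σ) :
    ∃ m, Good g c N (m :: σ) := by
  -- pigeonhole
  have h1 : ∃ m, {a : Xi | {τ | τ ∈ W (T.node ⟨N, σ, a⟩) m ∧ g τ ≤ c}.Finite}.Infinite := by
    by_contra hcon
    push Not at hcon
    apply h
    refine (countable_iUnion fun m => (hcon m).countable).mono ?_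
    intro a ha
    obtain ⟨n, hn⟩ := hup ⟨N, σ, a⟩ c (lt_of_lt_of_le hc ha)
    exact mem_iUnion.2 ⟨n, hn⟩
  obtain ⟨m, hm⟩ := h1
  refine ⟨m, ?_⟩
  let α : ℕ ↪ Xi := (hm.natEmbedding _).trans (Function.Embedding.subtype _)
  have hα : ∀ i, {τ | τ ∈ W (T.node ⟨N, σ, α i⟩) m ∧ g τ ≤ c}.Finite :=
    fun i => (hm.natEmbedding _ i).2
  have hE : ∀ i, {b : Xi | g (T.pair ⟨N, σ, α i⟩ ⟨N, m :: σ, b⟩) ≤ c}.Finite := by
    intro i
    refine Set.Finite.of_finite_image (f := fun b => T.pair ⟨N, σ, α i⟩ ⟨N, m :: σ, b⟩)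
      ((hα i).subset ?_) ?_
    · rintro _ ⟨b, hb, rfl⟩
      exact ⟨Or.inr (Or.inl ⟨_, rfl, Or.inl ⟨rfl, m, le_rfl, rfl⟩⟩), hb⟩
    · intro b _ b' _ hbb
      cases hbb; rfl
  intro hcount
  apply not_countable_fiber (fun _ => 0)
  refine (hcount.union (countable_iUnion fun i => (hE i).countable)).mono ?_
  intro b _
  by_contra hb
  simp only [mem_union, mem_ofPred_eq, mem_iUnion, not_or, not_exists, not_le] at hb
  obtain ⟨n, hn⟩ := hdown _ c hb.1
  refine Set.infinite_of_injective_forall_mem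
    (f := fun i => T.pair ⟨N, σ, α i⟩ ⟨N, m :: σ, b⟩) ?_ ?_ hn
  · intro i i' hii
    simp only [T.pair.injEq, Node.mk.injEq, true_and, and_true] at hii
    exact α.injective hii
  · intro i
    exact ⟨Or.inr (Or.inr ⟨_, rfl, Or.inl rfl⟩), (hb.2 i).le⟩

include hup hdown in
theorem stepF (c : ℝ) (N : ℕ) (β : ℕ → ℕ)
    (h : ∀ k, ∃ b, c < g (T.node ⟨N, pre β k, b⟩)) : Good g c (N + 1) [] := by
  choose b hb using h
  have hE : ∀ k, {a : Xi | g (T.pair ⟨N, pre β k, b k⟩ ⟨N + 1, [], a⟩) ≤ c}.Finite := by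
    intro k
    obtain ⟨n, hn⟩ := hup _ c (hb k)
    refine Set.Finite.of_finite_image (f := fun a => T.pair ⟨N, pre β k, b k⟩ ⟨N + 1, [], a⟩)
      (hn.subset ?_) ?_
    · rintro _ ⟨a, ha, rfl⟩
      exact ⟨Or.inr (Or.inl ⟨_, rfl, Or.inr rfl⟩), ha⟩
    · intro b _ b' _ hbb
      cases hbb; rfl
  intro hcount
  apply not_countable_fiber β
  refine (hcount.union (countable_iUnion fun i => (hE i).countable)).mono ?_
  intro a ha0
  by_contra ha
  simp only [mem_union, mem_ofPred_eq, mem_iUnion, not_or, not_exists, not_le] at ha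
  obtain ⟨n, hn⟩ := hdown _ c ha.1
  refine Set.infinite_of_injective_forall_mem
    (f := fun i => T.pair ⟨N, pre β (n + i), b (n + i)⟩ ⟨N + 1, [], a⟩) ?_ ?_ hn
  · intro i i' hii
    simp only [T.pair.injEq, Node.mk.injEq, true_and, and_true] at hii
    have := congrArg List.length hii.1
    rw [pre_length, pre_length] at this
    omega
  · intro i
    refine ⟨Or.inr (Or.inr ⟨_, rfl, Or.inr ⟨rfl, rfl, n + i, by omega, ?_⟩⟩), (ha.2 _).le⟩
    have : a.1 = β := ha0
    rw [this]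

include hup hdown in
theorem stepLevel (c c' : ℝ) (hc : c < c') (N : ℕ) (h : Good g c' N []) :
    Good g c (N + 1) [] := by
  let t : ℕ → ℝ := fun k => c + (c' - c) / ((k : ℝ) + 1)
  have ht0 : t 0 = c' := by simp [t]
  have ht1 : ∀ k, t (k + 1) < t k := by
    intro k
    simp only [t]
    have : (c' - c) / (((k + 1 : ℕ) : ℝ) + 1) < (c' - c) / ((k : ℝ) + 1) := by
      apply div_lt_div_of_pos_left (by linarith) (by positivity)
      push_cast; linarith
    linarith
  have ht2 : ∀ k, c < t k := by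
    intro k
    have : 0 < (c' - c) / ((k : ℝ) + 1) := div_pos (by linarith) (by positivity)
    simp only [t]; linarith
  have hM : ∀ k σ, ∃ m, Good g (t k) N σ → Good g (t (k + 1)) N (m :: σ) := by
    intro k σ
    by_cases hg : Good g (t k) N σ
    · obtain ⟨m, hm⟩ := stepM g hup hdown _ _ (ht1 k) N σ hg
      exact ⟨m, fun _ => hm⟩
    · exact ⟨0, fun h => absurd h hg⟩
  choose M hM using hM
  let σ : ℕ → List ℕ := fun k => Nat.rec [] (fun k l => M k l :: l) k
  let β : ℕ → ℕ := fun k => M k (σ k)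
  have hpre : ∀ k, pre β k = σ k := by
    intro k
    induction k with
    | zero => rfl
    | succ k ih => show β k :: pre β k = M k (σ k) :: σ k; rw [ih]
  have hgood : ∀ k, Good g (t k) N (σ k) := by
    intro k
    induction k with
    | zero => rw [ht0]; exact h
    | succ k ih => exact hM k (σ k) ih
  refine stepF g hup hdown c N β fun k => ?_
  rw [hpre]
  by_contra hcon
  push Not at hcon
  apply hgood k
  refine countable_empty.mono ?_
  intro a ha
  exact absurd (lt_of_lt_of_le (ht2 k) ha) (not_lt.2 (hcon a))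

include hup hdown in
theorem allLevels (h0 : ∀ a, g (T.node ⟨0, [], a⟩) = 1) (N : ℕ) :
    ∀ c < 1, Good g c N [] := by
  induction N with
  | zero =>
    intro c hc hcount
    apply not_countable_fiber (fun _ => 0)
    refine hcount.mono fun a _ => ?_
    show c ≤ _
    rw [h0]; exact hc.le
  | succ N ih =>
    intro c hc
    exact stepLevel g hup hdown c ((c + 1) / 2) (by linarith) N (ih _ (by linarith))

include hup hdown in
theorem exists_high (h0 : ∀ a, g (T.node ⟨0, [], a⟩) = 1) (N : ℕ) :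
    ∃ τ, lev τ = N ∧ τ ≠ T.top ∧ 1 / 2 ≤ g τ := by
  by_contra hcon
  push Not at hcon
  apply allLevels g hup hdown h0 N (1 / 2) (by norm_num)
  refine countable_empty.mono ?_
  intro a ha
  exact absurd ha (not_le.2 (hcon _ rfl (fun h => by cases h)))

end Comb

end Pool.Agent.H407Z.QK
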