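import Pool.Agent.H407Z.QT

set_option autoImplicit false

open Set Filter Topology

namespace Pool.Agent.H407Z.QK

@[ext] structure X where
  t : T
  r : ℚ

instance : AddAction ℚ X where
  vadd q x := ⟨x.t, q + x.r⟩
  zero_vadd x := by
    show (⟨x.t, 0 + x.r⟩ : X) = x
    rw [zero_add]
  add_vadd p q x := by
    show (⟨x.t, p + q + x.r⟩ : X) = ⟨x.t, p + (q + x.r)⟩
    rw [add_assoc]

theorem vadd_t (q : ℚ) (x : X) : (q +ᵥ x).t = x.t := rfl
theorem vadd_r (q : ℚ) (x : X) : (q +ᵥ x).r = q + x.r := rfl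

noncomputable def pos (x : X) : ℝ := (x.r : ℝ) + ofs x.t

theorem pos_vadd (q : ℚ) (x : X) : pos (q +ᵥ x) = q + pos x := by
  simp only [pos, vadd_t, vadd_r]; push_cast; ring

open Classical in
noncomputable def FF (τ : T) (s : ℝ) : ℝ := if τ = T.top then 0 else 1 / ((lam τ s : ℝ) + 1)

open Classical in
noncomputable def ind (p : T × ℕ) (τ : T) : ℝ := if τ ∈ W p.1 p.2 then 1 else 0

noncomputable def emb (x : X) : ℝ × ℝ × (T × ℕ → ℝ) :=
  (pos x, FF x.t (pos x), fun p => ind p x.t)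

noncomputable instance : TopologicalSpace X := TopologicalSpace.induced emb inferInstance

theorem emb_inj : Function.Injective emb := by
  have key : ∀ x y : X, emb x = emb y → x.t ≠ T.top → y.t ∈ W x.t 0 := by
    intro x y h hx
    have h1 : ind (x.t, 0) x.t = ind (x.t, 0) y.t := congrFun (congrArg (fun z => z.2.2) h) _
    by_contra hy
    simp only [ind, if_pos (self_mem_W x.t hx 0), if_neg hy] at h1
    exact one_ne_zero h1
  have key2 : ∀ x y : X, emb x = emb y → x.t ≠ T.top → x.t = y.t := by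
    intro x y h hx
    have h1 := key x y h hx
    have hy : y.t ≠ T.top := fun h' => top_not_mem_W _ _ (h' ▸ h1)
    have h2 := key y x h.symm hy
    rcases hx' : x.t with u | ⟨u, v⟩ | _
    · by_contra hne
      rw [hx'] at h2
      exact (W_inter_finite u y.t (fun h' => hne h'.symm) 0).1 h2
    · rw [hx'] at h1
      exact (show y.t = T.pair u v from h1).symm
    · exact absurd hx' hx
  intro x y h
  have ht : x.t = y.t := by
    by_cases hx : x.t = T.top
    · by_cases hy : y.t = T.top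
      · rw [hx, hy]
      · exact (key2 y x h.symm hy).symm
    · exact key2 x y h hx
  have hp : pos x = pos y := congrArg (fun z => z.1) h
  simp only [pos, ht, add_left_inj] at hp
  exact X.ext ht (by exact_mod_cast hp)

theorem emb_isEmbedding : IsEmbedding emb := ⟨⟨rfl⟩, emb_inj⟩

instance : T35Space X := emb_isEmbedding.t35Space

theorem cont_emb : Continuous emb := emb_isEmbedding.continuous

theorem cont_pos : Continuous pos := continuous_fst.comp cont_emb

theorem cont_F : Continuous fun x : X => FF x.t (pos x) :=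
  continuous_fst.comp (continuous_snd.comp cont_emb)

theorem cont_ind (p : T × ℕ) : Continuous fun x : X => ind p x.t :=
  (continuous_apply p).comp (continuous_snd.comp (continuous_snd.comp cont_emb))

theorem ev_mem_W (x : X) (hx : x.t ≠ T.top) (n : ℕ) : ∀ᶠ y in 𝓝 x, y.t ∈ W x.t n := by
  have h0 : 0 < ind (x.t, n) x.t := by
    simp only [ind, if_pos (self_mem_W x.t hx n)]; exact one_pos
  filter_upwards [(cont_ind (x.t, n)).continuousAt.eventually (lt_mem_nhds h0)] with y hy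
  by_contra h
  simp only [ind, if_neg h] at hy
  exact lt_irrefl _ hy

theorem FF_nonneg (τ : T) (s : ℝ) : 0 ≤ FF τ s := by
  unfold FF; split_ifs
  · exact le_rfl
  · positivity

theorem FF_le (τ : T) (s : ℝ) (N : ℕ) (h : N ≤ lev τ) : FF τ s ≤ 1 / ((N : ℝ) + 1) := by
  unfold FF; split_ifs
  · positivity
  · apply one_div_le_one_div_of_le (by positivity)
    have : (N : ℝ) ≤ lam τ s := by exact_mod_cast h.trans (lev_le_lam τ s)
    linarith

theorem lev_of_FF (τ : T) (s : ℝ) (N : ℕ) (h : FF τ s < 1 / ((N : ℝ) + 2)) :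
    τ = T.top ∨ N ≤ lev τ := by
  by_contra hcon
  push Not at hcon
  unfold FF at h
  rw [if_neg hcon.1] at h
  have h1 : lam τ s ≤ N := by have := lam_le τ s; omega
  have h2 : (lam τ s : ℝ) ≤ N := by exact_mod_cast h1
  have := one_div_le_one_div_of_le (a := (lam τ s : ℝ) + 1) (b := (N : ℝ) + 2) (by positivity)
    (by linarith)
  linarith

theorem tendsto_FF_zero {ι : Type} {l : Filter ι} (a : ι → T) (b : ι → ℝ)
    (h : ∀ N, ∀ᶠ i in l, a i = T.top ∨ N ≤ lev (a i)) :
    Tendsto (fun i => FF (a i) (b i)) l (𝓝 0) := by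
  rw [Metric.tendsto_nhds]
  intro ε hε
  obtain ⟨N, hN⟩ := exists_nat_one_div_lt hε
  filter_upwards [h N] with i hi
  rw [Real.dist_eq, sub_zero, abs_of_nonneg (FF_nonneg _ _)]
  rcases hi with hi | hi
  · simp only [FF, if_pos hi]; exact hε
  · exact lt_of_le_of_lt (FF_le _ _ N hi) hN

theorem tendsto_FF {ι : Type} {l : Filter ι} (a : ι → T) (b : ι → ℝ) (x : X) (hx : x.t ≠ T.top)
    (h : ∀ n, ∀ᶠ i in l, a i ∈ W x.t n) (hb : Tendsto b l (𝓝 (pos x))) :
    Tendsto (fun i => FF (a i) (b i)) l (𝓝 (FF x.t (pos x))) := by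
  obtain ⟨n, hn⟩ := control x.t x.r
  refine tendsto_const_nhds.congr' ?_
  filter_upwards [h n, hb.eventually hn] with i h1 h2
  have h3 : a i ≠ T.top := fun h' => top_not_mem_W _ _ (h' ▸ h1)
  simp only [FF, if_neg hx, if_neg h3]
  rw [h2 _ h1]
  rfl

instance : ContinuousVAdd ℚ X where
  continuous_vadd := by
    have hpos : Continuous fun p : ℚ × X => pos (p.1 +ᵥ p.2) := by
      simp only [pos_vadd]
      exact (Rat.continuous_coe_real.comp continuous_fst).add (cont_pos.comp continuous_snd)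
    rw [emb_isEmbedding.continuous_iff]
    refine hpos.prodMk (Continuous.prodMk ?_ ?_)
    · rw [continuous_iff_continuousAt]
      rintro ⟨q, x⟩
      by_cases hx : x.t = T.top
      · have h0 : FF (q +ᵥ x).t (pos (q +ᵥ x)) = 0 := by simp only [FF, vadd_t, if_pos hx]
        show Tendsto (fun p : ℚ × X => FF (p.1 +ᵥ p.2).t (pos (p.1 +ᵥ p.2))) (𝓝 (q, x))
          (𝓝 (FF (q +ᵥ x).t (pos (q +ᵥ x))))
        rw [h0]
        refine tendsto_FF_zero _ _ fun N => ?_
        have h1 : FF x.t (pos x) < 1 / ((N : ℝ) + 2) := by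
          simp only [FF, if_pos hx]; positivity
        have h2 := cont_F.continuousAt.eventually (gt_mem_nhds h1)
        have h3 : Tendsto (Prod.snd : ℚ × X → X) (𝓝 (q, x)) (𝓝 x) :=
          continuous_snd.continuousAt
        filter_upwards [h3.eventually h2] with p hp
        exact lev_of_FF _ _ N hp
      · refine tendsto_FF _ _ (q +ᵥ x) hx (fun n => ?_) hpos.continuousAt
        have h3 : Tendsto (Prod.snd : ℚ × X → X) (𝓝 (q, x)) (𝓝 x) :=
          continuous_snd.continuousAt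
        exact h3.eventually (ev_mem_W x hx n)
    · refine continuous_pi fun p => ?_
      have := (cont_ind p).comp (continuous_snd : Continuous (Prod.snd : ℚ × X → X))
      exact this

/-- A convergence criterion in `X`. -/
theorem tendsto_X {ι : Type} {l : Filter ι} (y : ι → X) (x : X)
    (h1 : Tendsto (fun i => pos (y i)) l (𝓝 (pos x)))
    (h2 : Tendsto (fun i => FF (y i).t (pos (y i))) l (𝓝 (FF x.t (pos x))))
    (h3 : ∀ τ n, ∀ᶠ i in l, ((y i).t ∈ W τ n ↔ x.t ∈ W τ n)) : Tendsto y l (𝓝 x) := by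
  rw [emb_isEmbedding.tendsto_nhds_iff]
  refine h1.prodMk_nhds (h2.prodMk_nhds ?_)
  rw [tendsto_pi_nhds]
  rintro ⟨τ, n⟩
  refine tendsto_const_nhds.congr' ?_
  filter_upwards [h3 τ n] with i hi
  by_cases h : x.t ∈ W τ n
  · simp only [ind, if_pos h, if_pos (hi.2 h)]
  · simp only [ind, if_neg h, if_neg (fun h' => h (hi.1 h'))]

/-- The punctured neighbourhood filter of a node. -/
def BN (u : Node) : Filter T := ⨅ n, cofinite ⊓ 𝓟 (W (T.node u) n)

theorem ev_BN (u : Node) (P : T → Prop) :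
    (∀ᶠ τ in BN u, P τ) ↔ ∃ n, {τ | τ ∈ W (T.node u) n ∧ ¬ P τ}.Finite := by
  unfold BN
  rw [eventually_iff, mem_iInf_of_directed]
  · refine exists_congr fun n => ?_
    rw [mem_inf_principal, mem_cofinite]
    refine iff_of_eq (congrArg Set.Finite ?_)
    ext τ
    simp
  · exact directed_of_isDirected_le fun n k h =>
      inf_le_inf_left _ (principal_mono.2 (W_anti u h))

theorem nhds_node (u : Node) (r : ℚ) :
    Tendsto (fun y : X => y) (comap X.t (BN u) ⊓ comap pos (𝓝 (pos ⟨T.node u, r⟩)))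
      (𝓝 ⟨T.node u, r⟩) := by
  have hp : Tendsto pos (comap X.t (BN u) ⊓ comap pos (𝓝 (pos ⟨T.node u, r⟩)))
      (𝓝 (pos ⟨T.node u, r⟩)) := tendsto_comap.mono_left inf_le_right
  have ht : Tendsto X.t (comap X.t (BN u) ⊓ comap pos (𝓝 (pos ⟨T.node u, r⟩))) (BN u) :=
    tendsto_comap.mono_left inf_le_left
  have hW : ∀ n, ∀ᶠ τ in BN u, τ ∈ W (T.node u) n := fun n =>
    (ev_BN u _).2 ⟨n, finite_empty.subset fun _ h => h.2 h.1⟩
  refine tendsto_X _ _ hp ?_ ?_
  · exact tendsto_FF _ _ ⟨T.node u, r⟩ (fun h => by cases h) (fun n => ht.eventually (hW n)) hp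
  · intro τ n
    by_cases h : τ = T.node u
    · subst h
      filter_upwards [ht.eventually (hW n)] with y hy
      exact ⟨fun _ => Or.inl rfl, fun _ => hy⟩
    · obtain ⟨h1, h2⟩ := W_inter_finite u τ h n
      have : ∀ᶠ τ' in BN u, τ' ∉ W τ n :=
        (ev_BN u _).2 ⟨0, h2.subset fun _ h => ⟨h.1, not_not.1 h.2⟩⟩
      filter_upwards [ht.eventually this] with y hy
      exact ⟨fun h => absurd h hy, fun h => absurd h h1⟩

theorem nhds_top (r : ℚ) :
    Tendsto (fun y : X => y) (comap X.t (comap lev atTop) ⊓ comap pos (𝓝 (pos ⟨T.top, r⟩)))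
      (𝓝 ⟨T.top, r⟩) := by
  have hp : Tendsto pos (comap X.t (comap lev atTop) ⊓ comap pos (𝓝 (pos ⟨T.top, r⟩)))
      (𝓝 (pos ⟨T.top, r⟩)) := tendsto_comap.mono_left inf_le_right
  have ht : Tendsto X.t (comap X.t (comap lev atTop) ⊓ comap pos (𝓝 (pos ⟨T.top, r⟩)))
      (comap lev atTop) := tendsto_comap.mono_left inf_le_left
  have hW : ∀ N, ∀ᶠ τ in comap lev atTop, N ≤ lev τ := fun N =>
    tendsto_comap.eventually (eventually_ge_atTop N)
  refine tendsto_X _ _ hp ?_ ?_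
  · have h0 : FF (⟨T.top, r⟩ : X).t (pos ⟨T.top, r⟩) = 0 := by simp only [FF, if_true]
    rw [h0]
    refine tendsto_FF_zero _ _ fun N => ?_
    filter_upwards [ht.eventually (hW N)] with y hy using Or.inr hy
  · intro τ n
    filter_upwards [ht.eventually (hW (lev τ + 1))] with y hy
    refine ⟨fun h => ?_, fun h => absurd h (top_not_mem_W _ _)⟩
    have := lev_le_of_mem_W _ _ _ h
    omega

theorem exists_pos_near (τ : T) (s δ : ℝ) (hδ : 0 < δ) : ∃ r : ℚ, |pos ⟨τ, r⟩ - s| < δ := by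
  obtain ⟨r, h1, h2⟩ := exists_rat_btwn (show s - ofs τ - δ < s - ofs τ + δ by linarith)
  refine ⟨r, ?_⟩
  simp only [pos]
  rw [abs_lt]; constructor <;> linarith

section Trace

variable (f : X → ℝ)
  (hu : ∀ ε > 0, ∃ δ > 0, ∀ x y : X, x.t = y.t → |pos x - pos y| < δ → |f x - f y| < ε)

include hu in
theorem exists_trace : ∃ g : T → ℝ, ∀ ε > 0, ∃ δ > 0, ∀ x : X, |pos x| < δ →
    |f x - g x.t| ≤ ε := by
  have h1 : ∀ τ : T, ∀ k : ℕ, ∃ r : ℚ, |pos ⟨τ, r⟩| < 1 / ((k : ℝ) + 1) := by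
    intro τ k
    simpa using exists_pos_near τ 0 (1 / ((k : ℝ) + 1)) (by positivity)
  choose q hq using h1
  have hsmall : ∀ τ, ∀ δ > 0, ∀ᶠ k in atTop, |pos ⟨τ, q τ k⟩| < δ := by
    intro τ δ hδ
    filter_upwards [(tendsto_one_div_add_atTop_nhds_zero_nat (𝕜 := ℝ)).eventually
      (gt_mem_nhds hδ)] with k hk
    exact (hq τ k).trans hk
  have h2 : ∀ τ, ∃ c, Tendsto (fun k => f ⟨τ, q τ k⟩) atTop (𝓝 c) := by
    intro τ
    apply cauchySeq_tendsto_of_complete
    rw [Metric.cauchySeq_iff]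
    intro ε hε
    obtain ⟨δ, hδ, h⟩ := hu ε hε
    obtain ⟨N, hN⟩ := eventually_atTop.1 (hsmall τ (δ / 2) (by positivity))
    refine ⟨N, fun m hm n hn => ?_⟩
    rw [Real.dist_eq]
    refine h _ _ rfl ?_
    have a1 := abs_lt.1 (hN m hm)
    have a2 := abs_lt.1 (hN n hn)
    rw [abs_lt]; constructor <;> linarith
  choose g hg using h2
  refine ⟨g, fun ε hε => ?_⟩
  obtain ⟨δ, hδ, h⟩ := hu ε hε
  refine ⟨δ / 2, by positivity, fun x hx => ?_⟩
  have h3 : Tendsto (fun k => |f x - f ⟨x.t, q x.t k⟩|) atTop (𝓝 |f x - g x.t|) :=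
    (tendsto_const_nhds.sub (hg x.t)).abs
  refine le_of_tendsto h3 ?_
  filter_upwards [hsmall x.t (δ / 2) (by positivity)] with k hk
  refine (h x ⟨x.t, q x.t k⟩ rfl ?_).le
  have a1 := abs_lt.1 hx
  have a2 := abs_lt.1 hk
  rw [abs_lt]; constructor <;> linarith

theorem trace_tendsto (hf : Continuous f) (g : T → ℝ)
    (hg : ∀ ε > 0, ∃ δ > 0, ∀ x : X, |pos x| < δ → |f x - g x.t| ≤ ε)
    (τ : T) (B : Filter T)
    (hB : ∀ r : ℚ, Tendsto (fun y : X => y) (comap X.t B ⊓ comap pos (𝓝 (pos ⟨τ, r⟩)))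
      (𝓝 ⟨τ, r⟩)) : Tendsto g B (𝓝 (g τ)) := by
  rw [Metric.tendsto_nhds]
  intro ε hε
  obtain ⟨δ, hδ, h⟩ := hg (ε / 4) (by positivity)
  obtain ⟨r, hr⟩ := exists_pos_near τ 0 (δ / 2) (by positivity)
  rw [sub_zero] at hr
  have h1 := (Metric.tendsto_nhds.1 (hf.continuousAt.tendsto.comp (hB r))) (ε / 4) (by positivity)
  rw [eventually_iff, mem_inf_iff] at h1
  obtain ⟨S1, hS1, S2, hS2, hS⟩ := h1
  obtain ⟨B1, hB1, hB1'⟩ := mem_comap.1 hS1
  obtain ⟨V, hV, hV'⟩ := mem_comap.1 hS2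
  obtain ⟨ρ, hρ, hρ'⟩ := Metric.mem_nhds_iff.1 hV
  filter_upwards [hB1] with τ' hτ'
  obtain ⟨r', hr'⟩ := exists_pos_near τ' (pos ⟨τ, r⟩) (min ρ (δ / 2)) (by positivity)
  have hy : (⟨τ', r'⟩ : X) ∈ S1 ∩ S2 :=
    ⟨hB1' hτ', hV' (hρ' (by rw [Metric.mem_ball, Real.dist_eq]; exact hr'.trans_le (min_le_left _ _)))⟩
  rw [← hS] at hy
  have a0 : |f ⟨τ', r'⟩ - f ⟨τ, r⟩| < ε / 4 := hy
  have a1 := abs_lt.1 (hr'.trans_le (min_le_right _ _))
  have a2 := abs_lt.1 hr
  have a3 := abs_le.1 (h ⟨τ', r'⟩ (by rw [abs_lt]; constructor <;> linarith))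
  have a4 := abs_le.1 (h ⟨τ, r⟩ (by rw [abs_lt]; constructor <;> linarith))
  have a5 := abs_lt.1 a0
  rw [Real.dist_eq, abs_lt]
  constructor <;> linarith

include hu in
/-- Every continuous function with a uniform modulus along the orbits that equals one on the
root lines of level zero is at least one half at the top point. -/
theorem top_large (hf : Continuous f) (h1 : ∀ a r, f ⟨T.node ⟨0, [], a⟩, r⟩ = 1) :
    1 / 2 ≤ f ⟨T.top, 0⟩ := by
  obtain ⟨g, hg⟩ := exists_trace f hu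
  have hzero : ∀ τ, ofs τ = 0 → f ⟨τ, 0⟩ = g τ := by
    intro τ hτ
    refine eq_of_abs_sub_le_all fun ε hε => ?_
    obtain ⟨δ, hδ, h⟩ := hg ε hε
    exact h ⟨τ, 0⟩ (by simpa [pos, hτ] using hδ)
  have hnode : ∀ u, Tendsto g (BN u) (𝓝 (g (T.node u))) := fun u =>
    trace_tendsto f hf g hg _ _ (nhds_node u)
  have htop : Tendsto g (comap lev atTop) (𝓝 (g T.top)) :=
    trace_tendsto f hf g hg _ _ nhds_top
  have hex := exists_high g
    (fun u c hc => by
      simpa using (ev_BN u _).1 ((hnode u).eventually (lt_mem_nhds hc)))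
    (fun u c hc => by
      simpa using (ev_BN u _).1 ((hnode u).eventually (gt_mem_nhds hc)))
    (fun a => by rw [← hzero _ rfl, h1])
  rw [hzero _ rfl]
  by_contra hcon
  have h2 := htop.eventually (gt_mem_nhds (not_le.1 hcon))
  rw [eventually_comap, eventually_atTop] at h2
  obtain ⟨N, hN⟩ := h2
  obtain ⟨τ, ha, _, hb⟩ := hex N
  exact absurd (hN N le_rfl τ ha) (not_lt.2 hb)

end Trace

theorem not_embeds : ¬ ∃ (Y : Type) (_ : TopologicalSpace Y) (_ : AddAction ℚ Y),
    ContinuousVAdd ℚ Y ∧ CompactSpace Y ∧ T2Space Y ∧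
    ∃ f : X → Y, Topology.IsEmbedding f ∧ ∀ (q : ℚ) (x : X), f (q +ᵥ x) = q +ᵥ f x := by
  rintro ⟨Y, _, _, _, _, _, ν, hν, heq⟩
  have hopen : IsOpen {x : X | FF x.t (pos x) < 1} := isOpen_lt cont_F continuous_const
  obtain ⟨V, hV, hVe⟩ := hν.isInducing.isOpen_iff.1 hopen
  have htop : ν ⟨T.top, 0⟩ ∈ V := by
    have : (⟨T.top, 0⟩ : X) ∈ ν ⁻¹' V := by
      rw [hVe]; simp [FF]
    exact this
  obtain ⟨h, h0, h1, -⟩ := exists_continuous_zero_one_of_isClosed
    (isClosed_singleton (x := ν ⟨T.top, 0⟩)) hV.isClosed_compl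
    (disjoint_singleton_left.2 (not_not.2 htop))
  have hmod : ∀ ε > 0, ∀ᶠ q in 𝓝 (0 : ℚ), ∀ y ∈ (univ : Set Y), |h (q +ᵥ y) - h y| < ε := by
    intro ε hε
    refine isCompact_univ.eventually_forall_of_forall_eventually fun y _ => ?_
    have hc : Continuous fun z : ℚ × Y => |h (z.1 +ᵥ z.2) - h z.2| := by fun_prop
    refine hc.continuousAt.eventually (gt_mem_nhds ?_)
    simpa using hε
  have := top_large (fun x => h (ν x)) ?_ (h.continuous.comp hν.continuous) ?_
  · have h2 : h (ν ⟨T.top, 0⟩) = 0 := h0 rfl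
    simp only [h2] at this
    norm_num at this
  · intro ε hε
    obtain ⟨δ, hδ, hδ'⟩ := Metric.eventually_nhds_iff.1 (hmod ε hε)
    refine ⟨δ, hδ, fun x y hxy hd => ?_⟩
    have hx : x = (x.r - y.r) +ᵥ y := X.ext hxy (by rw [vadd_r]; ring)
    have hd' : dist (x.r - y.r) 0 < δ := by
      rw [← Rat.dist_cast, Real.dist_eq]
      simp only [pos, hxy] at hd
      push_cast
      convert hd using 2
      ring
    have := hδ' hd' (ν y) (mem_univ _)
    rw [← heq, ← hx] at this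
    exact this
  · intro a r
    apply h1
    intro hmem
    have : (⟨T.node ⟨0, [], a⟩, r⟩ : X) ∈ ν ⁻¹' V := hmem
    rw [hVe] at this
    simp [FF, lam, lev, sgm, K] at this

end Pool.Agent.H407Z.QK
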