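import Mathlib

set_option autoImplicit false

/-! Homotopy monomorphisms and their effect on LS category and sequential TC. -/

namespace Pool.Agent.H407Z.TC
open Set Topology

section
variable {A A' Y Z : Type} [TopologicalSpace A] [TopologicalSpace A'] [TopologicalSpace Y]
  [TopologicalSpace Z]

/-- free homotopy of unbundled maps -/
def Hty (f g : A → Y) : Prop :=
  ∃ H : unitInterval × A → Y, Continuous H ∧ (∀ a, H (0, a) = f a) ∧ ∀ a, H (1, a) = g a

lemma Hty.cont_left {f g : A → Y} (h : Hty f g) : Continuous f := by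
  obtain ⟨H, hH, h0, -⟩ := h
  have : f = fun a => H (0, a) := funext fun a => (h0 a).symm
  rw [this]; fun_prop

lemma Hty.cont_right {f g : A → Y} (h : Hty f g) : Continuous g := by
  obtain ⟨H, hH, -, h1⟩ := h
  have : g = fun a => H (1, a) := funext fun a => (h1 a).symm
  rw [this]; fun_prop

lemma Hty.refl {f : A → Y} (hf : Continuous f) : Hty f f :=
  ⟨fun z => f z.2, by fun_prop, fun _ => rfl, fun _ => rfl⟩

lemma Hty.symm {f g : A → Y} (h : Hty f g) : Hty g f := by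
  obtain ⟨H, hH, h0, h1⟩ := h
  refine ⟨fun z => H (unitInterval.symm z.1, z.2), ?_, ?_, ?_⟩
  · exact hH.comp ((unitInterval.continuous_symm.comp continuous_fst).prodMk continuous_snd)
  · intro a; simp [h1]
  · intro a; simp [h0]

lemma Hty.trans {f g k : A → Y} (h : Hty f g) (h' : Hty g k) : Hty f k := by
  have hf := h.cont_left
  have hg := h.cont_right
  have hk := h'.cont_right
  obtain ⟨H, hH, h0, h1⟩ := h
  obtain ⟨K, hK, k0, k1⟩ := h'
  let F : ContinuousMap.Homotopy (⟨f, hf⟩ : C(A, Y)) ⟨g, hg⟩ := ⟨⟨H, hH⟩, h0, h1⟩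
  let G : ContinuousMap.Homotopy (⟨g, hg⟩ : C(A, Y)) ⟨k, hk⟩ := ⟨⟨K, hK⟩, k0, k1⟩
  exact ⟨F.trans G, (F.trans G).continuous, fun a => (F.trans G).apply_zero a,
    fun a => (F.trans G).apply_one a⟩

lemma Hty.post {f g : A → Y} (h : Hty f g) {s : Y → Z} (hs : Continuous s) :
    Hty (s ∘ f) (s ∘ g) := by
  obtain ⟨H, hH, h0, h1⟩ := h
  exact ⟨s ∘ H, hs.comp hH, fun a => by simp [h0], fun a => by simp [h1]⟩

lemma Hty.pre {f g : A → Y} (h : Hty f g) {s : A' → A} (hs : Continuous s) :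
    Hty (f ∘ s) (g ∘ s) := by
  obtain ⟨H, hH, h0, h1⟩ := h
  exact ⟨fun z => H (z.1, s z.2), by fun_prop, fun a => by simp [h0], fun a => by simp [h1]⟩

lemma glue {ι : Type} [Finite ι] (C : ι → Set A) (hC : ∀ i, IsClosed (C i))
    (cov : ∀ a, ∃ i, a ∈ C i) (F : ι → A → Y) (hF : ∀ i, ContinuousOn (F i) (C i))
    (compat : ∀ i j a, a ∈ C i → a ∈ C j → F i a = F j a) :
    ∃ G : A → Y, Continuous G ∧ ∀ i a, a ∈ C i → G a = F i a := by
  choose c hc using cov
  have key : ∀ i a, a ∈ C i → F (c a) a = F i a := fun i a ha => compat _ _ a (hc a) ha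
  refine ⟨fun a => F (c a) a, ?_, key⟩
  refine (locallyFinite_of_finite C).continuous ?_ hC ?_
  · exact eq_univ_of_forall fun a => mem_iUnion.2 ⟨c a, hc a⟩
  · intro i
    exact (hF i).congr fun a ha => key i a ha

lemma contOn_of {S : Set A} {f : A → Y} (g : S → Y) (hg : Continuous g)
    (h : ∀ z : S, f z = g z) : ContinuousOn f S := by
  rw [continuousOn_iff_continuous_domRestrict]
  have : S.domRestrict f = g := funext h
  rw [this]; exact hg

lemma Hty.of_clopen {f g : A → Y} {S : Set A} (hS : IsClopen S)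
    (h1 : Hty (fun a : S => f a) (fun a : S => g a))
    (h2 : Hty (fun a : (Sᶜ : Set A) => f a) (fun a : (Sᶜ : Set A) => g a)) : Hty f g := by
  classical
  obtain ⟨H, hH, h0, h1⟩ := h1
  obtain ⟨K, hK, k0, k1⟩ := h2
  let G : unitInterval × A → Y := fun z =>
    if h : z.2 ∈ S then H (z.1, ⟨z.2, h⟩) else K (z.1, ⟨z.2, h⟩)
  refine ⟨G, ?_, ?_, ?_⟩
  · have c1 : ContinuousOn G (Prod.snd ⁻¹' S) :=
      contOn_of (fun z => H (z.1.1, ⟨z.1.2, z.2⟩)) (by fun_prop) fun z => dif_pos z.2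
    have c2 : ContinuousOn G (Prod.snd ⁻¹' Sᶜ) :=
      contOn_of (fun z => K (z.1.1, ⟨z.1.2, z.2⟩)) (by fun_prop) fun z => dif_neg z.2
    have := c1.union_of_isClosed c2 (hS.isClosed.preimage continuous_snd)
      (hS.compl.isClosed.preimage continuous_snd)
    rw [← preimage_union, union_compl_self, preimage_univ] at this
    exact continuousOn_univ.1 this
  · intro a
    by_cases h : a ∈ S
    · simp [G, h, h0]
    · simp only [G, h, dif_neg, not_false_eq_true]; exact k0 ⟨a, h⟩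
  · intro a
    by_cases h : a ∈ S
    · simp [G, h, h1]
    · simp only [G, h, dif_neg, not_false_eq_true]; exact k1 ⟨a, h⟩

/-- a monomorphism of the free homotopy category -/
def HMono (s : Y → Z) : Prop :=
  Continuous s ∧ ∀ (A : Type) [TopologicalSpace A] (f g : A → Y), Continuous f → Continuous g →
    Hty (s ∘ f) (s ∘ g) → Hty f g

lemma HMono.comp {W : Type} [TopologicalSpace W] {s : Y → Z} {t : Z → W} (ht : HMono t)
    (hs : HMono s) : HMono (t ∘ s) :=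
  ⟨ht.1.comp hs.1, fun A _ f g hf hg h =>
    hs.2 A f g hf hg (ht.2 A _ _ (hs.1.comp hf) (hs.1.comp hg) h)⟩

lemma HMono.of_left {s : Y → Z} {r : Z → Y} (hs : Continuous s) (hr : Continuous r)
    (h : Hty (r ∘ s) id) : HMono s :=
  ⟨hs, fun _ _ _ _ hf hg k => ((h.pre hf).symm.trans (k.post hr)).trans (h.pre hg)⟩

lemma HMono.homeo (e : Y ≃ₜ Z) : HMono e :=
  HMono.of_left e.continuous e.symm.continuous (by
    have : (e.symm ∘ e : Y → Y) = id := by funext y; simp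
    rw [this]; exact Hty.refl continuous_id)

lemma cat_transfer {s : Y → Z} (hs : HMono s) [Nonempty Y] (n : ℕ)
    (h : ∃ U : Fin (n + 1) → Set Z, (∀ i, IsOpen (U i)) ∧ (∀ z, ∃ i, z ∈ U i) ∧
      ∀ i, ∃ H : unitInterval × Z → Z, ∃ z0 : Z,
        ContinuousOn H (Set.univ ×ˢ U i) ∧ ∀ z ∈ U i, H (0, z) = z ∧ H (1, z) = z0) :
    ∃ U : Fin (n + 1) → Set Y, (∀ i, IsOpen (U i)) ∧ (∀ y, ∃ i, y ∈ U i) ∧
      ∀ i, ∃ H : unitInterval × Y → Y, ∃ y0 : Y,
        ContinuousOn H (Set.univ ×ˢ U i) ∧ ∀ y ∈ U i, H (0, y) = y ∧ H (1, y) = y0 := by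
  classical
  obtain ⟨U, hU, cov, hH⟩ := h
  refine ⟨fun i => s ⁻¹' U i, fun i => (hU i).preimage hs.1, fun y => cov (s y), fun i => ?_⟩
  obtain ⟨H, z0, hc, hH⟩ := hH i
  by_cases hne : (s ⁻¹' U i).Nonempty
  swap
  · refine ⟨Prod.snd, Classical.arbitrary Y, continuous_snd.continuousOn, fun y hy => ?_⟩
    exact absurd ⟨y, hy⟩ hne
  obtain ⟨y0, hy0⟩ := hne
  have key : ∀ f : (s ⁻¹' U i) → Y, Continuous f → (∀ a, s (f a) ∈ U i) →
      Hty (s ∘ f) (fun _ => z0) := by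
    intro f hf hm
    refine ⟨fun z => H (z.1, s (f z.2)), ?_, fun a => (hH _ (hm a)).1, fun a => (hH _ (hm a)).2⟩
    have := hs.1
    exact hc.comp_continuous (by fun_prop) fun z => ⟨mem_univ _, hm _⟩
  obtain ⟨K, hK, k0, k1⟩ := hs.2 _ (fun a : s ⁻¹' U i => (a : Y)) (fun _ => y0)
    continuous_subtype_val continuous_const
    ((key _ continuous_subtype_val fun a => a.2).trans
      (key _ continuous_const fun _ => hy0).symm)
  refine ⟨fun z => if h : z.2 ∈ s ⁻¹' U i then K (z.1, ⟨z.2, h⟩) else y0, y0, ?_, ?_⟩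
  · exact contOn_of (fun z => K (z.1.1, ⟨z.1.2, z.2.2⟩)) (by fun_prop) fun z => dif_pos z.2.2
  · intro y hy
    exact ⟨(dif_pos hy).trans (k0 _), (dif_pos hy).trans (k1 _)⟩

lemma path_through {r : ℕ} (hr : 2 ≤ r) (f : Fin r → A → Y) (f0 : A → Y)
    (h : ∀ j, Hty f0 (f j)) :
    ∃ G : A × unitInterval → Y, Continuous G ∧
      ∀ a (j : Fin r), G (a, projIcc (0:ℝ) 1 zero_le_one ((j : ℝ) / ((r : ℝ) - 1))) = f j a := by
  choose K hK k0 k1 using h
  have hr' : (0:ℝ) < (r:ℝ) - 1 := by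
    have : (2:ℝ) ≤ r := by exact_mod_cast hr
    linarith
  let C : Fin r → Set (A × unitInterval) := fun j =>
    {z | |((r:ℝ) - 1) * z.2 - j| ≤ 1 / 2}
  let F : Fin r → A × unitInterval → Y := fun j z =>
    K j (projIcc (0:ℝ) 1 zero_le_one (1 - 2 * |((r:ℝ) - 1) * z.2 - j|), z.1)
  suffices hs : (∀ z, ∃ j, z ∈ C j) ∧ (∀ j, ContinuousOn (F j) (C j)) ∧
      ∀ i j z, z ∈ C i → z ∈ C j → F i z = F j z by
    obtain ⟨G, hG, hGF⟩ := glue C (fun j => isClosed_le (by fun_prop) continuous_const)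
      hs.1 F hs.2.1 hs.2.2
    refine ⟨G, hG, fun a j => ?_⟩
    have hj0 : (0:ℝ) ≤ (j:ℝ) / ((r:ℝ) - 1) := div_nonneg (Nat.cast_nonneg _) hr'.le
    have hj1 : (j:ℝ) / ((r:ℝ) - 1) ≤ 1 := by
      rw [div_le_one hr']
      have : ((j:ℕ):ℝ) + 1 ≤ r := by exact_mod_cast j.2
      linarith
    have e : ((r:ℝ) - 1) * (projIcc (0:ℝ) 1 zero_le_one ((j : ℝ) / ((r : ℝ) - 1)) : ℝ) - j = 0 := by
      rw [projIcc_of_mem _ ⟨hj0, hj1⟩]
      field_simp
      ring
    rw [hGF j _ (by simp only [C, mem_ofPred_eq, e]; norm_num)]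
    simp only [F, e]
    have : projIcc (0:ℝ) 1 zero_le_one (1 - 2 * |0|) = 1 := by
      simp
    rw [this, k1]
  refine ⟨?_, ?_, ?_⟩
  · intro z
    have h0 : (0:ℝ) ≤ ((r:ℝ) - 1) * z.2 := mul_nonneg hr'.le z.2.2.1
    have h1 : ((r:ℝ) - 1) * z.2 ≤ (r:ℝ) - 1 := mul_le_of_le_one_right hr'.le z.2.2.2
    have hlt : ⌊((r:ℝ) - 1) * z.2 + 1 / 2⌋₊ < r := by
      rw [Nat.floor_lt (by linarith)]; linarith
    refine ⟨⟨_, hlt⟩, ?_⟩
    have a1 := Nat.floor_le (show (0:ℝ) ≤ ((r:ℝ) - 1) * z.2 + 1 / 2 by linarith)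
    have a2 := Nat.lt_floor_add_one (((r:ℝ) - 1) * z.2 + 1 / 2)
    simp only [C, mem_ofPred_eq]
    rw [abs_le]; constructor <;> linarith
  · intro j
    have := hK j
    have c : Continuous (projIcc (0:ℝ) 1 zero_le_one) := continuous_projIcc
    exact Continuous.continuousOn (by simp only [F]; fun_prop)
  · intro i j z hi hj
    by_cases hij : i = j
    · rw [hij]
    have hd : (1:ℝ) ≤ |(i:ℝ) - j| := by
      have : (1:ℤ) ≤ |((i:ℕ):ℤ) - (j:ℕ)| := by
        refine Int.one_le_abs (sub_ne_zero.2 ?_)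
        intro h; exact hij (Fin.ext (by exact_mod_cast h))
      exact_mod_cast this
    simp only [C, mem_ofPred_eq] at hi hj
    have t1 : |(i:ℝ) - j| ≤ |((r:ℝ) - 1) * z.2 - i| + |((r:ℝ) - 1) * z.2 - j| := by
      have := abs_sub (((r:ℝ) - 1) * z.2 - j) (((r:ℝ) - 1) * z.2 - i)
      rw [show ((r:ℝ) - 1) * z.2 - j - (((r:ℝ) - 1) * z.2 - i) = i - j by ring] at this
      linarith
    have e1 : 1 - 2 * |((r:ℝ) - 1) * z.2 - i| = 0 := by linarith
    have e2 : 1 - 2 * |((r:ℝ) - 1) * z.2 - j| = 0 := by linarith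
    simp only [F, e1, e2]
    have : projIcc (0:ℝ) 1 zero_le_one 0 = 0 := by simp
    rw [this, k0, k0]

lemma tc_transfer {s : Y → Z} (hs : HMono s) (n r : ℕ) (hr : 2 ≤ r)
    (h : ∃ U : Fin (n + 1) → Set (Fin r → Z), (∀ i, IsOpen (U i)) ∧ (∀ z, ∃ i, z ∈ U i) ∧
      ∀ i, ∃ σ : (Fin r → Z) → C(Set.Icc (0:ℝ) 1, Z), ContinuousOn σ (U i) ∧
        ∀ z ∈ U i, ∀ j : Fin r,
          σ z (Set.projIcc (0:ℝ) 1 zero_le_one ((j : ℝ) / ((r : ℝ) - 1))) = z j) :
    ∃ U : Fin (n + 1) → Set (Fin r → Y), (∀ i, IsOpen (U i)) ∧ (∀ y, ∃ i, y ∈ U i) ∧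
      ∀ i, ∃ σ : (Fin r → Y) → C(Set.Icc (0:ℝ) 1, Y), ContinuousOn σ (U i) ∧
        ∀ y ∈ U i, ∀ j : Fin r,
          σ y (Set.projIcc (0:ℝ) 1 zero_le_one ((j : ℝ) / ((r : ℝ) - 1))) = y j := by
  classical
  obtain ⟨U, hU, cov, hH⟩ := h
  have hsc := hs.1
  have hS : Continuous fun (y : Fin r → Y) (j : Fin r) => s (y j) := by fun_prop
  refine ⟨fun i => (fun y j => s (y j)) ⁻¹' U i, fun i => (hU i).preimage hS,
    fun y => cov _, fun i => ?_⟩
  obtain ⟨σ, hc, hσ⟩ := hH i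
  set V : Set (Fin r → Y) := (fun y j => s (y j)) ⁻¹' U i with hV
  have hc' : Continuous fun a : V => σ (fun j => s (a.1 j)) :=
    hc.comp_continuous (hS.comp continuous_subtype_val) fun a => a.2
  let j0 : Fin r := ⟨0, by omega⟩
  have key : ∀ j, Hty (fun a : V => a.1 j0) (fun a : V => a.1 j) := by
    intro j
    refine hs.2 _ _ _ ((continuous_apply j0).comp continuous_subtype_val)
      ((continuous_apply j).comp continuous_subtype_val) ?_
    refine ⟨fun z => σ (fun j => s (z.2.1 j))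
      (z.1 * (Set.projIcc (0:ℝ) 1 zero_le_one ((j : ℝ) / ((r : ℝ) - 1)) : unitInterval)), ?_, ?_, ?_⟩
    · exact (hc'.comp continuous_snd).eval (by fun_prop)
    · intro a
      have := hσ _ a.2 j0
      simp only [j0, CharP.cast_eq_zero, zero_div, projIcc_left] at this
      simp only [zero_mul, Function.comp]
      exact this
    · intro a
      simp only [one_mul, Function.comp]
      exact hσ _ a.2 j
  obtain ⟨G, hG, hGj⟩ := path_through hr _ _ key
  let G' : C(V, C(unitInterval, Y)) := ContinuousMap.curry ⟨G, hG⟩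
  refine ⟨fun y => if h : y ∈ V then G' ⟨y, h⟩ else ContinuousMap.const _ (y j0), ?_, ?_⟩
  · exact contOn_of G' G'.continuous fun z => dif_pos z.2
  · intro y hy j
    have hy' : y ∈ V := hy
    simp only [hy', dif_pos]
    exact hGj ⟨y, hy⟩ j

end
end Pool.Agent.H407Z.TC
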