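import Pool.Agent.H407Z.T1

set_option autoImplicit false

/-! Continuous families of finite subsets, and the unordered configuration space. -/

namespace Pool.Agent.H407Z.TC
open Set Topology Filter

section
variable {A A' X X' : Type} [TopologicalSpace A] [TopologicalSpace A'] [TopologicalSpace X]
  [TopologicalSpace X']

/-- lower continuity of a family of finite sets -/
def LC (y : A → Finset X) : Prop := ∀ W : Set X, IsOpen W → IsOpen {a | ∃ p ∈ y a, p ∈ W}

lemma LC.comp {y : A → Finset X} (h : LC y) {s : A' → A} (hs : Continuous s) :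
    LC (fun a => y (s a)) := fun W hW => (h W hW).preimage hs

lemma LC.const (s : Finset X) : LC (fun _ : A => s) := fun _ _ => isOpen_const

lemma LC.lsc {y : A → Finset X} (h : LC y) {O : Set (A × X)} (hO : IsOpen O) :
    IsOpen {a | ∃ p ∈ y a, (a, p) ∈ O} := by
  rw [isOpen_iff_mem_nhds]
  rintro a ⟨p, hp, hO'⟩
  obtain ⟨u, v, hu, hv, ha, hpv, huv⟩ := isOpen_prod_iff.1 hO a p hO'
  filter_upwards [hu.mem_nhds ha, (h v hv).mem_nhds ⟨p, hp, hpv⟩] with b hb hb'
  obtain ⟨q, hq, hqv⟩ := hb'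
  exact ⟨q, hq, huv ⟨hb, hqv⟩⟩

lemma LC.image [DecidableEq X'] {y : A → Finset X} (h : LC y) (F : A × X → X')
    (hF : ContinuousOn F {z | z.2 ∈ y z.1}) : LC fun a => (y a).image fun p => F (a, p) := by
  intro W hW
  obtain ⟨u, hu, e⟩ := continuousOn_iff'.1 hF W hW
  convert h.lsc hu using 1
  ext a
  constructor
  · rintro ⟨_, hp, hW⟩
    obtain ⟨q, hq, rfl⟩ := Finset.mem_image.1 hp
    have : (a, q) ∈ F ⁻¹' W ∩ {z | z.2 ∈ y z.1} := ⟨hW, hq⟩
    rw [e] at this
    exact ⟨q, hq, this.1⟩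
  · rintro ⟨q, hq, hu⟩
    have : (a, q) ∈ u ∩ {z | z.2 ∈ y z.1} := ⟨hu, hq⟩
    rw [← e] at this
    exact ⟨_, Finset.mem_image_of_mem _ hq, this.1⟩

lemma LC.insert [DecidableEq X] {y : A → Finset X} (h : LC y) {p : A → X} (hp : Continuous p) :
    LC fun a => insert (p a) (y a) := by
  intro W hW
  convert (hW.preimage hp).union (h W hW) using 1
  ext a; simp

lemma LC.erase [DecidableEq X] [T2Space X] {y : A → Finset X} (h : LC y) {p : A → X}
    (hp : Continuous p) : LC fun a => (y a).erase (p a) := by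
  intro W hW
  have hO : IsOpen {z : A × X | z.2 ≠ p z.1 ∧ z.2 ∈ W} :=
    (isOpen_ne_fun continuous_snd (hp.comp continuous_fst)).inter (hW.preimage continuous_snd)
  convert h.lsc hO using 1
  ext a
  simp only [Finset.mem_erase, mem_ofPred_eq]
  constructor
  · rintro ⟨q, ⟨h1, h2⟩, h3⟩; exact ⟨q, h2, h1, h3⟩
  · rintro ⟨q, h2, h1, h3⟩; exact ⟨q, ⟨h1, h2⟩, h3⟩

/-- a continuous family of `n`-point sets -/
structure Fam (n : ℕ) (y : A → Finset X) : Prop where
  lc : LC y
  card : ∀ a, (y a).card = n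

lemma Fam.comp {n : ℕ} {y : A → Finset X} (h : Fam n y) {s : A' → A} (hs : Continuous s) :
    Fam n (fun a => y (s a)) := ⟨h.lc.comp hs, fun _ => h.card _⟩

lemma Fam.erase [DecidableEq X] [T2Space X] {n : ℕ} {y : A → Finset X} (h : Fam (n + 1) y)
    {p : A → X} (hp : Continuous p) (hm : ∀ a, p a ∈ y a) : Fam n fun a => (y a).erase (p a) :=
  ⟨h.lc.erase hp, fun a => by rw [Finset.card_erase_of_mem (hm a), h.card]; rfl⟩

lemma Fam.insert [DecidableEq X] {n : ℕ} {y : A → Finset X} (h : Fam n y)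
    {p : A → X} (hp : Continuous p) (hm : ∀ a, p a ∉ y a) :
    Fam (n + 1) fun a => insert (p a) (y a) :=
  ⟨h.lc.insert hp, fun a => by rw [Finset.card_insert_of_notMem (hm a), h.card]⟩

lemma Fam.image [DecidableEq X'] {n : ℕ} {y : A → Finset X} (h : Fam n y) (F : A × X → X')
    (hF : ContinuousOn F {z | z.2 ∈ y z.1})
    (hi : ∀ a, ∀ p ∈ y a, ∀ q ∈ y a, F (a, p) = F (a, q) → p = q) :
    Fam n fun a => (y a).image fun p => F (a, p) :=
  ⟨h.lc.image F hF, fun a => by
    rw [Finset.card_image_of_injOn (fun p hp q hq e => hi a p hp q hq e), h.card]⟩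

lemma Fam.strands [DecidableEq X] [T2Space X] {n : ℕ} {y : A → Finset X} (h : Fam n y) (a0 : A) :
    ∃ x : A → Fin n → X, (∀ a, Function.Injective (x a)) ∧
      (∀ i, ContinuousAt (fun a => x a i) a0) ∧ ∀ᶠ a in 𝓝 a0, y a = Finset.univ.image (x a) := by
  classical
  let e := Finset.equivFinOfCardEq (h.card a0)
  let p : Fin n → X := fun i => (e.symm i : X)
  have hp : Function.Injective p := Subtype.val_injective.comp e.symm.injective
  have hpm : ∀ i, p i ∈ y a0 := fun i => (e.symm i).2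
  obtain ⟨V, hV, hd⟩ := (Set.finite_range p).t2_separation
  have hd' : ∀ i j q, q ∈ V (p i) → q ∈ V (p j) → i = j := by
    intro i j q hi hj
    by_contra hne
    exact Set.disjoint_left.1 (hd (mem_range_self i) (mem_range_self j) (hp.ne hne)) hi hj
  let N : Set A := {a | ∀ i, ∃ q ∈ y a, q ∈ V (p i)}
  have hN : IsOpen N := by
    have : N = ⋂ i, {a | ∃ q ∈ y a, q ∈ V (p i)} := by ext a; simp [N]
    rw [this]
    exact isOpen_iInter_of_finite fun i => h.lc _ (hV _).2
  have ha0 : a0 ∈ N := fun i => ⟨p i, hpm i, (hV _).1⟩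
  let x : A → Fin n → X := fun a i => if hh : a ∈ N then (hh i).choose else p i
  have hxV : ∀ a i, x a i ∈ V (p i) := by
    intro a i
    by_cases hh : a ∈ N
    · simp only [x, dif_pos hh]; exact (hh i).choose_spec.2
    · simp only [x, dif_neg hh]; exact (hV _).1
  have hxy : ∀ a ∈ N, ∀ i, x a i ∈ y a := by
    intro a hh i
    simp only [x, dif_pos hh]; exact (hh i).choose_spec.1
  have hinj : ∀ a, Function.Injective (x a) := fun a i j hij =>
    hd' i j _ (hxV a i) (hij ▸ hxV a j)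
  have him : ∀ a ∈ N, y a = Finset.univ.image (x a) := by
    intro a ha
    symm
    apply Finset.eq_of_subset_of_card_le
    · intro q hq
      obtain ⟨i, -, rfl⟩ := Finset.mem_image.1 hq
      exact hxy a ha i
    · rw [Finset.card_image_of_injective _ (hinj a), h.card]; simp
  have key : ∀ a ∈ N, ∀ i, ∀ q ∈ y a, q ∈ V (p i) → q = x a i := by
    intro a ha i q hq hqV
    rw [him a ha] at hq
    obtain ⟨j, -, rfl⟩ := Finset.mem_image.1 hq
    rw [hd' i j _ hqV (hxV a j)]
  refine ⟨x, hinj, fun i => ?_, Filter.mem_of_superset (hN.mem_nhds ha0) him⟩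
  rw [ContinuousAt, tendsto_nhds]
  intro W hW hx
  filter_upwards [hN.mem_nhds ha0, (h.lc _ (hW.inter (hV (p i)).2)).mem_nhds
    ⟨x a0 i, hxy a0 ha0 i, hx, hxV a0 i⟩] with a ha hb
  obtain ⟨q, hq, hq1, hq2⟩ := hb
  rw [key a ha i q hq hq2] at hq1
  exact hq1

lemma Fam.usc [T2Space X] {n : ℕ} {y : A → Finset X} (h : Fam n y) {O : Set (A × X)}
    (hO : IsOpen O) : IsOpen {a | ∀ p ∈ y a, (a, p) ∈ O} := by
  classical
  rw [isOpen_iff_mem_nhds]
  intro a0 ha0
  obtain ⟨x, -, hc, he⟩ := h.strands a0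
  have : ∀ᶠ a in 𝓝 a0, ∀ i, (a, x a i) ∈ O := by
    rw [eventually_all]
    intro i
    refine (continuousAt_id.prodMk (hc i)).preimage_mem_nhds (hO.mem_nhds (ha0 _ ?_))
    rw [he.self_of_nhds]; exact Finset.mem_image_of_mem _ (Finset.mem_univ i)
  filter_upwards [this, he] with a h1 h2 p hp
  rw [h2] at hp
  obtain ⟨i, -, rfl⟩ := Finset.mem_image.1 hp
  exact h1 i

lemma Fam.sum [T2Space X] {M : Type} [AddCommMonoid M] [TopologicalSpace M] [ContinuousAdd M]
    {n : ℕ} {y : A → Finset X} (h : Fam n y) (F : A × X → M)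
    (hF : ContinuousOn F {z | z.2 ∈ y z.1}) : Continuous fun a => ∑ p ∈ y a, F (a, p) := by
  classical
  rw [continuous_iff_continuousAt]
  intro a0
  obtain ⟨x, hi, hc, he⟩ := h.strands a0
  have e : (fun a => ∑ i, F (a, x a i)) =ᶠ[𝓝 a0] fun a => ∑ p ∈ y a, F (a, p) := by
    filter_upwards [he] with a ha
    rw [ha, Finset.sum_image fun i _ j _ hij => hi a hij]
  refine ContinuousAt.congr ?_ e
  refine tendsto_finsetSum _ fun i _ => ?_
  have hm : ∀ᶠ a in 𝓝 a0, (a, x a i) ∈ {z : A × X | z.2 ∈ y z.1} := by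
    filter_upwards [he] with a ha
    show x a i ∈ y a
    rw [ha]; exact Finset.mem_image_of_mem _ (Finset.mem_univ i)
  exact (hF _ hm.self_of_nhds).tendsto.comp
    (tendsto_nhdsWithin_iff.2 ⟨continuousAt_id.prodMk (hc i), hm⟩)

lemma Fam.select [T2Space X] [T2Space X'] {n : ℕ} {y : A → Finset X} (h : Fam n y)
    {G : A × X → X'} (hG : Continuous G) {f : A → X'} (hf : Continuous f) {c : A → X}
    (hc : ∀ a, c a ∈ y a) (hcf : ∀ a, G (a, c a) = f a)
    (hi : ∀ a, ∀ p ∈ y a, ∀ q ∈ y a, G (a, p) = G (a, q) → p = q) : Continuous c := by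
  rw [continuous_def]
  intro W hW
  have hO : IsOpen {z : A × X | z.2 ∈ W ∨ G z ≠ f z.1} :=
    (hW.preimage continuous_snd).union (isOpen_ne_fun hG (hf.comp continuous_fst))
  convert h.usc hO using 1
  ext a
  simp only [mem_preimage, mem_ofPred_eq]
  constructor
  · intro ha p hp
    by_cases e : G (a, p) = f a
    · left; rw [hi a p hp _ (hc a) (e.trans (hcf a).symm)]; exact ha
    · exact Or.inr e
  · intro ha
    exact (ha _ (hc a)).resolve_right (not_not.2 (hcf a))

lemma Fam.clopen_eq [T2Space X] {n : ℕ} {y : A → Finset X} (h : Fam (n + 1) y) {p q : A → X}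
    (hp : Continuous p) (hq : Continuous q) (mp : ∀ a, p a ∈ y a) (mq : ∀ a, q a ∈ y a) :
    IsClopen {a | p a = q a} := by
  classical
  refine ⟨isClosed_eq hp hq, ?_⟩
  have hO : IsOpen {z : A × X | z.2 ≠ q z.1} :=
    isOpen_ne_fun continuous_snd (hq.comp continuous_fst)
  convert (h.erase hp mp).usc hO using 1
  ext a
  simp only [mem_ofPred_eq, Finset.mem_erase]
  constructor
  · intro e r hr; rw [← e]; exact hr.1
  · intro e
    by_contra hne
    exact e (q a) ⟨fun k => hne k.symm, mq a⟩ rfl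

/-- the space of `n`-point subsets -/
def B (X : Type) (n : ℕ) : Type := {s : Finset X // s.card = n}

instance (n : ℕ) : TopologicalSpace (B X n) :=
  TopologicalSpace.generateFrom {S | ∃ W : Set X, IsOpen W ∧ S = {y | ∃ p ∈ y.1, p ∈ W}}

lemma cont_B {n : ℕ} {f : A → B X n} : Continuous f ↔ LC fun a => (f a).1 := by
  constructor
  · intro hf W hW
    exact IsOpen.preimage hf (TopologicalSpace.isOpen_generateFrom_of_mem ⟨W, hW, rfl⟩)
  · intro h
    refine continuous_generateFrom_iff.2 ?_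
    rintro _ ⟨W, hW, rfl⟩
    exact h W hW

lemma fam_of_cont {n : ℕ} {f : A → B X n} (hf : Continuous f) : Fam n fun a => (f a).1 :=
  ⟨cont_B.1 hf, fun a => (f a).2⟩

lemma fam_val {n : ℕ} : Fam n fun y : B X n => y.1 := fam_of_cont continuous_id

/-- the map to `B X n` given by a family -/
def Fam.toB {n : ℕ} {y : A → Finset X} (h : Fam n y) : A → B X n := fun a => ⟨y a, h.card a⟩

lemma Fam.cont {n : ℕ} {y : A → Finset X} (h : Fam n y) : Continuous h.toB := cont_B.2 h.lc

instance [T2Space X] (n : ℕ) : T2Space (B X n) := by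
  classical
  refine ⟨fun y y' hne => ?_⟩
  have : ¬ y.1 ⊆ y'.1 := fun hs =>
    hne (Subtype.ext (Finset.eq_of_subset_of_card_le hs (by rw [y.2, y'.2])))
  obtain ⟨p, hp, hp'⟩ := Finset.not_subset.1 this
  obtain ⟨U, V, hU, hV, h1, h2, hd⟩ :=
    (y'.1.finite_toSet.isCompact).separation_of_notMem (x := p) (fun k => hp' (Finset.mem_coe.1 k))
  refine ⟨{z | ∃ q ∈ z.1, q ∈ V}, {z | ∀ q ∈ z.1, (z, q) ∈ Prod.snd ⁻¹' U}, fam_val.lc V hV,
    fam_val.usc (hU.preimage continuous_snd), ⟨p, hp, h2⟩, fun q hq => h1 hq, ?_⟩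
  rw [Set.disjoint_left]
  rintro z ⟨q, hq, hqV⟩ hz
  exact Set.disjoint_left.1 hd (hz q hq) hqV

lemma cover_B [T2Space X] (n : ℕ) :
    IsCoveringMap (fun z : {z : B X (n + 1) × X // z.2 ∈ z.1.1} => z.1.1) := by
  classical
  set pr := (fun z : {z : B X (n + 1) × X // z.2 ∈ z.1.1} => z.1.1) with hpr
  have hc : Continuous pr := continuous_fst.comp continuous_subtype_val
  have hop : IsOpenMap pr := by
    intro O hO
    obtain ⟨O', hO', rfl⟩ := isOpen_induced_iff.1 hO
    convert fam_val.lc.lsc hO' using 1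
    ext y
    constructor
    · rintro ⟨z, hz, rfl⟩; exact ⟨z.1.2, z.2, hz⟩
    · rintro ⟨p, hp, hO⟩; exact ⟨⟨(y, p), hp⟩, hO, rfl⟩
  have hcl : IsClosedMap pr := by
    intro C hC
    obtain ⟨C', hC', rfl⟩ := isClosed_induced_iff.1 hC
    rw [← isOpen_compl_iff]
    convert fam_val.usc hC'.isOpen_compl using 1
    ext y
    constructor
    · intro hy p hp hC; exact hy ⟨⟨(y, p), hp⟩, hC, rfl⟩
    · rintro hy ⟨z, hz, rfl⟩; exact hy z.1.2 z.2 hz
  rw [isCoveringMap_iff_isCoveringMapOn_univ]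
  refine hcl.isCoveringMapOn_of_isLocalHomeomorphOn (fun y _ => ?_) ?_
  · refine Set.Finite.of_finite_image (f := fun z => z.1.2) (y.1.finite_toSet.subset ?_) ?_
    · rintro _ ⟨z, hz, rfl⟩
      have : z.1.1 = y := hz
      have h2 := z.2
      rw [this] at h2
      exact h2
    · intro z hz w hw e
      exact Subtype.ext (Prod.ext ((show z.1.1 = y from hz).trans (show w.1.1 = y from hw).symm) e)
  refine IsLocalHomeomorph.isLocalHomeomorphOn ?_
  rw [isLocalHomeomorph_iff_isOpenEmbedding_restrict]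
  intro z0
  obtain ⟨U, V, hU, hV, h1, h2, hd⟩ :=
    ((z0.1.1.1.erase z0.1.2).finite_toSet.isCompact).separation_of_notMem (x := z0.1.2) (by simp)
  have hF : Fam n fun z : {z : B X (n + 1) × X // z.2 ∈ z.1.1} => z.1.1.1.erase z.1.2 :=
    (fam_of_cont hc).erase (continuous_snd.comp continuous_subtype_val) fun z => z.2
  let N : Set {z : B X (n + 1) × X // z.2 ∈ z.1.1} :=
    {z | z.1.2 ∈ V} ∩ {z | ∀ q ∈ z.1.1.1.erase z.1.2, (z, q) ∈ Prod.snd ⁻¹' U}
  have hN : IsOpen N := (hV.preimage (continuous_snd.comp continuous_subtype_val)).inter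
    (hF.usc (hU.preimage continuous_snd))
  refine ⟨N, hN.mem_nhds ⟨h2, fun q hq => h1 hq⟩, ?_⟩
  refine IsOpenEmbedding.of_continuous_injective_isOpenMap (hc.comp continuous_subtype_val) ?_
    (hop.comp hN.isOpenMap_subtype_val)
  intro z w e
  have e' : z.1.1.1 = w.1.1.1 := e
  refine Subtype.ext (Subtype.ext (Prod.ext e' ?_))
  by_contra hne
  have : z.1.1.2 ∈ w.1.1.1.1.erase w.1.1.2 := Finset.mem_erase.2 ⟨hne, e' ▸ z.1.2⟩
  exact Set.disjoint_left.1 hd (w.2.2 _ this) z.2.1

lemma Fam.lift [T2Space X] {n : ℕ} {H : unitInterval × A → Finset X} (h : Fam (n + 1) H)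
    {p : A → X} (hp : Continuous p) (hm : ∀ a, p a ∈ H (0, a)) :
    ∃ P : unitInterval × A → X, Continuous P ∧ (∀ z, P z ∈ H z) ∧ ∀ a, P (0, a) = p a := by
  let f : C(A, {z : B X (n + 1) × X // z.2 ∈ z.1.1}) :=
    ⟨fun a => ⟨(h.toB (0, a), p a), hm a⟩,
      ((h.cont.comp (continuous_const.prodMk continuous_id)).prodMk hp).subtype_mk _⟩
  let L := (cover_B (X := X) n).liftHomotopy ⟨h.toB, h.cont⟩ f fun _ => rfl
  refine ⟨fun z => (L z).1.2, by fun_prop, fun z => ?_, fun a => ?_⟩
  · have e : (L z).1.1 = h.toB z :=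
      congr_fun ((cover_B (X := X) n).liftHomotopy_lifts ⟨h.toB, h.cont⟩ f fun _ => rfl) z
    have := (L z).2
    rw [e] at this
    exact this
  · have e : L (0, a) = f a :=
      (cover_B (X := X) n).liftHomotopy_zero ⟨h.toB, h.cont⟩ f (fun _ => rfl) a
    show (L (0, a)).1.2 = p a
    rw [e]; rfl

/-- the given quotient is the space of `n`-point subsets -/
lemma quot_homeo [T2Space X] (n : ℕ) :
    Nonempty (Quot (fun v w : {v : Fin n → X // Function.Injective v} =>
      ∃ σ : Equiv.Perm (Fin n), w.1 = v.1 ∘ σ) ≃ₜ B X n) := by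
  classical
  let m : {v : Fin n → X // Function.Injective v} → B X n := fun v =>
    ⟨Finset.univ.image v.1, by rw [Finset.card_image_of_injective _ v.2]; simp⟩
  have hm : Continuous m := by
    rw [cont_B]
    intro W hW
    have : {a : {v : Fin n → X // Function.Injective v} | ∃ p ∈ (m a).1, p ∈ W}
        = ⋃ i, {a | a.1 i ∈ W} := by
      ext a; simp [m]
    rw [this]
    exact isOpen_iUnion fun i => hW.preimage ((continuous_apply i).comp continuous_subtype_val)
  let f : Quot (fun v w : {v : Fin n → X // Function.Injective v} =>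
      ∃ σ : Equiv.Perm (Fin n), w.1 = v.1 ∘ σ) → B X n := Quot.lift m (by
    rintro v w ⟨σ, e⟩
    apply Subtype.ext
    ext q
    simp only [m, e, Finset.mem_image, Finset.mem_univ, true_and, Function.comp]
    exact ⟨fun ⟨i, hi⟩ => ⟨σ.symm i, by simpa using hi⟩, fun ⟨i, hi⟩ => ⟨σ i, hi⟩⟩)
  have hf : Continuous f := continuous_quot_lift _ hm
  have hinj : Function.Injective f := by
    rintro ⟨v⟩ ⟨w⟩ e
    have e' : Finset.univ.image v.1 = Finset.univ.image w.1 := congrArg Subtype.val e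
    have : ∀ i, ∃ j, v.1 j = w.1 i := by
      intro i
      have : w.1 i ∈ Finset.univ.image v.1 := e' ▸ Finset.mem_image_of_mem _ (Finset.mem_univ i)
      simpa using this
    choose s hs using this
    have hsi : Function.Injective s := fun i j hij => w.2 (by rw [← hs, ← hs, hij])
    exact Quot.sound ⟨Equiv.ofBijective s (Finite.injective_iff_bijective.1 hsi),
      funext fun i => (hs i).symm⟩
  have hsurj : Function.Surjective f := by
    intro y
    obtain ⟨x, hi, -, he⟩ := fam_val.strands y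
    exact ⟨Quot.mk _ ⟨x y, hi y⟩, Subtype.ext he.self_of_nhds.symm⟩
  let e := Equiv.ofBijective f ⟨hinj, hsurj⟩
  refine ⟨⟨e, hf, ?_⟩⟩
  rw [continuous_iff_continuousAt]
  intro y
  obtain ⟨x, hi, hc, he⟩ := fam_val.strands y
  have c : ContinuousAt (fun a => (⟨x a, hi a⟩ : {v : Fin n → X // Function.Injective v})) y :=
    tendsto_subtype_rng.2 (continuousAt_pi.2 hc)
  refine (continuous_quot_mk.continuousAt.comp c).congr ?_
  filter_upwards [he] with a ha
  apply e.injective
  simp only [Equiv.invFun_as_coe, Equiv.apply_symm_apply]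
  exact Subtype.ext ha.symm

lemma B_homeo (e : X ≃ₜ X') (n : ℕ) : Nonempty (B X n ≃ₜ B X' n) := by
  classical
  have h1 := (fam_val (X := X) (n := n)).image (fun z => e z.2)
    (Continuous.continuousOn (by fun_prop)) fun _ _ _ _ _ h => e.injective h
  have h2 := (fam_val (X := X') (n := n)).image (fun z => e.symm z.2)
    (Continuous.continuousOn (by fun_prop)) fun _ _ _ _ _ h => e.symm.injective h
  refine ⟨⟨⟨h1.toB, h2.toB, fun y => Subtype.ext ?_, fun y => Subtype.ext ?_⟩, h1.cont, h2.cont⟩⟩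
  · simp [Fam.toB, Finset.image_image, Function.comp_def]
  · simp [Fam.toB, Finset.image_image, Function.comp_def]

/-- homotopy of families through families -/
def HT (n : ℕ) (f g : A → Finset X) : Prop :=
  ∃ H : unitInterval × A → Finset X, Fam n H ∧ (∀ a, H (0, a) = f a) ∧ ∀ a, H (1, a) = g a

lemma HT.left {n : ℕ} {f g : A → Finset X} (h : HT n f g) : Fam n f := by
  obtain ⟨H, hH, h0, -⟩ := h
  have : f = fun a => H (0, a) := funext fun a => (h0 a).symm
  rw [this]; exact hH.comp (by fun_prop)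

lemma HT.right {n : ℕ} {f g : A → Finset X} (h : HT n f g) : Fam n g := by
  obtain ⟨H, hH, -, h1⟩ := h
  have : g = fun a => H (1, a) := funext fun a => (h1 a).symm
  rw [this]; exact hH.comp (by fun_prop)

lemma ht_iff {n : ℕ} {f g : A → B X n} : Hty f g ↔ HT n (fun a => (f a).1) fun a => (g a).1 := by
  constructor
  · rintro ⟨H, hH, h0, h1⟩
    exact ⟨fun z => (H z).1, fam_of_cont hH, fun a => congrArg Subtype.val (h0 a),
      fun a => congrArg Subtype.val (h1 a)⟩
  · rintro ⟨H, hH, h0, h1⟩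
    exact ⟨hH.toB, hH.cont, fun a => Subtype.ext (h0 a), fun a => Subtype.ext (h1 a)⟩

lemma HT.hty {n : ℕ} {f g : A → Finset X} (h : HT n f g) : Hty h.left.toB h.right.toB :=
  ht_iff.2 h

lemma HT.symm {n : ℕ} {f g : A → Finset X} (h : HT n f g) : HT n g f := ht_iff.1 h.hty.symm

lemma HT.trans {n : ℕ} {f g k : A → Finset X} (h : HT n f g) (h' : HT n g k) : HT n f k :=
  ht_iff.1 (h.hty.trans h'.hty)

lemma HT.pre {n : ℕ} {f g : A → Finset X} (h : HT n f g) {s : A' → A} (hs : Continuous s) :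
    HT n (fun a => f (s a)) fun a => g (s a) := ht_iff.1 (h.hty.pre hs)

lemma HT.congr {n : ℕ} {f g f' g' : A → Finset X} (h : HT n f g) (e1 : ∀ a, f a = f' a)
    (e2 : ∀ a, g a = g' a) : HT n f' g' := by
  rw [← funext e1, ← funext e2]; exact h

end
end Pool.Agent.H407Z.TC
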