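import Pool.Agent.H407Z.T2

set_option autoImplicit false

/-! Stabilisation at a point with a local dodging structure is a homotopy monomorphism. -/

namespace Pool.Agent.H407Z.TC
open Set Topology Filter

/-- local data at a point `v`: a moving homotopy `G` and a dodging point `Z` -/
structure Loc (X : Type) [TopologicalSpace X] where
  v : X
  ρ : X → ℝ
  G : ℝ × ℝ × X → X
  Z : ℝ × ℝ × X → X
  ρc : Continuous ρ
  Gc : Continuous G
  Zc : Continuous Z
  ρ0 : ∀ x, 0 ≤ ρ x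
  ρv : ρ v = 0
  ρz : ∀ x, ρ x = 0 → x = v
  G0 : ∀ δ x, 0 < δ → δ ≤ 1 / 4 → G (δ, 0, x) = x
  Gfar : ∀ δ τ x, 0 < δ → δ ≤ 1 / 4 → δ ≤ ρ x → G (δ, τ, x) = x
  Gnear : ∀ δ τ x, 0 < δ → δ ≤ 1 / 4 → 0 ≤ τ → τ ≤ 1 → ρ x ≤ δ → ρ (G (δ, τ, x)) ≤ δ
  Z0 : ∀ δ x, 0 < δ → δ ≤ 1 / 4 → Z (δ, 0, x) = v
  Zfar : ∀ δ τ x, 0 < δ → δ ≤ 1 / 4 → δ ≤ ρ x → Z (δ, τ, x) = v
  Znear : ∀ δ τ x, 0 < δ → δ ≤ 1 / 4 → 0 ≤ τ → τ ≤ 1 → ρ (Z (δ, τ, x)) ≤ δ
  ZG : ∀ δ x, 0 < δ → δ ≤ 1 / 4 → Z (δ, 1, x) ≠ G (δ, 1, x)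

lemma HT.of_clopen {A X : Type} [TopologicalSpace A] [TopologicalSpace X] {n : ℕ}
    {f g : A → Finset X} (hf : Fam n f) (hg : Fam n g) {S : Set A} (hS : IsClopen S)
    (h1 : HT n (fun a : S => f a) (fun a : S => g a))
    (h2 : HT n (fun a : (Sᶜ : Set A) => f a) (fun a : (Sᶜ : Set A) => g a)) : HT n f g :=
  ht_iff.1 (Hty.of_clopen (f := hf.toB) (g := hg.toB) hS (ht_iff.2 h1) (ht_iff.2 h2))

namespace Loc
variable {A X : Type} [TopologicalSpace A] [TopologicalSpace X] [T2Space X] [DecidableEq X]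
  (L : Loc X)

/-- at most one point of `y` is `2δ`-close to `v` -/
def Adm (δ : ℝ) (y : Finset X) : Prop :=
  0 < δ ∧ δ ≤ 1 / 4 ∧ ∀ p ∈ y, ∀ q ∈ y, L.ρ p < 2 * δ → L.ρ q < 2 * δ → p = q

/-- an admissible radius -/
noncomputable def d (y : Finset X) : ℝ :=
  1 / (4 + ∑ p ∈ y, ∑ q ∈ y.erase p, 4 / (L.ρ p + L.ρ q))

open Classical in
/-- the new point -/
noncomputable def z (δ : ℝ) (y : Finset X) : X :=
  if h : ∃ p ∈ y, L.ρ p < 2 * δ then L.Z (δ, 1, h.choose) else L.v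

/-- the moved old points -/
noncomputable def g (δ τ : ℝ) (y : Finset X) : Finset X := y.image fun p => L.G (δ, τ, p)

/-- stabilisation with radius `δ` -/
noncomputable def S (δ : ℝ) (y : Finset X) : Finset X := insert (L.z δ y) (L.g δ 1 y)

/-- stabilisation -/
noncomputable def σ (y : Finset X) : Finset X := L.S (L.d y) y

variable {L}

omit [T2Space X] [DecidableEq X] in
lemma Adm.mono {δ δ' : ℝ} {y y' : Finset X} (h : L.Adm δ y) (h0 : 0 < δ') (h1 : δ' ≤ δ)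
    (hs : y' ⊆ y) : L.Adm δ' y' :=
  ⟨h0, h1.trans h.2.1, fun p hp q hq a b => h.2.2 p (hs hp) q (hs hq) (by linarith) (by linarith)⟩

omit [T2Space X] [DecidableEq X] in
lemma ρ_add_pos {p q : X} (h : q ≠ p) : 0 < L.ρ p + L.ρ q := by
  have h1 := L.ρ0 p
  have h2 := L.ρ0 q
  by_contra hc
  exact h ((L.ρz q (by linarith)).trans (L.ρz p (by linarith)).symm)

omit [T2Space X] in
lemma adm_d (y : Finset X) : L.Adm (L.d y) y := by
  have t0 : ∀ p q : X, 0 ≤ 4 / (L.ρ p + L.ρ q) := fun p q =>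
    div_nonneg (by norm_num) (add_nonneg (L.ρ0 p) (L.ρ0 q))
  have s0 : ∀ p, 0 ≤ ∑ q ∈ y.erase p, 4 / (L.ρ p + L.ρ q) := fun p =>
    Finset.sum_nonneg fun q _ => t0 p q
  have s1 : 0 ≤ ∑ p ∈ y, ∑ q ∈ y.erase p, 4 / (L.ρ p + L.ρ q) := Finset.sum_nonneg fun p _ => s0 p
  refine ⟨by unfold d; positivity, one_div_le_one_div_of_le (by norm_num) (by linarith), ?_⟩
  intro p hp q hq a b
  by_contra hne
  have hpos := ρ_add_pos (L := L) (Ne.symm hne)
  have l1 : 4 / (L.ρ p + L.ρ q) ≤ ∑ q ∈ y.erase p, 4 / (L.ρ p + L.ρ q) :=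
    Finset.single_le_sum (f := fun q => 4 / (L.ρ p + L.ρ q)) (fun q _ => t0 p q)
      (Finset.mem_erase.2 ⟨Ne.symm hne, hq⟩)
  have l2 : ∑ q ∈ y.erase p, 4 / (L.ρ p + L.ρ q)
      ≤ ∑ p ∈ y, ∑ q ∈ y.erase p, 4 / (L.ρ p + L.ρ q) :=
    Finset.single_le_sum (f := fun p => ∑ q ∈ y.erase p, 4 / (L.ρ p + L.ρ q)) (fun p _ => s0 p) hp
  have l3 : L.d y ≤ 1 / (4 / (L.ρ p + L.ρ q)) :=
    one_div_le_one_div_of_le (by positivity) (by linarith)
  rw [one_div_div] at l3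
  linarith

lemma d_cont {n : ℕ} {y : A → Finset X} (h : Fam n y) : Continuous fun a => L.d (y a) := by
  have hs : Continuous fun a => ∑ p ∈ y a, ∑ q ∈ (y a).erase p, 4 / (L.ρ p + L.ρ q) := by
    refine h.sum (fun w => ∑ q ∈ (y w.1).erase w.2, 4 / (L.ρ w.2 + L.ρ q)) ?_
    rw [continuousOn_iff_continuous_domRestrict]
    rcases n with _ | n
    · have : IsEmpty {w : A × X | w.2 ∈ y w.1} := ⟨fun w => by
        have h1 : w.1.2 ∈ y w.1.1 := w.2
        rw [Finset.card_eq_zero.1 (h.card _)] at h1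
        simp at h1⟩
      exact continuous_of_discreteTopology
    have hE : Fam n fun w : {w : A × X | w.2 ∈ y w.1} => (y w.1.1).erase w.1.2 :=
      (h.comp (by fun_prop)).erase (by fun_prop) fun w => w.2
    refine hE.sum (fun u => 4 / (L.ρ u.1.1.2 + L.ρ u.2)) ?_
    have := L.ρc
    refine ContinuousOn.div continuousOn_const (Continuous.continuousOn (by fun_prop)) ?_
    intro u hu
    exact (ρ_add_pos (Finset.mem_erase.1 hu).1).ne'
  refine continuous_const.div (continuous_const.add hs) fun a => ?_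
  have : 0 ≤ ∑ p ∈ y a, ∑ q ∈ (y a).erase p, 4 / (L.ρ p + L.ρ q) :=
    Finset.sum_nonneg fun p _ => Finset.sum_nonneg fun q _ =>
      div_nonneg (by norm_num) (add_nonneg (L.ρ0 p) (L.ρ0 q))
  linarith

omit [T2Space X] [DecidableEq X] in
lemma z_near {δ : ℝ} {y : Finset X} (h : L.Adm δ y) {p : X} (hp : p ∈ y) (hρ : L.ρ p < 2 * δ) :
    L.z δ y = L.Z (δ, 1, p) := by
  have e : ∃ p ∈ y, L.ρ p < 2 * δ := ⟨p, hp, hρ⟩
  unfold z
  rw [dif_pos e, h.2.2 _ e.choose_spec.1 p hp e.choose_spec.2 hρ]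

omit [T2Space X] [DecidableEq X] in
lemma z_far {δ : ℝ} {y : Finset X} (h : L.Adm δ y) (hρ : ∀ p ∈ y, δ ≤ L.ρ p) : L.z δ y = L.v := by
  by_cases e : ∃ p ∈ y, L.ρ p < 2 * δ
  · obtain ⟨p, hp, h1⟩ := e
    rw [z_near h hp h1, L.Zfar _ _ _ h.1 h.2.1 (hρ p hp)]
  · unfold z; rw [dif_neg e]

omit [DecidableEq X] in
lemma z_cont {n : ℕ} {y : A → Finset X} (h : Fam n y) {δ : A → ℝ} (hδ : Continuous δ)
    (ha : ∀ a, L.Adm (δ a) (y a)) : Continuous fun a => L.z (δ a) (y a) := by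
  have hρ := L.ρc
  have hZ := L.Zc
  rw [continuous_iff_continuousAt]
  intro a0
  rw [ContinuousAt, tendsto_nhds]
  intro W hW h0
  by_cases e : ∃ p ∈ y a0, L.ρ p < 2 * δ a0
  · obtain ⟨p, hp, h1⟩ := e
    have hO : IsOpen {w : A × X | L.ρ w.2 < 2 * δ w.1 ∧ L.Z (δ w.1, 1, w.2) ∈ W} :=
      (isOpen_lt (f := fun w : A × X => L.ρ w.2) (g := fun w => 2 * δ w.1) (by fun_prop)
        (by fun_prop)).inter (hW.preimage (f := fun w : A × X => L.Z (δ w.1, 1, w.2)) (by fun_prop))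
    filter_upwards [(h.lc.lsc hO).mem_nhds ⟨p, hp, h1, by rw [← z_near (ha a0) hp h1]; exact h0⟩]
      with a hh
    obtain ⟨q, hq, h2, h3⟩ := hh
    show L.z (δ a) (y a) ∈ W
    rw [z_near (ha a) hq h2]; exact h3
  · push Not at e
    have hO : IsOpen {w : A × X | δ w.1 < L.ρ w.2} := isOpen_lt (by fun_prop) (by fun_prop)
    have hp := (ha a0).1
    have h1 : ∀ p ∈ y a0, δ a0 < L.ρ p := fun p hp' => by linarith [e p hp']
    filter_upwards [(h.usc hO).mem_nhds h1] with a hh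
    show L.z (δ a) (y a) ∈ W
    rw [z_far (ha a) fun p hp => le_of_lt (hh p hp), ← z_far (ha a0) fun p hp => (h1 p hp).le]
    exact h0

omit [T2Space X] [DecidableEq X] in
lemma G_inj {δ τ : ℝ} {y : Finset X} (h : L.Adm δ y) (t0 : 0 ≤ τ) (t1 : τ ≤ 1) :
    ∀ p ∈ y, ∀ q ∈ y, L.G (δ, τ, p) = L.G (δ, τ, q) → p = q := by
  have key : ∀ p ∈ y, ∀ q ∈ y, L.G (δ, τ, p) = L.G (δ, τ, q) → L.ρ p ≤ δ → p = q := by
    intro p hp q hq e h1
    have hd := h.1
    by_contra hne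
    have h2 : 2 * δ ≤ L.ρ q := by
      by_contra hc
      exact hne (h.2.2 p hp q hq (by linarith) (by linarith))
    have h3 := L.Gnear δ τ p h.1 h.2.1 t0 t1 h1
    rw [e, L.Gfar δ τ q h.1 h.2.1 (by linarith)] at h3
    linarith
  intro p hp q hq e
  rcases le_total (L.ρ p) δ with h1 | h1
  · exact key p hp q hq e h1
  rcases le_total (L.ρ q) δ with h2 | h2
  · exact (key q hq p hp e.symm h2).symm
  rwa [L.Gfar δ τ p h.1 h.2.1 h1, L.Gfar δ τ q h.1 h.2.1 h2] at e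

omit [T2Space X] in
lemma g_fam {n : ℕ} {y : A → Finset X} (h : Fam n y) {δ τ : A → ℝ} (hδ : Continuous δ)
    (hτ : Continuous τ) (t0 : ∀ a, 0 ≤ τ a) (t1 : ∀ a, τ a ≤ 1)
    (ha : ∀ a, L.Adm (δ a) (y a)) : Fam n fun a => L.g (δ a) (τ a) (y a) := by
  have := L.Gc
  exact h.image (fun w => L.G (δ w.1, τ w.1, w.2)) (Continuous.continuousOn (by fun_prop))
    fun a => G_inj (ha a) (t0 a) (t1 a)

omit [T2Space X] in
lemma g_fam1 {n : ℕ} {y : A → Finset X} (h : Fam n y) {δ : A → ℝ} (hδ : Continuous δ)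
    (ha : ∀ a, L.Adm (δ a) (y a)) : Fam n fun a => L.g (δ a) 1 (y a) :=
  g_fam h hδ continuous_const (fun _ => zero_le_one) (fun _ => le_rfl) ha

omit [T2Space X] in
lemma g_ht {n : ℕ} {y : A → Finset X} (h : Fam n y) {δ : A → ℝ} (hδ : Continuous δ)
    (ha : ∀ a, L.Adm (δ a) (y a)) : HT n y fun a => L.g (δ a) 1 (y a) := by
  refine ⟨fun w => L.g (δ w.2) w.1 (y w.2), g_fam (h.comp continuous_snd) (by fun_prop)
    (by fun_prop) (fun w => w.1.2.1) (fun w => w.1.2.2) fun w => ha w.2, fun a => ?_, fun a => rfl⟩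
  show (y a).image (fun p => L.G (δ a, 0, p)) = y a
  rw [Finset.image_congr (g := id) fun p _ => L.G0 _ p (ha a).1 (ha a).2.1, Finset.image_id]

omit [T2Space X] in
lemma far_notMem {δ : ℝ} {y : Finset X} (h0 : 0 < δ) (h1 : δ ≤ 1 / 4)
    (hy : ∀ p ∈ y, δ < L.ρ p) {x : X} (hx : L.ρ x ≤ δ) : x ∉ L.g δ 1 y := by
  intro hm
  obtain ⟨p, hp, e⟩ := Finset.mem_image.1 hm
  rw [L.Gfar _ _ _ h0 h1 (hy p hp).le] at e
  have := hy p hp
  rw [e] at this
  linarith

omit [T2Space X] in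
lemma z_notMem {δ : ℝ} {y : Finset X} (h : L.Adm δ y) : L.z δ y ∉ L.g δ 1 y := by
  have hd := h.1
  by_cases e : ∃ p ∈ y, L.ρ p < 2 * δ
  · obtain ⟨p, hp, h1⟩ := e
    rw [z_near h hp h1]
    intro hm
    obtain ⟨q, hq, e⟩ := Finset.mem_image.1 hm
    by_cases hpq : q = p
    · rw [hpq] at e
      exact L.ZG δ p h.1 h.2.1 e.symm
    · have h2 : 2 * δ ≤ L.ρ q := by
        by_contra hc
        exact hpq (h.2.2 q hq p hp (by linarith) h1)
      rw [L.Gfar _ _ _ h.1 h.2.1 (by linarith)] at e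
      have := L.Znear δ 1 p h.1 h.2.1 zero_le_one le_rfl
      rw [← e] at this
      linarith
  · push Not at e
    rw [z_far h fun p hp => by linarith [e p hp]]
    exact far_notMem h.1 h.2.1 (fun p hp => by linarith [e p hp]) (by rw [L.ρv]; exact hd.le)

lemma S_fam {n : ℕ} {y : A → Finset X} (h : Fam n y) {δ : A → ℝ} (hδ : Continuous δ)
    (ha : ∀ a, L.Adm (δ a) (y a)) : Fam (n + 1) fun a => L.S (δ a) (y a) :=
  (g_fam1 h hδ ha).insert (z_cont h hδ ha) fun a => z_notMem (ha a)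

lemma σ_fam {n : ℕ} {y : A → Finset X} (h : Fam n y) : Fam (n + 1) fun a => L.σ (y a) :=
  S_fam h (d_cont h) fun _ => adm_d _

lemma σ_ht {n : ℕ} {f g : A → Finset X} (h : HT n f g) :
    HT (n + 1) (fun a => L.σ (f a)) fun a => L.σ (g a) := by
  obtain ⟨H, hH, h0, h1⟩ := h
  exact ⟨fun w => L.σ (H w), σ_fam hH, fun a => congrArg L.σ (h0 a), fun a => congrArg L.σ (h1 a)⟩

lemma S_interp {n : ℕ} {y : A → Finset X} (h : Fam n y) {δ δ' : A → ℝ} (hδ : Continuous δ)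
    (hδ' : Continuous δ') (ha : ∀ a, L.Adm (δ a) (y a)) (ha' : ∀ a, L.Adm (δ' a) (y a)) :
    HT (n + 1) (fun a => L.S (δ a) (y a)) fun a => L.S (δ' a) (y a) := by
  refine ⟨fun w => L.S ((1 - w.1) * δ w.2 + w.1 * δ' w.2) (y w.2),
    S_fam (h.comp continuous_snd) (by fun_prop) fun w => ?_, fun a => by simp, fun a => by simp⟩
  have t0 := w.1.2.1
  have t1 := w.1.2.2
  have p1 := (ha w.2).1
  have p2 := (ha' w.2).1
  rcases le_total (δ w.2) (δ' w.2) with k | k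
  · exact (ha' w.2).mono (by nlinarith) (by nlinarith) subset_rfl
  · exact (ha w.2).mono (by nlinarith) (by nlinarith) subset_rfl

lemma weights {n : ℕ} {y : A → Finset X} (h : Fam (n + 1) y) {δ : A → ℝ} (hδ : Continuous δ)
    (ha : ∀ a, L.Adm (δ a) (y a)) {c : A → X} (hc : Continuous c) (hm : ∀ a, c a ∈ y a) :
    HT (n + 1) (fun a => L.S (δ a) ((y a).erase (c a)))
      fun a => insert (L.z (δ a) (y a)) (L.g (δ a) 1 ((y a).erase (c a))) := by
  have hρ := L.ρc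
  have hZ := L.Zc
  have hE := h.erase hc hm
  have ha' : ∀ a, L.Adm (δ a) ((y a).erase (c a)) := fun a =>
    (ha a).mono (ha a).1 le_rfl (Finset.erase_subset _ _)
  have oth : ∀ a, L.ρ (c a) < 2 * δ a → ∀ p ∈ (y a).erase (c a), 2 * δ a ≤ L.ρ p := by
    intro a h1 p hp
    by_contra hc
    exact (Finset.mem_erase.1 hp).1
      ((ha a).2.2 p (Finset.mem_erase.1 hp).2 _ (hm a) (by linarith) h1)
  have zv : ∀ a, L.ρ (c a) < 2 * δ a → L.z (δ a) ((y a).erase (c a)) = L.v := fun a h1 =>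
    z_far (ha' a) fun p hp => by linarith [oth a h1 p hp, (ha a).1]
  let u : unitInterval × A → X := fun w =>
    if L.ρ (c w.2) ≤ 3 / 2 * δ w.2 then L.Z (δ w.2, w.1, c w.2)
    else L.z (δ w.2) ((y w.2).erase (c w.2))
  have hu : Continuous u := by
    refine Continuous.if_le (by fun_prop) ((z_cont hE hδ ha').comp continuous_snd) (by fun_prop)
      (by fun_prop) fun w e => ?_
    have hp := (ha w.2).1
    rw [zv _ (by linarith), L.Zfar _ _ _ hp (ha w.2).2.1 (by linarith)]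
  refine ⟨fun w => insert (u w) (L.g (δ w.2) 1 ((y w.2).erase (c w.2))),
    ((g_fam1 hE hδ ha').comp continuous_snd).insert hu fun w => ?_, fun a => ?_, fun a => ?_⟩
  · have hp := (ha w.2).1
    simp only [u]
    split_ifs with e
    · exact far_notMem hp (ha w.2).2.1 (fun p hp' => by linarith [oth w.2 (by linarith) p hp'])
        (L.Znear _ _ _ hp (ha w.2).2.1 w.1.2.1 w.1.2.2)
    · exact z_notMem (ha' w.2)
  · have hp := (ha a).1
    have : u (0, a) = L.z (δ a) ((y a).erase (c a)) := by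
      simp only [u]
      split_ifs with e
      · rw [zv a (by linarith)]; exact L.Z0 _ _ hp (ha a).2.1
      · rfl
    simp only [this]; rfl
  · have hp := (ha a).1
    have : u (1, a) = L.z (δ a) (y a) := by
      simp only [u]
      split_ifs with e
      · rw [z_near (ha a) (hm a) (by linarith)]; rfl
      · by_cases k : ∃ p ∈ (y a).erase (c a), L.ρ p < 2 * δ a
        · obtain ⟨p, hp, k⟩ := k
          rw [z_near (ha' a) hp k, z_near (ha a) (Finset.mem_erase.1 hp).2 k]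
        · push Not at k
          rw [z_far (ha' a) fun p hp' => by linarith [k p hp'], z_far (ha a) fun p hp' => ?_]
          by_cases hpc : p = c a
          · rw [hpc]; linarith
          · linarith [k p (Finset.mem_erase.2 ⟨hpc, hp'⟩)]
    simp only [this]

lemma swap {n : ℕ} {y : A → Finset X} (h : Fam (n + 1) y) {c : A → X} (hc : Continuous c)
    (hm : ∀ a, c a ∈ L.g (L.d (y a)) 1 (y a)) :
    HT (n + 1) (fun a => L.σ ((L.g (L.d (y a)) 1 (y a)).erase (c a)))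
      fun a => insert (L.z (L.d (y a)) (y a)) ((L.g (L.d (y a)) 1 (y a)).erase (c a)) := by
  have hd := d_cont (L := L) h
  have ha : ∀ a, L.Adm (L.d (y a)) (y a) := fun a => adm_d _
  have hG := L.Gc
  choose c' hc1 hc2 using fun a => Finset.mem_image.1 (hm a)
  have hc' : Continuous c' := h.select (G := fun w => L.G (L.d (y w.1), 1, w.2))
    (hG.comp ((hd.comp continuous_fst).prodMk (continuous_const.prodMk continuous_snd))) hc
    hc1 hc2 fun a => G_inj (ha a) zero_le_one le_rfl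
  have hE := h.erase hc' hc1
  have ha' : ∀ a, L.Adm (L.d (y a)) ((y a).erase (c' a)) := fun a =>
    (ha a).mono (ha a).1 le_rfl (Finset.erase_subset _ _)
  have e : ∀ a, L.g (L.d (y a)) 1 ((y a).erase (c' a)) = (L.g (L.d (y a)) 1 (y a)).erase (c a) := by
    intro a
    ext x
    simp only [g, Finset.mem_image, Finset.mem_erase]
    constructor
    · rintro ⟨p, ⟨h1, h2⟩, rfl⟩
      exact ⟨fun k => h1 (G_inj (ha a) zero_le_one le_rfl p h2 _ (hc1 a) (k.trans (hc2 a).symm)),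
        p, h2, rfl⟩
    · rintro ⟨h1, p, h2, rfl⟩
      exact ⟨p, ⟨fun k => h1 (by rw [k, hc2]), h2⟩, rfl⟩
  have s1 := (σ_ht (L := L) (g_ht hE hd ha')).symm
  have s2 := S_interp hE (d_cont hE) hd (fun a => adm_d _) ha'
  have s3 := weights h hd ha hc' hc1
  exact ((s1.trans s2).trans s3).congr (fun a => by rw [e]) fun a => by rw [e]

theorem main {n : ℕ} {f₁ f₂ : A → Finset X} (h₁ : Fam (n + 1) f₁) (h₂ : Fam (n + 1) f₂)
    (h : HT (n + 2) (fun a => L.σ (f₁ a)) fun a => L.σ (f₂ a)) : HT (n + 1) f₁ f₂ := by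
  obtain ⟨H, hH, H0, H1⟩ := h
  have a₁ : ∀ a, L.Adm (L.d (f₁ a)) (f₁ a) := fun a => adm_d _
  have a₂ : ∀ a, L.Adm (L.d (f₂ a)) (f₂ a) := fun a => adm_d _
  have z₁ := z_cont h₁ (d_cont h₁) a₁
  have z₂ := z_cont h₂ (d_cont h₂) a₂
  have g₁ := g_ht h₁ (d_cont h₁) a₁
  have g₂ := g_ht h₂ (d_cont h₂) a₂
  have sy : Continuous fun w : unitInterval × A => (unitInterval.symm w.1, w.2) :=
    (unitInterval.continuous_symm.comp continuous_fst).prodMk continuous_snd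
  obtain ⟨P, hP, mP, P0⟩ := hH.lift z₁ fun a => by rw [H0]; exact Finset.mem_insert_self _ _
  obtain ⟨Q', hQ', mQ', Q0⟩ := (hH.comp sy).lift z₂ fun a => by
    simp only [unitInterval.symm_zero]; rw [H1]; exact Finset.mem_insert_self _ _
  let Q : unitInterval × A → X := fun w => Q' (unitInterval.symm w.1, w.2)
  have hQ : Continuous Q := hQ'.comp sy
  have mQ : ∀ w, Q w ∈ H w := fun w => by simpa using mQ' (unitInterval.symm w.1, w.2)
  have Q1 : ∀ a, Q (1, a) = L.z (L.d (f₂ a)) (f₂ a) := fun a => by simp [Q, Q0]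
  have e0 : ∀ a, (H (0, a)).erase (P (0, a)) = L.g (L.d (f₁ a)) 1 (f₁ a) := fun a => by
    rw [H0, P0]; exact Finset.erase_insert (z_notMem (a₁ a))
  have e1 : ∀ a, (H (1, a)).erase (Q (1, a)) = L.g (L.d (f₂ a)) 1 (f₂ a) := fun a => by
    rw [H1, Q1]; exact Finset.erase_insert (z_notMem (a₂ a))
  have kP : HT (n + 1) (fun a => L.g (L.d (f₁ a)) 1 (f₁ a)) fun a => (H (1, a)).erase (P (1, a)) :=
    ⟨_, hH.erase hP mP, e0, fun _ => rfl⟩
  have kQ : HT (n + 1) (fun a => (H (0, a)).erase (Q (0, a))) fun a => L.g (L.d (f₂ a)) 1 (f₂ a) :=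
    ⟨_, hH.erase hQ mQ, fun _ => rfl, e1⟩
  have hPQ := hH.clopen_eq hP hQ mP mQ
  have hS : IsClopen {a | P (1, a) = Q (1, a)} :=
    hPQ.preimage (f := fun a : A => ((1 : unitInterval), a)) (by fun_prop)
  refine HT.of_clopen h₁ h₂ hS ?_ ?_
  · refine ((g₁.trans kP).pre continuous_subtype_val).trans
      ((g₂.symm.pre continuous_subtype_val).congr (fun a => ?_) fun _ => rfl)
    rw [← e1, show P (1, a) = Q (1, a) from a.2]
  · set T : Set A := {a | P (1, a) = Q (1, a)}ᶜ with hT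
    have ne : ∀ (a : T) (t : unitInterval), Q (t, a) ≠ P (t, a) := by
      intro a t e
      have c := hPQ.preimage (f := fun t : unitInterval => (t, a.1)) (by fun_prop)
      have := c.eq_univ ⟨t, e.symm⟩
      exact a.2 (show (1 : unitInterval) ∈ _ from this ▸ mem_univ _)
    have iv : Continuous fun w : unitInterval × T => (w.1, w.2.1) := by fun_prop
    have k2 : HT n (fun a : T => (L.g (L.d (f₁ a)) 1 (f₁ a)).erase (Q (0, a)))
        fun a : T => (L.g (L.d (f₂ a)) 1 (f₂ a)).erase (P (1, a)) := by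
      refine ⟨_, ((hH.erase hP mP).comp iv).erase (hQ.comp iv)
        fun w => Finset.mem_erase.2 ⟨ne w.2 w.1, mQ _⟩, fun a => ?_, fun a => ?_⟩
      · simp only [Function.comp]; rw [e0]
      · simp only [Function.comp]; rw [Finset.erase_right_comm, e1]
    have m1 : ∀ a : T, Q (0, a) ∈ L.g (L.d (f₁ a)) 1 (f₁ a) := fun a => by
      rw [← e0]; exact Finset.mem_erase.2 ⟨ne a 0, mQ _⟩
    have m2 : ∀ a : T, P (1, a) ∈ L.g (L.d (f₂ a)) 1 (f₂ a) := fun a => by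
      rw [← e1]; exact Finset.mem_erase.2 ⟨(ne a 1).symm, mP _⟩
    have w1 := swap (L := L) (h₁.comp (continuous_subtype_val (p := fun a => a ∈ T)))
      (c := fun a : T => Q (0, a)) (by fun_prop) m1
    have w2 := swap (L := L) (h₂.comp (continuous_subtype_val (p := fun a => a ∈ T)))
      (c := fun a : T => P (1, a)) (by fun_prop) m2
    have mid := (w1.symm.trans (σ_ht k2)).trans w2
    have l1 := (g₁.trans kP).pre (continuous_subtype_val (p := fun a => a ∈ T))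
    have l2 := (kQ.trans g₂.symm).pre (continuous_subtype_val (p := fun a => a ∈ T))
    refine (l1.trans (mid.symm.congr (fun a => ?_) fun a => ?_)).trans l2
    · rw [H1, ← Q1]
      show _ = (insert (L.z (L.d (f₂ a)) (f₂ a)) (L.g (L.d (f₂ a)) 1 (f₂ a))).erase _
      rw [← Q1, Finset.erase_insert_of_ne (ne a 1)]
    · rw [H0, ← P0]
      show _ = (insert (L.z (L.d (f₁ a)) (f₁ a)) (L.g (L.d (f₁ a)) 1 (f₁ a))).erase _
      rw [← P0, Finset.erase_insert_of_ne (ne a 0).symm]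

theorem hmono (L : Loc X) (n : ℕ) : ∃ s : B X (n + 1) → B X (n + 2), HMono s :=
  ⟨(σ_fam (L := L) fam_val).toB, (σ_fam fam_val).cont, fun _ _ _ _ hf hg h =>
    ht_iff.2 (main (fam_of_cont hf) (fam_of_cont hg) (ht_iff.1 h))⟩

end Loc
end Pool.Agent.H407Z.TC
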