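import Pool.Agent.H407Z.T2

set_option autoImplicit false

/-! The circle. -/

namespace Pool.Agent.H407Z.TC
open Set Topology Filter

/-- the circle -/
abbrev Ci : Type := AddCircle (1 : ℝ)

/-- representative in `[0,1)` -/
noncomputable def fr (x : Ci) : ℝ := (AddCircle.equivIco 1 0 x : ℝ)

lemma fr_nonneg (x : Ci) : 0 ≤ fr x := (AddCircle.equivIco 1 0 x).2.1
lemma fr_lt (x : Ci) : fr x < 1 := by simpa [fr] using (AddCircle.equivIco (1:ℝ) 0 x).2.2
lemma coe_fr (x : Ci) : ((fr x : ℝ) : Ci) = x := AddCircle.coe_equivIco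
lemma fr_coe {r : ℝ} (h0 : 0 ≤ r) (h1 : r < 1) : fr (r : Ci) = r :=
  AddCircle.equivIco_coe_of_mem ⟨h0, by simpa using h1⟩
lemma fr_zero : fr 0 = 0 := fr_coe le_rfl one_pos
lemma fr_contAt {x : Ci} (hx : x ≠ 0) : ContinuousAt fr x :=
  continuousAt_subtype_val.comp (AddCircle.continuousAt_equivIco 1 0 hx)
lemma coe_one : ((1 : ℝ) : Ci) = 0 := AddCircle.coe_period 1
lemma fr_pos {x : Ci} (hx : x ≠ 0) : 0 < fr x := by
  refine (fr_nonneg x).lt_of_ne fun h => hx ?_
  rw [← coe_fr x, ← h]; rfl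
lemma cont_coe : Continuous ((↑) : ℝ → Ci) := AddCircle.continuous_mk' 1
lemma coe_sum {ι : Type} (s : Finset ι) (f : ι → ℝ) :
    ((∑ i ∈ s, f i : ℝ) : Ci) = ∑ i ∈ s, (f i : Ci) :=
  map_sum (QuotientAddGroup.mk' (AddSubgroup.zmultiples (1:ℝ))) f s

lemma fr_sub (x y : Ci) : fr (x - y) = fr x - fr y + if fr x < fr y then 1 else 0 := by
  have a1 := fr_nonneg x
  have a2 := fr_lt x
  have a3 := fr_nonneg y
  have a4 := fr_lt y
  split_ifs with h
  · rw [← fr_coe (r := fr x - fr y + 1) (by linarith) (by linarith), AddCircle.coe_add,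
      AddCircle.coe_sub, coe_fr, coe_fr, coe_one, add_zero]
  · rw [add_zero, ← fr_coe (r := fr x - fr y) (by linarith) (by linarith),
      AddCircle.coe_sub, coe_fr, coe_fr]

open Classical in
/-- displacement of `p` towards the balanced position -/
noncomputable def Dp (k : ℕ) (y : Finset Ci) (p : Ci) : ℝ := (∑ q ∈ y.erase p, fr (q - p)) / k

lemma Dp_eq (k : ℕ) {y : Finset Ci} (p : Ci) : Dp k y p = (∑ q ∈ y, fr (q - p)) / k := by
  classical
  unfold Dp
  rw [Finset.sum_erase _ (by simp [fr_zero])]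

lemma mv_inj {k : ℕ} {y : Finset Ci} (hy : y.card = k) {t : ℝ} (t0 : 0 ≤ t) (t1 : t ≤ 1) :
    ∀ p ∈ y, ∀ q ∈ y, p + ((t * Dp k y p : ℝ) : Ci) = q + ((t * Dp k y q : ℝ) : Ci) → p = q := by
  classical
  intro p hp p' hp' e
  by_contra hne
  have hk : (0:ℝ) < k := by
    have : 0 < y.card := Finset.card_pos.2 ⟨p, hp⟩
    exact_mod_cast hy ▸ this
  have θ0 : 0 < fr (p' - p) := fr_pos (sub_ne_zero.2 (Ne.symm hne))
  have θ1 := fr_lt (p' - p)
  set θ := fr (p' - p) with hθ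
  let N : ℝ := ∑ q ∈ y, if fr (q - p) < θ then 1 else 0
  have e1 : ∑ q ∈ y, fr (q - p') = ∑ q ∈ y, fr (q - p) - k * θ + N := by
    have : ∀ q, fr (q - p') = fr (q - p) - θ + if fr (q - p) < θ then 1 else 0 := by
      intro q
      rw [← fr_sub]; congr 1; abel
    simp only [this, Finset.sum_add_distrib, Finset.sum_sub_distrib, Finset.sum_const, hy,
      nsmul_eq_mul, N]
  have N0 : 0 < N := by
    refine Finset.sum_pos' (fun q _ => by split_ifs <;> norm_num) ⟨p, hp, ?_⟩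
    simp [fr_zero, θ0]
  have N1 : N < k := by
    have : N < ∑ _q ∈ y, (1:ℝ) :=
      Finset.sum_lt_sum (fun q _ => by split_ifs <;> norm_num) ⟨p', hp', by simp [← hθ]⟩
    simpa [hy] using this
  have e2 : Dp k y p' - Dp k y p = N / k - θ := by
    rw [Dp_eq, Dp_eq, e1]; field_simp; ring
  have n0 : 0 < N / k := div_pos N0 hk
  have n1 : N / k < 1 := (div_lt_one hk).2 N1
  have e3 : ((θ + t * (N / k - θ) : ℝ) : Ci) = 0 := by
    rw [← e2, mul_sub, AddCircle.coe_add, AddCircle.coe_sub, hθ, coe_fr]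
    rw [← sub_eq_zero] at e
    rw [← neg_eq_zero, ← e]; abel
  have b0 : 0 < θ + t * (N / k - θ) := by
    rcases le_total (N / k) θ with h | h <;> nlinarith
  have b1 : θ + t * (N / k - θ) < 1 := by
    rcases le_total (N / k) θ with h | h <;> nlinarith
  have := fr_coe b0.le b1
  rw [e3, fr_zero] at this
  linarith

open Classical in
/-- the `k` solutions of `k • x = r` -/
noncomputable def Rt (k : ℕ) (r : ℝ) : Finset Ci :=
  Finset.univ.image fun j : Fin k => (((r + j) / k : ℝ) : Ci)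

lemma mem_Rt {k : ℕ} (hk : 0 < k) {r : ℝ} {x : Ci} : x ∈ Rt k r ↔ k • x = (r : Ci) := by
  classical
  have hk' : (k:ℝ) ≠ 0 := by exact_mod_cast hk.ne'
  simp only [Rt, Finset.mem_image, Finset.mem_univ, true_and]
  constructor
  · rintro ⟨j, rfl⟩
    rw [← AddCircle.coe_nsmul, nsmul_eq_mul, mul_div_cancel₀ _ hk', AddCircle.coe_add,
      add_eq_left, AddCircle.coe_eq_zero_iff]
    exact ⟨(j : ℕ), by simp⟩
  · intro h
    rw [← coe_fr x, ← AddCircle.coe_nsmul, ← sub_eq_zero, ← AddCircle.coe_sub,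
      AddCircle.coe_eq_zero_iff] at h
    obtain ⟨m, hm⟩ := h
    have hk2 : (0:ℤ) < k := by exact_mod_cast hk
    have m0 := Int.emod_nonneg m hk2.ne'
    have m1 := Int.emod_lt_of_pos m hk2
    refine ⟨⟨(m % k).toNat, by omega⟩, ?_⟩
    rw [← coe_fr x, ← sub_eq_zero, ← AddCircle.coe_sub, AddCircle.coe_eq_zero_iff]
    refine ⟨-(m / k), ?_⟩
    have e1 : (((m % k).toNat : ℕ) : ℝ) = ((m % k : ℤ) : ℝ) := by
      exact_mod_cast congrArg (Int.cast : ℤ → ℝ) (Int.toNat_of_nonneg m0)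
    have e2 : (k:ℝ) * ((m / k : ℤ) : ℝ) + ((m % k : ℤ) : ℝ) = m := by
      exact_mod_cast congrArg (Int.cast : ℤ → ℝ) (Int.mul_ediv_add_emod m k)
    simp only [zsmul_eq_mul, mul_one, nsmul_eq_mul] at hm ⊢
    rw [e1]
    push_cast
    field_simp
    linarith

lemma Rt_inj {k : ℕ} (r : ℝ) : Function.Injective fun j : Fin k => (((r + j) / k : ℝ) : Ci) := by
  intro i j h
  have hk : (0:ℝ) < k := by exact_mod_cast i.pos
  have f : ∀ i : Fin k, (((r + i) / k : ℝ) : Ci) = ((r / k : ℝ) : Ci) + (((i:ℝ) / k : ℝ) : Ci) := by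
    intro i; rw [← AddCircle.coe_add, add_div]
  simp only [f, add_right_inj] at h
  have b : ∀ i : Fin k, fr (((i:ℝ) / k : ℝ) : Ci) = (i:ℝ) / k := fun i =>
    fr_coe (by positivity) ((div_lt_one hk).2 (by exact_mod_cast i.2))
  have := congrArg fr h
  rw [b, b, div_left_inj' hk.ne'] at this
  exact Fin.ext (by exact_mod_cast this)

lemma Rt_card (k : ℕ) (r : ℝ) : (Rt k r).card = k := by
  classical
  rw [Rt, Finset.card_image_of_injective _ (Rt_inj r)]; simp

lemma Rt_fam {k : ℕ} (hk : 0 < k) : Fam k fun u : Ci => Rt k (fr u) := by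
  classical
  refine ⟨fun W hW => ?_, fun _ => Rt_card _ _⟩
  have hq : IsQuotientMap ((↑) : ℝ → Ci) := QuotientAddGroup.isQuotientMap_mk _
  rw [← hq.isOpen_preimage]
  have : ((↑) : ℝ → Ci) ⁻¹' {a | ∃ p ∈ Rt k (fr a), p ∈ W}
      = ⋃ j : Fin k, (fun r : ℝ => (((r + j) / k : ℝ) : Ci)) ⁻¹' W := by
    ext r
    have : Rt k (fr (r : Ci)) = Rt k r := by
      ext x; rw [mem_Rt hk, mem_Rt hk, coe_fr]
    simp only [mem_preimage, mem_ofPred_eq, this]
    simp [Rt]
  rw [this]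
  exact isOpen_iUnion fun j => hW.preimage (cont_coe.comp (by fun_prop))

lemma Rt_sum {k : ℕ} (hk : 0 < k) (r : ℝ) :
    ∑ x ∈ Rt k r, x = (r : Ci) + ((∑ j : Fin k, (j:ℝ) / k : ℝ) : Ci) := by
  classical
  have hk' : (k:ℝ) ≠ 0 := by exact_mod_cast hk.ne'
  rw [Rt, Finset.sum_image fun i _ j _ h => Rt_inj r h, ← coe_sum, ← AddCircle.coe_add]
  congr 1
  simp only [add_div, Finset.sum_add_distrib, Finset.sum_const, Finset.card_univ, Fintype.card_fin,
    nsmul_eq_mul]
  field_simp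

lemma sum_cont (k : ℕ) : Continuous fun y : B Ci k => ∑ x ∈ y.1, x :=
  fam_val.sum (fun w => w.2) continuous_snd.continuousOn

lemma balance (n : ℕ) :
    HT (n + 1) (fun y : B Ci (n + 1) => y.1) fun y => Rt (n + 1) (fr (∑ x ∈ y.1, x)) := by
  classical
  have hk : 0 < n + 1 := Nat.succ_pos n
  have hk' : ((n + 1 : ℕ) : ℝ) ≠ 0 := by exact_mod_cast hk.ne'
  have h0 : Fam (n + 1) fun w : unitInterval × B Ci (n + 1) => w.2.1 := fam_val.comp continuous_snd
  have hF : Fam (n + 1) fun w : unitInterval × B Ci (n + 1) =>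
      w.2.1.image fun p => p + (((w.1 : ℝ) * Dp (n + 1) w.2.1 p : ℝ) : Ci) := by
    refine h0.image (fun u => u.2 + (((u.1.1 : ℝ) * Dp (n + 1) u.1.2.1 u.2 : ℝ) : Ci)) ?_
      fun w => mv_inj w.2.2 w.1.2.1 w.1.2.2
    rw [continuousOn_iff_continuous_domRestrict]
    have hE : Fam n fun w : {w : (unitInterval × B Ci (n + 1)) × Ci | w.2 ∈ w.1.2.1} =>
        w.1.1.2.1.erase w.1.2 :=
      (h0.comp (continuous_fst.comp continuous_subtype_val)).erase (by fun_prop) fun w => w.2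
    have hs := hE.sum (fun u => fr (u.2 - u.1.1.2)) (by
      intro u hu
      refine ContinuousAt.continuousWithinAt ?_
      exact ContinuousAt.comp (f := fun u : {w : (unitInterval × B Ci (n + 1)) × Ci |
        w.2 ∈ w.1.2.1} × Ci => u.2 - u.1.1.2) (fr_contAt (sub_ne_zero.2 (Finset.mem_erase.1 hu).1))
        (Continuous.continuousAt (by fun_prop)))
    refine Continuous.add (by fun_prop) (cont_coe.comp (Continuous.mul (by fun_prop) ?_))
    exact hs.div_const _
  refine ⟨_, hF, fun y => by simp, fun y => ?_⟩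
  apply Finset.eq_of_subset_of_card_le
  · intro x hx
    obtain ⟨p, hp, rfl⟩ := Finset.mem_image.1 hx
    rw [mem_Rt hk, coe_fr, nsmul_add, ← AddCircle.coe_nsmul, Dp_eq]
    simp only [Set.Icc.coe_one, one_mul, nsmul_eq_mul]
    rw [mul_div_cancel₀ _ hk', coe_sum]
    simp only [coe_fr, Finset.sum_sub_distrib, Finset.sum_const]
    rw [y.2]; abel
  · rw [Rt_card, hF.card (1, y)]

theorem circle_hmono (n : ℕ) : ∃ s : B Ci (n + 1) → B Ci (n + 2), HMono s := by
  have m1 : HMono fun y : B Ci (n + 1) => ∑ x ∈ y.1, x :=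
    HMono.of_left (sum_cont _) (Rt_fam (Nat.succ_pos n)).cont (ht_iff.2 (balance n).symm)
  have m2 : HMono (Rt_fam (Nat.succ_pos (n + 1))).toB := by
    refine HMono.of_left (r := fun y => ∑ x ∈ y.1, x -
      ((∑ j : Fin (n + 2), (j:ℝ) / (n + 2 : ℕ) : ℝ) : Ci)) (Fam.cont _)
      ((sum_cont _).sub continuous_const) ?_
    convert Hty.refl (continuous_id (X := Ci)) using 1
    funext u
    simp only [Function.comp, Fam.toB, id]
    rw [Rt_sum (Nat.succ_pos _), coe_fr, add_sub_cancel_right]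
  exact ⟨_, m2.comp m1⟩

end Pool.Agent.H407Z.TC
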