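import Pool.Agent.H407Z.T3

set_option autoImplicit false

/-! A star-shaped neighbourhood with one ray or at least three rays gives local data. -/

namespace Pool.Agent.H407Z.TC
open Set Topology Filter

theorem star_loc {X D : Type} [TopologicalSpace X] [T2Space X] [Finite D] (v : X) (ρ : X → ℝ)
    (r : D → ℝ → X) (ρc : Continuous ρ) (rc : ∀ d, Continuous (r d)) (ρ0 : ∀ x, 0 ≤ ρ x)
    (r0 : ∀ d, r d 0 = v) (ρr : ∀ d u, 0 ≤ u → u ≤ 1 / 2 → ρ (r d u) = u)
    (cov : ∀ x, ρ x < 1 / 2 → ∃ d, x = r d (ρ x))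
    (inj : ∀ d d' u, 0 < u → u < 1 / 2 → r d u = r d' u → d = d')
    (d1 : D) (j : D → D) (hj : ∀ d, d ≠ d1 → j d ≠ d1 ∧ j d ≠ d) : Nonempty (Loc X) := by
  classical
  have ρv : ρ v = 0 := by rw [← r0 d1, ρr d1 0 le_rfl (by norm_num)]
  let c : ℝ × ℝ × X → ℝ := fun w => max w.2.1 0 * max (min w.1 (1 / 4) - ρ w.2.2) 0 / 2
  have cc : Continuous c := by simp only [c]; fun_prop
  have c0 : ∀ w, 0 ≤ c w := fun w =>
    div_nonneg (mul_nonneg (le_max_right _ _) (le_max_right _ _)) (by norm_num)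
  have cfar : ∀ w : ℝ × ℝ × X, min w.1 (1 / 4) ≤ ρ w.2.2 → c w = 0 := by
    intro w h
    simp only [c]
    rw [max_eq_right (show min w.1 (1 / 4) - ρ w.2.2 ≤ 0 by linarith)]; simp
  have cτ : ∀ δ x, c (δ, 0, x) = 0 := by intro δ x; simp [c]
  have cle : ∀ δ τ x, δ ≤ 1 / 4 → 0 ≤ τ → τ ≤ 1 → ρ x ≤ δ → 2 * c (δ, τ, x) ≤ δ - ρ x := by
    intro δ τ x h1 t0 t1 h
    simp only [c]
    rw [min_eq_left h1, max_eq_left t0, max_eq_left (show 0 ≤ δ - ρ x by linarith)]
    nlinarith
  have cone : ∀ δ x, δ ≤ 1 / 4 → ρ x ≤ δ → 2 * c (δ, 1, x) = δ - ρ x := by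
    intro δ x h1 h
    simp only [c]
    rw [min_eq_left h1, max_eq_left zero_le_one, max_eq_left (show 0 ≤ δ - ρ x by linarith)]
    ring
  let C : Option D → Set (ℝ × ℝ × X) := fun o => match o with
    | none => {w | 1 / 3 ≤ ρ w.2.2}
    | some d => {w | w.2.2 ∈ r d '' Icc 0 (1 / 3)}
  have hC : ∀ o, IsClosed (C o) := by
    rintro (_ | d)
    · exact isClosed_le continuous_const (by fun_prop)
    · exact ((isCompact_Icc.image (rc d)).isClosed).preimage (continuous_snd.comp continuous_snd)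
  have mem : ∀ d (w : ℝ × ℝ × X), w ∈ C (some d) → w.2.2 = r d (ρ w.2.2) ∧ ρ w.2.2 ≤ 1 / 3 := by
    rintro d w ⟨u, hu, e⟩
    rw [← e, ρr d u hu.1 (by linarith [hu.2])]
    exact ⟨rfl, hu.2⟩
  have cov' : ∀ w : ℝ × ℝ × X, ρ w.2.2 ≤ 1 / 3 → ∃ d, w ∈ C (some d) := by
    intro w h
    obtain ⟨d, e⟩ := cov w.2.2 (by linarith)
    exact ⟨d, ρ w.2.2, ⟨ρ0 _, h⟩, e.symm⟩
  have hcov : ∀ w, ∃ o, w ∈ C o := by
    intro w
    rcases le_total (1 / 3) (ρ w.2.2) with h | h
    · exact ⟨none, h⟩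
    · obtain ⟨d, hd⟩ := cov' w h
      exact ⟨some d, hd⟩
  have two : ∀ d d' (w : ℝ × ℝ × X), w ∈ C (some d) → w ∈ C (some d') → d = d' ∨ ρ w.2.2 = 0 := by
    intro d d' w h h'
    rcases (ρ0 w.2.2).eq_or_lt with k | k
    · exact Or.inr k.symm
    · exact Or.inl (inj d d' _ k (by linarith [(mem d w h).2])
        ((mem d w h).1.symm.trans (mem d' w h').1))
  let FG : Option D → ℝ × ℝ × X → X := fun o w => match o with
    | none => w.2.2
    | some d => if d = d1 then r d1 (ρ w.2.2 + c w) else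
        if c w ≤ ρ w.2.2 then r d (ρ w.2.2 - c w) else r d1 (c w - ρ w.2.2)
  let FZ : Option D → ℝ × ℝ × X → X := fun o w => match o with
    | none => v
    | some d => if d = d1 then v else r (j d) (min (ρ w.2.2) (2 * c w))
  have G1 : ∀ d w, w ∈ C (some d) → c w = 0 → FG (some d) w = w.2.2 := by
    intro d w h h0
    have := (mem d w h).1
    simp only [FG, h0, add_zero, sub_zero, ρ0, if_true]
    split_ifs with k
    · rw [← k, ← this]
    · exact this.symm
  have G2 : ∀ d w, ρ w.2.2 = 0 → FG (some d) w = r d1 (c w) := by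
    intro d w h0
    simp only [FG, h0, zero_add, sub_zero]
    split_ifs with k k'
    · rfl
    · rw [le_antisymm k' (c0 w), sub_zero, r0, r0]
    · rfl
  have Z1 : ∀ d w, c w = 0 → FZ (some d) w = v := by
    intro d w h0
    simp only [FZ, h0, mul_zero, min_eq_right (ρ0 _), r0, ite_self]
  have Z2 : ∀ d w, ρ w.2.2 = 0 → FZ (some d) w = v := by
    intro d w h0
    simp only [FZ, h0, min_eq_left (show 0 ≤ 2 * c w by linarith [c0 w]), r0, ite_self]
  have far : ∀ w, w ∈ C none → c w = 0 := fun w h =>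
    cfar w ((min_le_right _ _).trans (le_trans (by norm_num) h))
  obtain ⟨G, Gc, hG⟩ := glue C hC hcov FG (by
    rintro (_ | d)
    · exact (continuous_snd.comp continuous_snd).continuousOn
    · refine Continuous.continuousOn ?_
      have := rc d
      have := rc d1
      simp only [FG]
      split_ifs
      · fun_prop
      · refine Continuous.if_le (by fun_prop) (by fun_prop) cc (by fun_prop) fun w e => ?_
        rw [e, sub_self, r0, r0]) (by
    rintro (_ | d) (_ | d') w h h'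
    · rfl
    · exact (G1 d' w h' (far w h)).symm
    · exact G1 d w h (far w h')
    · rcases two d d' w h h' with k | k
      · rw [k]
      · rw [G2 d w k, G2 d' w k])
  obtain ⟨Z, Zc, hZ⟩ := glue C hC hcov FZ (by
    rintro (_ | d)
    · exact continuousOn_const
    · refine Continuous.continuousOn ?_
      have := rc (j d)
      simp only [FZ]
      split_ifs
      · fun_prop
      · fun_prop) (by
    rintro (_ | d) (_ | d') w h h'
    · rfl
    · exact (Z1 d' w (far w h)).symm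
    · exact Z1 d w (far w h')
    · rcases two d d' w h h' with k | k
      · rw [k]
      · rw [Z2 d w k, Z2 d' w k])
  have G3 : ∀ w, c w = 0 → G w = w.2.2 := by
    intro w h0
    obtain ⟨_ | d, h⟩ := hcov w
    · exact hG none w h
    · rw [hG (some d) w h, G1 d w h h0]
  have Z3 : ∀ w, c w = 0 → Z w = v := by
    intro w h0
    obtain ⟨_ | d, h⟩ := hcov w
    · exact hZ none w h
    · rw [hZ (some d) w h, Z1 d w h0]
  have rv : ∀ d u, 0 < u → u ≤ 1 / 2 → r d u ≠ v := by
    intro d u h0 h1 e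
    have := ρr d u h0.le h1
    rw [e, ρv] at this
    linarith
  have rr : ∀ d d' u u', 0 < u → u < 1 / 2 → 0 ≤ u' → u' ≤ 1 / 2 → r d u = r d' u' → d = d' := by
    intro d d' u u' h0 h1 h2 h3 e
    have := ρr d u h0.le h1.le
    rw [e, ρr d' u' h2 h3] at this
    rw [this] at e
    exact inj d d' u h0 h1 e
  refine ⟨⟨v, ρ, G, Z, ρc, Gc, Zc, ρ0, ρv, fun x h => ?_, fun δ x _ _ => G3 _ (cτ δ x),
    fun δ τ x _ h1 h => G3 _ (cfar _ ((min_le_left _ _).trans h)), ?_,
    fun δ x _ _ => Z3 _ (cτ δ x),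
    fun δ τ x _ h1 h => Z3 _ (cfar _ ((min_le_left _ _).trans h)), ?_, ?_⟩⟩
  · obtain ⟨d, e⟩ := cov x (by linarith)
    rw [e, h, r0]
  · intro δ τ x h0 h1 t0 t1 h
    obtain ⟨d, hd⟩ := cov' (δ, τ, x) (by simp only; linarith)
    have a1 := cle δ τ x h1 t0 t1 h
    have a2 := c0 (δ, τ, x)
    have a3 := ρ0 x
    rw [hG (some d) _ hd]
    simp only [FG]
    split_ifs with k k' <;> rw [ρr _ _ (by linarith) (by linarith)] <;> linarith
  · intro δ τ x h0 h1 t0 t1
    rcases le_total δ (ρ x) with h | h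
    · rw [Z3 _ (cfar _ ((min_le_left _ _).trans h)), ρv]; exact h0.le
    obtain ⟨d, hd⟩ := cov' (δ, τ, x) (by simp only; linarith)
    have a1 := cle δ τ x h1 t0 t1 h
    have a2 := c0 (δ, τ, x)
    have a3 := ρ0 x
    have a4 := min_le_right (ρ x) (2 * c (δ, τ, x))
    rw [hZ (some d) _ hd]
    simp only [FZ]
    split_ifs with k
    · rw [ρv]; exact h0.le
    · rw [ρr _ _ (le_min a3 (by linarith)) (by linarith)]; linarith
  · intro δ x h0 h1
    rcases le_or_gt δ (ρ x) with h | h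
    · rw [Z3 _ (cfar _ ((min_le_left _ _).trans h)), G3 _ (cfar _ ((min_le_left _ _).trans h))]
      intro e
      simp only at e
      rw [← e, ρv] at h
      linarith
    obtain ⟨d, hd⟩ := cov' (δ, 1, x) (by simp only; linarith)
    have a1 := cone δ x h1 h.le
    have a3 := ρ0 x
    rw [hZ (some d) _ hd, hG (some d) _ hd]
    rcases a3.eq_or_lt with k0 | k0
    · rw [Z2 d _ k0.symm, G2 d _ k0.symm]
      exact (rv _ _ (by linarith) (by linarith)).symm
    have a4 := min_le_left (ρ x) (2 * c (δ, 1, x))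
    have a5 : 0 < min (ρ x) (2 * c (δ, 1, x)) := lt_min k0 (by linarith)
    simp only [FZ, FG]
    split_ifs with k k'
    · exact (rv _ _ (by linarith) (by linarith)).symm
    · exact fun e => (hj d k).2 (rr _ _ _ _ a5 (by linarith) (by linarith) (by linarith) e)
    · exact fun e => (hj d k).1 (rr _ _ _ _ a5 (by linarith) (by linarith) (by linarith) e)

end Pool.Agent.H407Z.TC
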