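import Pool.Agent.H407Z.T5
import Pool.Agent.H407Z.T4

set_option autoImplicit false

/-! Finite graphs. -/

namespace Pool.Agent.H407Z.TC
open Set Topology Filter

section
variable {a m : ℕ} (s t : Fin m → Fin a)

/-- the graph -/
abbrev Gr : Type := Quot (fun p q : Fin a ⊕ (Fin m × unitInterval) =>
  ∃ e : Fin m, (p = Sum.inr (e, 0) ∧ q = Sum.inl (s e)) ∨ (p = Sum.inr (e, 1) ∧ q = Sum.inl (t e)))

/-- a vertex -/
def vx (w : Fin a) : Gr s t := Quot.mk _ (Sum.inl w)
/-- a point of an edge -/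
def ed (e : Fin m) (x : unitInterval) : Gr s t := Quot.mk _ (Sum.inr (e, x))

lemma ed0 (e : Fin m) : ed s t e 0 = vx s t (s e) := Quot.sound ⟨e, Or.inl ⟨rfl, rfl⟩⟩
lemma ed1 (e : Fin m) : ed s t e 1 = vx s t (t e) := Quot.sound ⟨e, Or.inr ⟨rfl, rfl⟩⟩

lemma ed_cont (e : Fin m) : Continuous (ed s t e) :=
  continuous_quot_mk.comp (continuous_inr.comp (continuous_const.prodMk continuous_id))

lemma lift_cont {Y : Type} [TopologicalSpace Y] (f : Fin a → Y) (g : Fin m → unitInterval → Y)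
    (hg : ∀ e, Continuous (g e)) (h0 : ∀ e, g e 0 = f (s e)) (h1 : ∀ e, g e 1 = f (t e)) :
    ∃ F : Gr s t → Y, Continuous F ∧ (∀ w, F (vx s t w) = f w) ∧ ∀ e x, F (ed s t e x) = g e x := by
  refine ⟨Quot.lift (Sum.elim f fun p => g p.1 p.2) ?_, continuous_quot_lift _ ?_,
    fun _ => rfl, fun _ _ => rfl⟩
  · rintro p q ⟨e, ⟨rfl, rfl⟩ | ⟨rfl, rfl⟩⟩
    · exact h0 e
    · exact h1 e
  · exact Continuous.sumElim continuous_of_discreteTopology
      (continuous_prod_of_discrete_left.2 hg)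

lemma gr_cases (x : Gr s t) :
    (∃ w, x = vx s t w) ∨ ∃ e, ∃ u : unitInterval, 0 < (u:ℝ) ∧ (u:ℝ) < 1 ∧ x = ed s t e u := by
  obtain ⟨w | ⟨e, u⟩⟩ := x
  · exact Or.inl ⟨w, rfl⟩
  · rcases u.2.1.eq_or_lt with h0 | h0
    · exact Or.inl ⟨s e, (congrArg (ed s t e) (Subtype.ext h0.symm)).trans (ed0 s t e)⟩
    rcases u.2.2.eq_or_lt with h1 | h1
    · exact Or.inl ⟨t e, (congrArg (ed s t e) (Subtype.ext h1)).trans (ed1 s t e)⟩
    exact Or.inr ⟨e, u, h0, h1, rfl⟩

lemma emb_exists : ∃ F : Gr s t → (Fin a → ℝ) × (Fin m → ℝ) × (Fin m → ℝ), Continuous F ∧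
    (∀ w w', F (vx s t w) = F (vx s t w') → w = w') ∧
    (∀ e (u : unitInterval) w, 0 < (u:ℝ) → (u:ℝ) < 1 → F (ed s t e u) ≠ F (vx s t w)) ∧
    ∀ e (u : unitInterval) e' u', 0 < (u:ℝ) → (u:ℝ) < 1 → F (ed s t e u) = F (ed s t e' u') →
      e = e' ∧ u = u' := by
  obtain ⟨F, hF, hv, he⟩ := lift_cont s t
    (Y := (Fin a → ℝ) × (Fin m → ℝ) × (Fin m → ℝ))
    (fun w => (fun w' => if w = w' then 1 else 0, 0, 0))
    (fun e x => (fun w' => (1 - (x:ℝ)) * (if s e = w' then 1 else 0) + x * (if t e = w' then 1 else 0),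
      fun e' => (if e = e' then 1 else 0) * (x * (1 - x)),
      fun e' => (if e = e' then 1 else 0) * (x * (x * (1 - x)))))
    (fun e => by fun_prop) (fun e => by ext <;> simp) (fun e => by ext <;> simp)
  refine ⟨F, hF, ?_, ?_, ?_⟩
  · intro w w' h
    rw [hv, hv] at h
    have := congr_fun (congrArg Prod.fst h) w
    by_contra hne
    simp [Ne.symm hne] at this
  · intro e u w h0 h1 h
    rw [hv, he] at h
    have := congr_fun (congrArg (fun z => z.2.1) h) e
    simp only [if_true, one_mul, Pi.zero_apply] at this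
    nlinarith
  · intro e u e' u' h0 h1 h
    rw [he, he] at h
    have k1 := congr_fun (congrArg (fun z => z.2.1) h) e
    have k2 := congr_fun (congrArg (fun z => z.2.2) h) e
    simp only [if_true, one_mul] at k1 k2
    have p : 0 < (u:ℝ) * (1 - u) := mul_pos h0 (by linarith)
    by_cases hee : e' = e
    · simp only [hee, if_true, one_mul] at k1 k2
      rw [← k1] at k2
      exact ⟨hee.symm, Subtype.ext (mul_right_cancel₀ p.ne' k2)⟩
    · simp only [hee, if_false, zero_mul] at k1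
      linarith

lemma vx_inj {w w' : Fin a} (h : vx s t w = vx s t w') : w = w' := by
  obtain ⟨F, -, h1, -, -⟩ := emb_exists s t
  exact h1 _ _ (congrArg F h)

lemma ed_ne_vx {e : Fin m} {u : unitInterval} (h0 : 0 < (u:ℝ)) (h1 : (u:ℝ) < 1) (w : Fin a) :
    ed s t e u ≠ vx s t w := by
  obtain ⟨F, -, -, h2, -⟩ := emb_exists s t
  exact fun h => h2 _ _ _ h0 h1 (congrArg F h)

lemma ed_inj {e e' : Fin m} {u u' : unitInterval} (h0 : 0 < (u:ℝ)) (h1 : (u:ℝ) < 1)
    (h : ed s t e u = ed s t e' u') : e = e' ∧ u = u' := by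
  obtain ⟨F, -, -, -, h3⟩ := emb_exists s t
  exact h3 _ _ _ _ h0 h1 (congrArg F h)

instance : T2Space (Gr s t) := by
  obtain ⟨F, hF, h1, h2, h3⟩ := emb_exists s t
  refine T2Space.of_injective_continuous (fun x y h => ?_) hF
  rcases gr_cases s t x with ⟨w, rfl⟩ | ⟨e, u, a0, a1, rfl⟩ <;>
    rcases gr_cases s t y with ⟨w', rfl⟩ | ⟨e', u', b0, b1, rfl⟩
  · rw [h1 _ _ h]
  · exact absurd h.symm (h2 _ _ _ b0 b1)
  · exact absurd h (h2 _ _ _ a0 a1)
  · obtain ⟨rfl, rfl⟩ := h3 _ _ _ _ a0 a1 h; rfl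

/-- the vertex of a dart -/
def en (d : Fin m × Bool) : Fin a := if d.2 then t d.1 else s d.1
/-- the opposite dart -/
def fl (d : Fin m × Bool) : Fin m × Bool := (d.1, !d.2)
/-- the edge, parametrised from a dart -/
noncomputable def ray (d : Fin m × Bool) (u : ℝ) : Gr s t :=
  ed s t d.1 (projIcc (0:ℝ) 1 zero_le_one (if d.2 then 1 - u else u))

lemma fl_fl (d : Fin m × Bool) : fl (fl d) = d := by simp [fl]
lemma fl_ne (d : Fin m × Bool) : fl d ≠ d := by
  obtain ⟨e, _ | _⟩ := d <;> simp [fl]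

lemma ray_cont (d : Fin m × Bool) : Continuous (ray s t d) := by
  refine (ed_cont s t d.1).comp (continuous_projIcc.comp ?_)
  split_ifs <;> fun_prop

lemma ray0 (d : Fin m × Bool) : ray s t d 0 = vx s t (en s t d) := by
  obtain ⟨e, _ | _⟩ := d
  · simpa [ray, en] using ed0 s t e
  · simpa [ray, en] using ed1 s t e

lemma ray_fl (d : Fin m × Bool) (u : ℝ) : ray s t (fl d) u = ray s t d (1 - u) := by
  obtain ⟨e, _ | _⟩ := d <;> simp [ray, fl]

lemma ray1 (d : Fin m × Bool) : ray s t d 1 = vx s t (en s t (fl d)) := by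
  rw [← ray0, ray_fl, sub_zero]

lemma ray_f (e : Fin m) (u : unitInterval) : ray s t (e, false) u = ed s t e u := by
  simp [ray]

lemma ray_ne_vx {d : Fin m × Bool} {u : ℝ} (h0 : 0 < u) (h1 : u < 1) (w : Fin a) :
    ray s t d u ≠ vx s t w := by
  obtain ⟨e, _ | _⟩ := d
  · simp only [ray, Bool.false_eq_true, if_false]
    rw [projIcc_of_mem _ ⟨h0.le, h1.le⟩]
    exact ed_ne_vx s t h0 h1 w
  · simp only [ray, if_true]
    rw [projIcc_of_mem _ ⟨by linarith, by linarith⟩]
    exact ed_ne_vx s t (by simp only; linarith) (by simp only; linarith) w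

lemma ray_inj {d d' : Fin m × Bool} {u u' : ℝ} (h0 : 0 < u) (h1 : u < 1) (h0' : 0 ≤ u')
    (h1' : u' ≤ 1) (h : ray s t d u = ray s t d' u') :
    (d' = d ∧ u' = u) ∨ (d' = fl d ∧ u' = 1 - u) := by
  obtain ⟨e, _ | _⟩ := d <;> obtain ⟨e', _ | _⟩ := d' <;>
    simp only [ray, Bool.false_eq_true, if_false, if_true] at h <;>
    rw [projIcc_of_mem _ ⟨by linarith, by linarith⟩,
      projIcc_of_mem _ ⟨by linarith, by linarith⟩] at h <;>
    obtain ⟨rfl, k⟩ := ed_inj s t (by simp only; linarith) (by simp only; linarith) h <;>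
    have k' := congrArg Subtype.val k <;> simp only at k'
  · exact Or.inl ⟨rfl, k'.symm⟩
  · exact Or.inr ⟨rfl, by linarith⟩
  · exact Or.inr ⟨rfl, by linarith⟩
  · exact Or.inl ⟨rfl, by linarith⟩

theorem gr_loc (d1 : Fin m × Bool)
    (h : ∀ d, d ≠ d1 → en s t d = en s t d1 → ∃ d', en s t d' = en s t d1 ∧ d' ≠ d1 ∧ d' ≠ d) :
    Nonempty (Loc (Gr s t)) := by
  set v := en s t d1 with hv
  obtain ⟨ρ, ρc, ρv, ρe⟩ := lift_cont s t (Y := ℝ) (fun w => if w = v then 0 else 1)
    (fun e x => min (if s e = v then (x:ℝ) else 1) (if t e = v then 1 - (x:ℝ) else 1))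
    (fun e => by split_ifs <;> fun_prop) (fun e => by split_ifs <;> simp)
    (fun e => by split_ifs <;> simp)
  have hj : ∀ d : {d // en s t d = v}, ∃ d' : {d // en s t d = v},
      d ≠ ⟨d1, rfl⟩ → d' ≠ ⟨d1, rfl⟩ ∧ d' ≠ d := by
    intro d
    by_cases k : d = ⟨d1, rfl⟩
    · exact ⟨d, fun k' => absurd k k'⟩
    · obtain ⟨d', e1, e2, e3⟩ := h d.1 (fun k' => k (Subtype.ext k')) d.2
      exact ⟨⟨d', e1⟩, fun _ => ⟨fun k' => e2 (congrArg Subtype.val k'),
        fun k' => e3 (congrArg Subtype.val k')⟩⟩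
  choose j hj using hj
  refine star_loc (D := {d // en s t d = v}) (vx s t v) ρ (fun d => ray s t d.1) ρc
    (fun d => ray_cont s t d.1) ?_ (fun d => by rw [ray0, d.2]) ?_ ?_ ?_ ⟨d1, rfl⟩ j hj
  · intro x
    rcases gr_cases s t x with ⟨w, rfl⟩ | ⟨e, u, a0, a1, rfl⟩
    · rw [ρv]; split_ifs <;> norm_num
    · rw [ρe]; refine le_min ?_ ?_ <;> split_ifs <;> linarith
  · rintro ⟨⟨e, _ | _⟩, hd⟩ u h0 h1
    · have : s e = v := by simpa [en] using hd
      simp only [ray, Bool.false_eq_true, if_false]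
      rw [projIcc_of_mem _ ⟨h0, by linarith⟩, ρe, if_pos this]
      refine min_eq_left ?_
      split_ifs <;> simp only <;> linarith
    · have : t e = v := by simpa [en] using hd
      simp only [ray, if_true]
      rw [projIcc_of_mem _ ⟨by linarith, by linarith⟩, ρe, if_pos this, min_eq_right]
      · simp
      · split_ifs <;> simp only <;> linarith
  · intro x hx
    rcases gr_cases s t x with ⟨w, rfl⟩ | ⟨e, u, a0, a1, rfl⟩
    · rw [ρv] at hx ⊢
      split_ifs at hx ⊢ with k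
      · exact ⟨⟨d1, rfl⟩, by rw [k]; exact (ray0 s t d1).symm⟩
      · linarith
    · rw [ρe] at hx ⊢
      rcases le_total (if s e = v then (u:ℝ) else 1) (if t e = v then 1 - (u:ℝ) else 1) with k | k
      · rw [min_eq_left k] at hx ⊢
        split_ifs at hx ⊢ with k'
        · exact ⟨⟨(e, false), k'⟩, (ray_f s t e u).symm⟩
        · linarith
      · rw [min_eq_right k] at hx ⊢
        split_ifs at hx ⊢ with k'
        · refine ⟨⟨(e, true), k'⟩, ?_⟩
          show _ = ray s t (fl (e, false)) _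
          rw [ray_fl, sub_sub_cancel, ray_f]
        · linarith
  · intro d d' u h0 h1 e
    rcases ray_inj s t h0 (by linarith) h0.le (by linarith) e with k | k
    · exact Subtype.ext k.1.symm
    · linarith [k.2]

theorem gr_cycle [ConnectedSpace (Gr s t)] (d0 : Fin m × Bool) (ν : Fin m × Bool → Fin m × Bool)
    (n1 : ∀ d, ν d ≠ d) (n2 : ∀ d, en s t (ν d) = en s t d)
    (n3 : ∀ d d', en s t d' = en s t d → d' = d ∨ d' = ν d) : Nonempty (Gr s t ≃ₜ Ci) := by
  have νν : ∀ d, ν (ν d) = d := fun d =>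
    ((n3 (ν d) d (n2 d).symm).resolve_left (n1 d).symm).symm
  have νi : Function.Injective ν := Function.LeftInverse.injective νν
  have fi : Function.Injective (fl (m := m)) := Function.LeftInverse.injective fl_fl
  let φ : Fin m × Bool → Fin m × Bool := fun d => ν (fl d)
  have φi : Function.Injective φ := νi.comp fi
  have dih : ∀ n d, φ^[n] d ≠ fl d := by
    intro n
    induction n using Nat.twoStepInduction with
    | zero => exact fun d => (fl_ne d).symm
    | one => exact fun d => n1 _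
    | more n ih _ =>
      intro d h
      rw [Function.iterate_succ_apply', Function.iterate_succ_apply] at h
      apply ih (φ d)
      have := congrArg (fun x => fl (ν x)) h
      simpa only [φ, νν, fl_fl] using this
  let q : ℕ → Fin m × Bool := fun i => φ^[i] d0
  have qs : ∀ i, q (i + 1) = ν (fl (q i)) := fun i => Function.iterate_succ_apply' φ i d0
  have q1 : ∀ i j, q j ≠ fl (q i) := by
    have : ∀ i j, i ≤ j → q j ≠ fl (q i) := by
      intro i j hij
      obtain ⟨l, rfl⟩ := Nat.exists_eq_add_of_le' hij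
      have := dih l (q i)
      rwa [← Function.iterate_add_apply] at this
    intro i j h
    rcases le_total i j with k | k
    · exact this i j k h
    · exact this j i k (by rw [h, fl_fl])
  have q2 : ∀ i j, q j ≠ ν (q i) := by
    have : ∀ i j, i ≤ j → q j ≠ ν (q i) := by
      intro i j hij h
      rcases j with _ | j
      · rw [Nat.le_zero.1 hij] at h; exact n1 _ h.symm
      · rw [qs] at h
        exact q1 j i (νi h).symm
    intro i j h
    rcases le_total i j with k | k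
    · exact this i j k h
    · exact this j i k (by rw [h, νν])
  let N := Function.minimalPeriod φ d0
  have N0 : 0 < N := Function.minimalPeriod_pos_of_mem_periodicPts (φi.mem_periodicPts d0)
  have qN : q N = q 0 := Function.iterate_minimalPeriod
  have qmod : ∀ i, q (i % N) = q i := fun i => Function.iterate_mod_minimalPeriod_eq
  have qi : ∀ i j, i < N → j < N → q i = q j → i = j := fun i j hi hj h =>
    (Function.iterate_eq_iterate_iff_of_lt_minimalPeriod hi hj).1 h
  have N0' : (0:ℝ) < N := by exact_mod_cast N0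
  have : Fact ((0:ℝ) < N) := ⟨N0'⟩
  let c : ℝ → Gr s t := fun x => ray s t (q ⌊x⌋₊) (x - ⌊x⌋₊)
  have r1 : ∀ i, ray s t (q i) 1 = ray s t (q (i + 1)) 0 := fun i => by
    rw [ray1, ray0, qs, n2]
  have cj : ∀ (i : ℕ) (x : ℝ), x ∈ Icc (i:ℝ) (i + 1) → c x = ray s t (q i) (x - i) := by
    intro i x hx
    rcases hx.2.eq_or_lt with h | h
    · have : ⌊x⌋₊ = i + 1 := by rw [h]; exact_mod_cast Nat.floor_natCast (R := ℝ) (i + 1)
      simp only [c, this]
      rw [h]; push_cast
      rw [sub_self, add_sub_cancel_left, r1]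
    · have : ⌊x⌋₊ = i := (Nat.floor_eq_iff ((Nat.cast_nonneg i).trans hx.1)).2 ⟨hx.1, h⟩
      simp only [c, this]
  have cc : ContinuousOn c (Icc 0 N) := by
    have := (locallyFinite_of_finite fun i : Fin N => Icc ((i:ℕ):ℝ) ((i:ℕ) + 1)).continuousOn_iUnion
      (g := c) (fun i => isClosed_Icc) fun i =>
        (((ray_cont s t (q i)).comp (continuous_id.sub continuous_const)).continuousOn).congr
          (cj i)
    refine this.mono fun x hx => ?_
    rcases hx.2.eq_or_lt with h | h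
    · refine mem_iUnion.2 ⟨⟨N - 1, by omega⟩, ?_⟩
      have : ((N - 1 : ℕ) : ℝ) = N - 1 := by rw [Nat.cast_sub N0]; simp
      simp only [this, h]
      constructor <;> linarith
    · exact mem_iUnion.2 ⟨⟨⌊x⌋₊, (Nat.floor_lt hx.1).2 h⟩, Nat.floor_le hx.1,
        (Nat.lt_floor_add_one x).le⟩
  have c0 : c 0 = c N := by simp [c, qN]
  let F : AddCircle (N:ℝ) → Gr s t := AddCircle.liftIco (N:ℝ) 0 c
  have Fc : Continuous F := AddCircle.liftIco_zero_continuous c0 cc
  have Fe : ∀ x ∈ Ico (0:ℝ) N, F x = c x := fun x hx => AddCircle.liftIco_zero_coe_apply hx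
  have ex : ∀ u : AddCircle (N:ℝ), ∃ x ∈ Ico (0:ℝ) N, (x : AddCircle (N:ℝ)) = u :=
    AddCircle.eq_coe_Ico
  have f0 : ∀ x : ℝ, 0 ≤ x → 0 ≤ x - ⌊x⌋₊ := fun x hx => sub_nonneg.2 (Nat.floor_le hx)
  have f1 : ∀ x : ℝ, x - ⌊x⌋₊ < 1 := fun x => by linarith [Nat.lt_floor_add_one x]
  have Fi : Function.Injective F := by
    intro u w h
    obtain ⟨x, hx, rfl⟩ := ex u
    obtain ⟨y, hy, rfl⟩ := ex w
    rw [Fe x hx, Fe y hy] at h
    have hx' := (Nat.floor_lt hx.1).2 hx.2
    have hy' := (Nat.floor_lt hy.1).2 hy.2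
    congr 1
    simp only [c] at h
    rcases (f0 x hx.1).eq_or_lt with k | k
    · rw [← k, ray0] at h
      rcases (f0 y hy.1).eq_or_lt with k' | k'
      · rw [← k', ray0] at h
        rcases n3 _ _ (vx_inj s t h) with e | e
        · rw [qi _ _ hx' hy' e] at k; linarith
        · exact absurd e (q2 _ _)
      · exact absurd h.symm (ray_ne_vx s t k' (f1 y) _)
    · rcases ray_inj s t k (f1 x) (f0 y hy.1) (f1 y).le h with ⟨e, e'⟩ | ⟨e, -⟩
      · rw [qi _ _ hy' hx' e] at e'; linarith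
      · exact absurd e (q1 _ _)
  have K0 : ∀ i u, 0 ≤ u → u < 1 → ray s t (q i) u ∈ range F := by
    intro i u h0 h1
    have hi : ((i % N : ℕ) : ℝ) + 1 ≤ N := by exact_mod_cast Nat.mod_lt i N0
    have hi0 : (0:ℝ) ≤ (i % N : ℕ) := Nat.cast_nonneg _
    refine ⟨((i % N : ℕ) + u : ℝ), ?_⟩
    rw [Fe _ ⟨by linarith, by linarith⟩, cj (i % N) _ ⟨by linarith, by linarith⟩, qmod,
      add_sub_cancel_left]
  have K1 : ∀ i u, 0 ≤ u → u ≤ 1 → ray s t (q i) u ∈ range F := by
    intro i u h0 h1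
    rcases h1.eq_or_lt with h | h
    · rw [h, r1]; exact K0 _ _ le_rfl one_pos
    · exact K0 i u h0 h
  have K2 : ∀ i d u, (d = q i ∨ d = fl (q i)) → 0 ≤ u → u ≤ 1 → ray s t d u ∈ range F := by
    rintro i d u (rfl | rfl) h0 h1
    · exact K1 i u h0 h1
    · rw [ray_fl]; exact K1 i _ (by linarith) (by linarith)
  have K3 : ∀ i d, en s t d = en s t (q i) → ∃ j, d = q j ∨ d = fl (q j) := by
    intro i d h
    rcases n3 _ _ h with e | e
    · exact ⟨i, Or.inl e⟩
    · refine ⟨i + (N - 1), Or.inr ?_⟩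
      have : q (i + (N - 1) + 1) = q i := by
        rw [← qmod, show i + (N - 1) + 1 = i + N by omega, Nat.add_mod_right, qmod]
      rw [e, ← this, qs, νν]
  have K4 : ∀ d u, 0 ≤ u → u ≤ 1 → ray s t d u ∈ range F → ∃ j, d = q j ∨ d = fl (q j) := by
    rintro d u h0 h1 ⟨w, h⟩
    obtain ⟨x, hx, rfl⟩ := ex w
    rw [Fe x hx] at h
    simp only [c] at h
    rcases (f0 x hx.1).eq_or_lt with k | k
    · rw [← k, ray0] at h
      rcases h0.eq_or_lt with a0 | a0
      · rw [← a0, ray0] at h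
        exact K3 _ _ (vx_inj s t h).symm
      rcases h1.eq_or_lt with a1 | a1
      · rw [a1, ray1] at h
        obtain ⟨j, e | e⟩ := K3 _ _ (vx_inj s t h).symm
        · exact ⟨j, Or.inr (by rw [← e, fl_fl])⟩
        · exact ⟨j, Or.inl (fi e)⟩
      exact absurd h.symm (ray_ne_vx s t a0 a1 _)
    · rcases ray_inj s t k (f1 x) h0 h1 h with ⟨e, -⟩ | ⟨e, -⟩
      · exact ⟨_, Or.inl e⟩
      · exact ⟨_, Or.inr e⟩
  have Ko : IsOpen (range F) := by
    rw [← isQuotientMap_quot_mk.isOpen_preimage, isOpen_sum_iff]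
    refine ⟨isOpen_discrete _, ?_⟩
    convert (isOpen_discrete {e | ed s t e 0 ∈ range F}).preimage
      (continuous_fst (X := Fin m) (Y := unitInterval)) using 1
    ext ⟨e, x⟩
    have key : ∀ x y : unitInterval, ed s t e x ∈ range F → ed s t e y ∈ range F := by
      intro x y h
      rw [← ray_f] at h ⊢
      obtain ⟨j, hj⟩ := K4 _ _ x.2.1 x.2.2 h
      exact K2 j _ _ hj y.2.1 y.2.2
    exact ⟨key x 0, key 0 x⟩
  have Fs : Function.Surjective F :=
    range_eq_univ.1 (IsClopen.eq_univ ⟨(isCompact_range Fc).isClosed, Ko⟩ (range_nonempty F))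
  exact ⟨(Continuous.homeoOfEquivCompactToT2 (f := Equiv.ofBijective F ⟨Fi, Fs⟩) Fc).symm.trans
    (AddCircle.homeomorphAddCircle (N:ℝ) 1 N0'.ne' one_ne_zero)⟩

theorem gr_hmono [ConnectedSpace (Gr s t)] (hm : 1 ≤ m) (n : ℕ) :
    ∃ f : B (Gr s t) (n + 1) → B (Gr s t) (n + 2), HMono f := by
  classical
  by_cases h : ∃ d1, ∀ d, d ≠ d1 → en s t d = en s t d1 →
      ∃ d', en s t d' = en s t d1 ∧ d' ≠ d1 ∧ d' ≠ d
  · obtain ⟨d1, h⟩ := h
    obtain ⟨L⟩ := gr_loc s t d1 h
    exact L.hmono n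
  · push Not at h
    choose ν n1 n2 n3 using h
    obtain ⟨e⟩ := gr_cycle s t (⟨0, hm⟩, false) ν n1 n2 fun d d' k => by
      by_cases k' : d' = d
      · exact Or.inl k'
      · exact Or.inr (n3 d d' k k')
    obtain ⟨f, hf⟩ := circle_hmono n
    obtain ⟨e1⟩ := B_homeo e (n + 1)
    obtain ⟨e2⟩ := B_homeo e.symm (n + 2)
    exact ⟨_, ((HMono.homeo e2).comp hf).comp (HMono.homeo e1)⟩

end
end Pool.Agent.H407Z.TC
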